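import Pool.Agent.Lib.MP_ce3cb6_co.LB.Latin

/-!
# MP_ce3cb6_co, line version: the base square (a group table prolonged along `|R|` transversals) and its isotopes
-/

set_option autoImplicit false

namespace Pool.Agent.Lib.MP_ce3cb6_co.LB

open Finset

variable {G R : Type} [Group G] [DecidableEq G] [DecidableEq R]

open Classical in
/-- the base square -/
noncomputable def base (θ : Equiv.Perm G) (c : R → G) (q : R → R → R) : G ⊕ R → G ⊕ R → G ⊕ R
  | Sum.inl g, Sum.inl h => if H : ∃ t, θ g * c t = h then Sum.inr H.choose else Sum.inl (g * h)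
  | Sum.inl g, Sum.inr t => Sum.inl (g * θ g * c t)
  | Sum.inr t, Sum.inl h => Sum.inl (θ.symm (h * (c t)⁻¹) * h)
  | Sum.inr t, Sum.inr t' => Sum.inr (q t t')

/-- the isotope with the row, column and symbol permutations `ρ`, `σ`, `τ` of `G` (identity on `R`) -/
noncomputable def iso (θ : Equiv.Perm G) (c : R → G) (q : R → R → R) (ρ σ τ : Equiv.Perm G) :
    G ⊕ R → G ⊕ R → G ⊕ R :=
  fun x y => Sum.map τ id (base θ c q (Sum.map ρ id x) (Sum.map σ id y))

variable {θ : Equiv.Perm G} {c : R → G} {q : R → R → R} {ρ σ τ : Equiv.Perm G}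

private theorem base_sp (hc : Function.Injective c) {g h : G} {t : R} (H : θ g * c t = h) :
    base θ c q (Sum.inl g) (Sum.inl h) = Sum.inr t := by
  have hex : ∃ t, θ g * c t = h := ⟨t, H⟩
  have h1 : base θ c q (Sum.inl g) (Sum.inl h) = Sum.inr hex.choose := by
    simp only [base]
    rw [dif_pos hex]
  rw [h1]
  congr 1
  apply hc
  exact mul_left_cancel (hex.choose_spec.trans H.symm)

private theorem base_or {g h : G} (H : ∀ t, θ g * c t ≠ h) :
    base θ c q (Sum.inl g) (Sum.inl h) = Sum.inl (g * h) := by
  have hex : ¬ ∃ t, θ g * c t = h := fun ⟨t, ht⟩ => H t ht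
  simp only [base]
  rw [dif_neg hex]

private theorem base_cases (hc : Function.Injective c) (g h : G) :
    (∃ t, θ g * c t = h ∧ base θ c q (Sum.inl g) (Sum.inl h) = Sum.inr t) ∨
    ((∀ t, θ g * c t ≠ h) ∧ base θ c q (Sum.inl g) (Sum.inl h) = Sum.inl (g * h)) := by
  by_cases H : ∃ t, θ g * c t = h
  · obtain ⟨t, ht⟩ := H
    exact Or.inl ⟨t, ht, base_sp hc ht⟩
  · have H' : ∀ t, θ g * c t ≠ h := fun t ht => H ⟨t, ht⟩
    exact Or.inr ⟨H', base_or H'⟩

/-- Rows: in row `g` the symbols are `g h` (`h ≠ θ g c_t`), the `t ∈ R` (at `h = θ g c_t`), and `g θ g c_t = g h` in the new columns.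
Columns: in column `h` the cell of row `g = θ⁻¹(h c_t⁻¹)` contains `t` and `g h` is in the new row `t`. The new row `t` contains
`g θ(g) c_t` in column `h = θ g c_t`, injective in `g` by `hη`. -/
theorem base_latin (hη : Function.Bijective fun g => g * θ g) (hc : Function.Injective c) (hq : Latin q) :
    Latin (base θ c q) := by
  have hη' : ∀ g g' : G, g * θ g = g' * θ g' → g = g' := fun g g' h => hη.1 h
  constructor
  · rintro (g | t)
    · rintro (h | t) (h' | t') e
      · rcases base_cases (θ := θ) (q := q) hc g h with ⟨t, ht, e1⟩ | ⟨hn, e1⟩ <;>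
        rcases base_cases (θ := θ) (q := q) hc g h' with ⟨t', ht', e2⟩ | ⟨hn', e2⟩
        · rw [e1, e2] at e
          have : t = t' := Sum.inr.inj e
          subst this
          rw [← ht, ← ht']
        · rw [e1, e2] at e
          exact absurd e (by simp)
        · rw [e1, e2] at e
          exact absurd e (by simp)
        · rw [e1, e2] at e
          have := mul_left_cancel (Sum.inl.inj e)
          rw [this]
      · rcases base_cases (θ := θ) (q := q) hc g h with ⟨t, ht, e1⟩ | ⟨hn, e1⟩
        · rw [e1] at e
          exact absurd e (by simp [base])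
        · rw [e1] at e
          have e' : g * h = g * θ g * c t' := Sum.inl.inj e
          rw [mul_assoc] at e'
          exact absurd (mul_left_cancel e').symm (hn t')
      · rcases base_cases (θ := θ) (q := q) hc g h' with ⟨t', ht, e1⟩ | ⟨hn, e1⟩
        · rw [e1] at e
          exact absurd e (by simp [base])
        · rw [e1] at e
          have e' : g * θ g * c t = g * h' := Sum.inl.inj e
          rw [mul_assoc] at e'
          exact absurd (mul_left_cancel e') (hn t)
      · have e' : g * θ g * c t = g * θ g * c t' := Sum.inl.inj e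
        rw [hc (mul_left_cancel e')]
    · rintro (h | t1) (h' | t2) e
      · have e' : θ.symm (h * (c t)⁻¹) * h = θ.symm (h' * (c t)⁻¹) * h' := Sum.inl.inj e
        have e1 : θ.symm (h * (c t)⁻¹) = θ.symm (h' * (c t)⁻¹) := by
          apply hη'
          rw [Equiv.apply_symm_apply, Equiv.apply_symm_apply, ← mul_assoc, ← mul_assoc, e']
        have e2 := mul_right_cancel (θ.symm.injective e1)
        rw [e2]
      · exact absurd e (by simp [base])
      · exact absurd e (by simp [base])
      · have e' : q t t1 = q t t2 := Sum.inr.inj e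
        rw [hq.1 t e']
  · rintro (h | t)
    · rintro (g | t) (g' | t') e
      · simp only at e
        rcases base_cases (θ := θ) (q := q) hc g h with ⟨t, ht, e1⟩ | ⟨hn, e1⟩ <;>
        rcases base_cases (θ := θ) (q := q) hc g' h with ⟨t', ht', e2⟩ | ⟨hn', e2⟩
        · rw [e1, e2] at e
          have : t = t' := Sum.inr.inj e
          subst this
          have h3 := mul_right_cancel (ht.trans ht'.symm)
          rw [θ.injective h3]
        · rw [e1, e2] at e
          exact absurd e (by simp)
        · rw [e1, e2] at e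
          exact absurd e (by simp)
        · rw [e1, e2] at e
          have := mul_right_cancel (Sum.inl.inj e)
          rw [this]
      · simp only at e
        rcases base_cases (θ := θ) (q := q) hc g h with ⟨t, ht, e1⟩ | ⟨hn, e1⟩
        · rw [e1] at e
          exact absurd e (by simp [base])
        · rw [e1] at e
          have e' : g * h = θ.symm (h * (c t')⁻¹) * h := Sum.inl.inj e
          have e2 : g = θ.symm (h * (c t')⁻¹) := mul_right_cancel e'
          exact absurd (by rw [e2, Equiv.apply_symm_apply]; group) (hn t')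
      · simp only at e
        rcases base_cases (θ := θ) (q := q) hc g' h with ⟨t', ht, e1⟩ | ⟨hn, e1⟩
        · rw [e1] at e
          exact absurd e (by simp [base])
        · rw [e1] at e
          have e' : θ.symm (h * (c t)⁻¹) * h = g' * h := Sum.inl.inj e
          have e2 : θ.symm (h * (c t)⁻¹) = g' := mul_right_cancel e'
          exact absurd (by rw [← e2, Equiv.apply_symm_apply]; group) (hn t)
      · have e' : θ.symm (h * (c t)⁻¹) * h = θ.symm (h * (c t')⁻¹) * h := Sum.inl.inj e
        have e1 := mul_left_cancel (θ.symm.injective (mul_right_cancel e'))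
        rw [hc (inv_injective e1)]
    · rintro (g | t1) (g' | t2) e
      · have e' : g * θ g * c t = g' * θ g' * c t := Sum.inl.inj e
        rw [hη' g g' (mul_right_cancel e')]
      · exact absurd e (by simp [base])
      · exact absurd e (by simp [base])
      · have e' : q t1 t = q t2 t := Sum.inr.inj e
        rw [hq.2 t e']

theorem iso_latin (hη : Function.Bijective fun g => g * θ g) (hc : Function.Injective c) (hq : Latin q) :
    Latin (iso θ c q ρ σ τ) := by
  have hb := base_latin (q := q) hη hc hq
  have inj : ∀ π : Equiv.Perm G, Function.Injective (Sum.map π (id : R → R)) := fun π =>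
    Sum.map_injective.mpr ⟨π.injective, Function.injective_id⟩
  constructor
  · intro i a b e
    exact inj σ (hb.1 _ (inj τ e))
  · intro j a b e
    exact inj ρ (hb.2 _ (inj τ e))

theorem iso_special (hc : Function.Injective c) {i j : G} {t : R} (h : σ j = θ (ρ i) * c t) :
    iso θ c q ρ σ τ (Sum.inl i) (Sum.inl j) = Sum.inr t := by
  show Sum.map τ id (base θ c q (Sum.inl (ρ i)) (Sum.inl (σ j))) = Sum.inr t
  rw [base_sp hc h.symm]
  rfl

theorem iso_ordinary {i j : G} (h : ∀ t, σ j ≠ θ (ρ i) * c t) :
    iso θ c q ρ σ τ (Sum.inl i) (Sum.inl j) = Sum.inl (τ (ρ i * σ j)) := by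
  show Sum.map τ id (base θ c q (Sum.inl (ρ i)) (Sum.inl (σ j))) = Sum.inl (τ (ρ i * σ j))
  rw [base_or (fun t ht => h t ht.symm)]
  rfl

theorem iso_col (i : G) (t : R) : iso θ c q ρ σ τ (Sum.inl i) (Sum.inr t) = Sum.inl (τ (ρ i * θ (ρ i) * c t)) := rfl

theorem iso_row (t : R) (j : G) :
    iso θ c q ρ σ τ (Sum.inr t) (Sum.inl j) = Sum.inl (τ (θ.symm (σ j * (c t)⁻¹) * σ j)) := rfl

theorem iso_corner (t t' : R) : iso θ c q ρ σ τ (Sum.inr t) (Sum.inr t') = Sum.inr (q t t') := rfl

end Pool.Agent.Lib.MP_ce3cb6_co.LB
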