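import Pool.Agent.Lib.MP_ce3cb6_co.LB.Data

/-!
# MP_ce3cb6_co, line version: few conflicts in every row, column and symbol
-/

set_option autoImplicit false

namespace Pool.Agent.Lib.MP_ce3cb6_co.LB

open Finset

variable {G R : Type} [Group G] [Fintype G] [DecidableEq G] [Fintype R] [DecidableEq R]

/-- if each `t` allows at most one `s`, then at most `|R|` values `s` are allowed -/
private theorem cnt_ex_le (P : G → R → Prop) [DecidablePred fun s => ∃ t, P s t]
    (h : ∀ s s' t, P s t → P s' t → s = s') : ((univ : Finset G).filter fun s => ∃ t, P s t).card ≤ Fintype.card R := by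
  classical
  rcases isEmpty_or_nonempty R with hR | hR
  · have : ((univ : Finset G).filter fun s => ∃ t, P s t) = ∅ := by
      apply Finset.filter_false_of_mem
      rintro s - ⟨t, -⟩
      exact hR.elim t
    rw [this, Finset.card_empty]
    exact Nat.zero_le _
  · let f : G → R := fun s => if H : ∃ t, P s t then H.choose else Classical.arbitrary R
    rw [← Finset.card_univ]
    refine Finset.card_le_card_of_injOn f (fun s _ => Finset.mem_coe.2 (Finset.mem_univ _)) ?_
    intro s hs s' hs' he
    have h1 : ∃ t, P s t := (Finset.mem_filter.1 (Finset.mem_coe.1 hs)).2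
    have h2 : ∃ t, P s' t := (Finset.mem_filter.1 (Finset.mem_coe.1 hs')).2
    have e1 : f s = h1.choose := dif_pos h1
    have e2 : f s' = h2.choose := dif_pos h2
    have h3 := h1.choose_spec
    have h4 := h2.choose_spec
    rw [← e1] at h3
    rw [← e2, ← he] at h4
    exact h s s' _ h3 h4

/-- Row `inl i`: ordinary cells by `t3`, at most `|R| ≤ 7` special cells, none in the new columns (`t1`). Row `inr t`: none
(`t2`, `hcor`). -/
theorem row_le (D : Data G R) {ρ σ τ : Equiv.Perm G} (hT : TT D ρ σ τ) (x : G ⊕ R) :
    (univ.filter fun y => D.A x y = some (iso D.θ D.c D.q ρ σ τ x y)).card ≤ 64 * D.l + 7 := by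
  classical
  rcases x with i | t
  · set T := univ.filter fun j => D.A (Sum.inl i) (Sum.inl j) = some (Sum.inl (τ (ρ i * σ j))) with hTd
    set S := (univ : Finset G).filter fun j => ∃ t, σ j = D.θ (ρ i) * D.c t with hS
    have c1 : S.card ≤ 7 := by
      refine (cnt_ex_le (fun j t => σ j = D.θ (ρ i) * D.c t) ?_).trans D.hr
      intro s s' t e e'
      exact σ.injective (e.trans e'.symm)
    have c2 : T.card < 64 * D.l := hT.t3 i
    have hsub : (univ.filter fun y => D.A (Sum.inl i) y = some (iso D.θ D.c D.q ρ σ τ (Sum.inl i) y)) ⊆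
        (T ∪ S).image Sum.inl := by
      intro y hy
      rw [Finset.mem_filter] at hy
      rcases y with j | t
      · rw [Finset.mem_image]
        refine ⟨j, ?_, rfl⟩
        rw [Finset.mem_union]
        by_cases hsp : ∃ t, σ j = D.θ (ρ i) * D.c t
        · exact Or.inr (Finset.mem_filter.2 ⟨Finset.mem_univ _, hsp⟩)
        · push Not at hsp
          have := hy.2
          rw [iso_ordinary hsp] at this
          exact Or.inl (Finset.mem_filter.2 ⟨Finset.mem_univ _, this⟩)
      · have := hy.2
        rw [iso_col] at this
        exact absurd this (hT.t1 i t)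
    have := (Finset.card_le_card hsub).trans (Finset.card_image_le.trans (Finset.card_union_le _ _))
    omega
  · have : (univ.filter fun y => D.A (Sum.inr t) y = some (iso D.θ D.c D.q ρ σ τ (Sum.inr t) y)) = ∅ := by
      apply Finset.filter_false_of_mem
      rintro y - hy
      rcases y with j | t'
      · rw [iso_row] at hy
        exact hT.t2 t j hy
      · rw [iso_corner] at hy
        exact D.hcor _ _ _ hy
    rw [this, Finset.card_empty]
    exact Nat.zero_le _

theorem col_le (D : Data G R) {ρ σ τ : Equiv.Perm G} (hT : TT D ρ σ τ) (y : G ⊕ R) :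
    (univ.filter fun x => D.A x y = some (iso D.θ D.c D.q ρ σ τ x y)).card ≤ 64 * D.l + 7 := by
  classical
  rcases y with j | t
  · set T := univ.filter fun i => D.A (Sum.inl i) (Sum.inl j) = some (Sum.inl (τ (ρ i * σ j))) with hTd
    set S := (univ : Finset G).filter fun i => ∃ t, σ j = D.θ (ρ i) * D.c t with hS
    have c1 : S.card ≤ 7 := by
      refine (cnt_ex_le (fun i t => σ j = D.θ (ρ i) * D.c t) ?_).trans D.hr
      intro s s' t e e'
      exact ρ.injective (D.θ.injective (mul_right_cancel (e.symm.trans e')))
    have c2 : T.card < 64 * D.l := hT.t4 j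
    have hsub : (univ.filter fun x => D.A x (Sum.inl j) = some (iso D.θ D.c D.q ρ σ τ x (Sum.inl j))) ⊆
        (T ∪ S).image Sum.inl := by
      intro x hx
      rw [Finset.mem_filter] at hx
      rcases x with i | t
      · rw [Finset.mem_image]
        refine ⟨i, ?_, rfl⟩
        rw [Finset.mem_union]
        by_cases hsp : ∃ t, σ j = D.θ (ρ i) * D.c t
        · exact Or.inr (Finset.mem_filter.2 ⟨Finset.mem_univ _, hsp⟩)
        · push Not at hsp
          have := hx.2
          rw [iso_ordinary hsp] at this
          exact Or.inl (Finset.mem_filter.2 ⟨Finset.mem_univ _, this⟩)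
      · have := hx.2
        rw [iso_row] at this
        exact absurd this (hT.t2 t j)
    have := (Finset.card_le_card hsub).trans (Finset.card_image_le.trans (Finset.card_union_le _ _))
    omega
  · have : (univ.filter fun x => D.A x (Sum.inr t) = some (iso D.θ D.c D.q ρ σ τ x (Sum.inr t))) = ∅ := by
      apply Finset.filter_false_of_mem
      rintro x - hx
      rcases x with i | t'
      · rw [iso_col] at hx
        exact hT.t1 i t hx
      · rw [iso_corner] at hx
        exact D.hcor _ _ _ hx
    rw [this, Finset.card_empty]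
    exact Nat.zero_le _

/-- Symbol `inl b`: the conflicts are ordinary cells `(i, j)` with `ρ i * σ j = τ⁻¹ b`, so `j = σ⁻¹ ((ρ i)⁻¹ * τ⁻¹ b)` (`rs3`).
Symbol `inr t`: special cells of `t`, `j = σ⁻¹ (θ (ρ i) * c t)` (`rs4`); the corner has no conflict (`hcor`). -/
theorem sym_le (D : Data G R) {ρ σ τ : Equiv.Perm G} (hR : RS D ρ σ) (hT : TT D ρ σ τ) (a : G ⊕ R) :
    (univ.filter fun p : (G ⊕ R) × (G ⊕ R) => D.A p.1 p.2 = some a ∧ iso D.θ D.c D.q ρ σ τ p.1 p.2 = a).card ≤
      64 * D.l + 7 := by
  classical
  rcases a with b | t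
  · have c := hR.rs3 (τ.symm b) b
    set T := univ.filter fun i => D.A (Sum.inl i) (Sum.inl (σ.symm ((ρ i)⁻¹ * τ.symm b))) = some (Sum.inl b) with hTd
    have hsub : (univ.filter fun p : (G ⊕ R) × (G ⊕ R) => D.A p.1 p.2 = some (Sum.inl b) ∧
        iso D.θ D.c D.q ρ σ τ p.1 p.2 = Sum.inl b) ⊆
        T.image fun i => ((Sum.inl i : G ⊕ R), (Sum.inl (σ.symm ((ρ i)⁻¹ * τ.symm b)) : G ⊕ R)) := by
      rintro ⟨x, y⟩ hp
      rw [Finset.mem_filter] at hp
      obtain ⟨-, h1, h2⟩ := hp
      simp only at h1 h2
      rcases x with i | t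
      · rcases y with j | t
        · by_cases hsp : ∃ t, σ j = D.θ (ρ i) * D.c t
          · obtain ⟨t, ht⟩ := hsp
            rw [iso_special D.hc ht] at h2
            cases h2
          · push Not at hsp
            rw [iso_ordinary hsp] at h2
            have h3 : τ (ρ i * σ j) = b := Sum.inl_injective h2
            have h4 : j = σ.symm ((ρ i)⁻¹ * τ.symm b) := by
              rw [← h3, τ.symm_apply_apply, inv_mul_cancel_left, σ.symm_apply_apply]
            rw [Finset.mem_image]
            refine ⟨i, Finset.mem_filter.2 ⟨Finset.mem_univ _, ?_⟩, ?_⟩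
            · rw [← h4]; exact h1
            · rw [← h4]
        · rw [iso_col] at h2
          rw [← h2] at h1
          exact absurd h1 (hT.t1 i t)
      · rcases y with j | t'
        · rw [iso_row] at h2
          rw [← h2] at h1
          exact absurd h1 (hT.t2 t j)
        · rw [iso_corner] at h2
          cases h2
    have := (Finset.card_le_card hsub).trans Finset.card_image_le
    omega
  · have c := hR.rs4 t
    set T := univ.filter fun i => D.A (Sum.inl i) (Sum.inl (σ.symm (D.θ (ρ i) * D.c t))) = some (Sum.inr t) with hTd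
    have hsub : (univ.filter fun p : (G ⊕ R) × (G ⊕ R) => D.A p.1 p.2 = some (Sum.inr t) ∧
        iso D.θ D.c D.q ρ σ τ p.1 p.2 = Sum.inr t) ⊆
        T.image fun i => ((Sum.inl i : G ⊕ R), (Sum.inl (σ.symm (D.θ (ρ i) * D.c t)) : G ⊕ R)) := by
      rintro ⟨x, y⟩ hp
      rw [Finset.mem_filter] at hp
      obtain ⟨-, h1, h2⟩ := hp
      simp only at h1 h2
      rcases x with i | t1
      · rcases y with j | t1
        · by_cases hsp : ∃ t, σ j = D.θ (ρ i) * D.c t
          · obtain ⟨t', ht⟩ := hsp
            rw [iso_special D.hc ht] at h2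
            have h3 : t' = t := Sum.inr_injective h2
            subst h3
            have h4 : j = σ.symm (D.θ (ρ i) * D.c t') := by
              rw [← ht, σ.symm_apply_apply]
            rw [Finset.mem_image]
            refine ⟨i, Finset.mem_filter.2 ⟨Finset.mem_univ _, ?_⟩, ?_⟩
            · rw [← h4]; exact h1
            · rw [← h4]
          · push Not at hsp
            rw [iso_ordinary hsp] at h2
            cases h2
        · rw [iso_col] at h2
          cases h2
      · rcases y with j | t'
        · rw [iso_row] at h2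
          cases h2
        · exact absurd h1 (D.hcor _ _ _)
    have := (Finset.card_le_card hsub).trans Finset.card_image_le
    omega

end Pool.Agent.Lib.MP_ce3cb6_co.LB
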