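import Pool.Agent.Lib.MP_ce3cb6_co.LB.Base

/-!
# MP_ce3cb6_co, line version: the data of the main step
-/

set_option autoImplicit false

namespace Pool.Agent.Lib.MP_ce3cb6_co.LB

open Finset

/-- A group `G` with many involutions, a complete mapping `θ` with large fibres, `|R| ≤ 7` new labels, and an array `A` on `G ⊕ R` -/
structure Data (G R : Type) [Group G] [Fintype G] [DecidableEq G] [Fintype R] [DecidableEq R] where
  J : Finset G
  θ : Equiv.Perm G
  c : R → G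
  q : R → R → R
  l : ℕ
  A : G ⊕ R → G ⊕ R → Option (G ⊕ R)
  hJ : ∀ s ∈ J, s * s = 1 ∧ s ≠ 1
  hJc : Fintype.card G ≤ 4 * (J.card + 1)
  hη : Function.Bijective fun g => g * θ g
  hV : ∀ g, Fintype.card G ≤ 4 * ((univ.filter fun g' => g' ≠ g ∧ g * θ g' = g' * θ g).card + 1)
  hc : Function.Injective c
  hq : Latin q
  hr : Fintype.card R ≤ 7
  hl : 1 ≤ l
  hN : Fintype.card G + Fintype.card R ≤ 2 ^ l
  hNl : 336000 * l ≤ Fintype.card G + Fintype.card R
  htot : ∀ a, (univ.filter fun p : (G ⊕ R) × (G ⊕ R) => A p.1 p.2 = some a).card ≤ Fintype.card G + Fintype.card R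
  hrow : ∀ a x, (univ.filter fun y => A x y = some a).card + 336000 * l ≤ Fintype.card G + Fintype.card R
  hcol : ∀ a y, (univ.filter fun x => A x y = some a).card + 336000 * l ≤ Fintype.card G + Fintype.card R
  hnew : ∀ a : G, (univ.filter fun p : G × R => A (Sum.inl p.1) (Sum.inr p.2) = some (Sum.inl a)).card +
    (univ.filter fun p : R × G => A (Sum.inr p.1) (Sum.inl p.2) = some (Sum.inl a)).card + 3 * Fintype.card R + 2 ≤
      Fintype.card G + Fintype.card R
  hcor : ∀ t t' t'', A (Sum.inr t) (Sum.inr t') ≠ some (Sum.inr t'')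

variable {G R : Type} [Group G] [Fintype G] [DecidableEq G] [Fintype R] [DecidableEq R]

/-- the other elements of the fibre of `g` -/
def Data.V (D : Data G R) (g : G) : Finset G := univ.filter fun g' => g' ≠ g ∧ g * D.θ g' = g' * D.θ g

/-- the properties of the row and column permutations -/
structure RS (D : Data G R) (ρ σ : Equiv.Perm G) : Prop where
  rs1 : ∀ i j a, D.A (Sum.inl i) (Sum.inl j) = some (Sum.inl a) → 2624 * D.l ≤ (D.J.filter fun s =>
    D.A (Sum.inl (ρ.symm (ρ i * s))) (Sum.inl j) ≠ some (Sum.inl a) ∧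
    D.A (Sum.inl i) (Sum.inl (σ.symm (s * σ j))) ≠ some (Sum.inl a)).card
  rs2 : ∀ i j t, D.A (Sum.inl i) (Sum.inl j) = some (Sum.inr t) → σ j = D.θ (ρ i) * D.c t →
    2624 * D.l ≤ ((D.V (ρ i)).filter fun g' => D.A (Sum.inl (ρ.symm g')) (Sum.inl j) ≠ some (Sum.inr t) ∧
      D.A (Sum.inl i) (Sum.inl (σ.symm (D.θ g' * D.c t))) ≠ some (Sum.inr t)).card
  rs3 : ∀ z a : G, (univ.filter fun i => D.A (Sum.inl i) (Sum.inl (σ.symm ((ρ i)⁻¹ * z))) = some (Sum.inl a)).card < 64 * D.l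
  rs4 : ∀ t : R, (univ.filter fun i => D.A (Sum.inl i) (Sum.inl (σ.symm (D.θ (ρ i) * D.c t))) = some (Sum.inr t)).card <
    64 * D.l

/-- the properties of the symbol permutation -/
structure TT (D : Data G R) (ρ σ τ : Equiv.Perm G) : Prop where
  t1 : ∀ i t, D.A (Sum.inl i) (Sum.inr t) ≠ some (Sum.inl (τ (ρ i * D.θ (ρ i) * D.c t)))
  t2 : ∀ t j, D.A (Sum.inr t) (Sum.inl j) ≠ some (Sum.inl (τ (D.θ.symm (σ j * (D.c t)⁻¹) * σ j)))
  t3 : ∀ i, (univ.filter fun j => D.A (Sum.inl i) (Sum.inl j) = some (Sum.inl (τ (ρ i * σ j)))).card < 64 * D.l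
  t4 : ∀ j, (univ.filter fun i => D.A (Sum.inl i) (Sum.inl j) = some (Sum.inl (τ (ρ i * σ j)))).card < 64 * D.l
  t5 : ∀ i j, (D.J.filter fun s => D.A (Sum.inl (ρ.symm (ρ i * s))) (Sum.inl (σ.symm (s * σ j))) =
    some (Sum.inl (τ (ρ i * s * σ j)))).card < 64 * D.l
  t6 : ∀ i t, ((D.V (ρ i)).filter fun g' => D.A (Sum.inl (ρ.symm g')) (Sum.inl (σ.symm (D.θ g' * D.c t))) =
    some (Sum.inl (τ (ρ i * D.θ g' * D.c t)))).card < 64 * D.l

/-- elementary consequences -/
theorem Data.l_ge (D : Data G R) : 19 ≤ D.l := by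
  by_contra hc
  have h1 := D.hl
  have h2 := D.hN
  have h3 := D.hNl
  have h4 : (2 : ℕ) ^ D.l ≤ 2 ^ 18 := Nat.pow_le_pow_right (by norm_num) (by omega)
  have h5 : (2 : ℕ) ^ 18 = 262144 := by norm_num
  omega

theorem Data.m_ge (D : Data G R) : 1000 ≤ Fintype.card G := by
  have h1 := D.hl
  have h3 := D.hNl
  have h4 := D.hr
  omega

end Pool.Agent.Lib.MP_ce3cb6_co.LB
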