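import Mathlib

/-!
# MP_ce3cb6_co, line version: numerical inequalities (`K = 64 l`, `u = 41 K = 2624 l`, `N ≤ 2^l`)
-/

set_option autoImplicit false

namespace Pool.Agent.Lib.MP_ce3cb6_co.LB

/-- `K! ≥ 2^(160 l)` for `K = 64 l`: `(2q)! ≥ (q+1)^q` with `q = 32 l` (`Nat.factorial_mul_pow_le_factorial`), `q + 1 ≥ 32 = 2^5`. -/
theorem factorial_ge (l : ℕ) (hl : 1 ≤ l) : 2 ^ (160 * l) ≤ (64 * l).factorial := by
  have h1 := Nat.factorial_mul_pow_le_factorial (m := 32 * l) (n := 32 * l)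
  have h2 : 32 * l + 32 * l = 64 * l := by ring
  rw [h2] at h1
  have h3 : (32 * l + 1) ^ (32 * l) ≤ (32 * l).factorial * (32 * l + 1) ^ (32 * l) :=
    Nat.le_mul_of_pos_left _ (Nat.factorial_pos _)
  have h4 : (32 : ℕ) ^ (32 * l) ≤ (32 * l + 1) ^ (32 * l) :=
    Nat.pow_le_pow_left (by omega) _
  have h5 : (2 : ℕ) ^ (160 * l) = 32 ^ (32 * l) := by
    rw [show (32 : ℕ) = 2 ^ 5 by norm_num, ← pow_mul]
    congr 1
    ring
  rw [h5]
  exact h4.trans (h3.trans h1)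

/-- `C(N,K) (m-K)! 4 e ≤ m!` for `K = 64 l`, `m ≤ N ≤ m + 7`, `e ≤ 2 m^2`, `N ≤ 2^l`: `C(N,K) K! = (N)_K ≤ N^K`,
`m! ≥ (m-K)! (m-K+1)^K` and `N ≤ 2 (m-K+1)`, so that `C(N,K) (m-K)! K! ≤ 2^K m!`; use `factorial_ge` (`2^(64l+2l+3) ≤ 2^(160l)`). -/
theorem num_hits (m N l e : ℕ) (hl : 1 ≤ l) (h1 : m ≤ N) (h2 : N ≤ m + 7) (h3 : N ≤ 2 ^ l) (h4 : 336000 * l ≤ N)
    (he : e ≤ 2 * m ^ 2) :
    4 * e * (N.choose (64 * l) * (m - 64 * l).factorial) ≤ m.factorial := by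
  obtain ⟨K, hK⟩ : ∃ K, K = 64 * l := ⟨_, rfl⟩
  rw [← hK]
  have hKm : K ≤ m := by omega
  have hfac : 2 ^ (160 * l) ≤ K.factorial := by rw [hK]; exact factorial_ge l hl
  have ha : N.choose K * K.factorial ≤ N ^ K := by
    rw [mul_comm, ← Nat.descFactorial_eq_factorial_mul_choose]
    exact Nat.descFactorial_le_pow N K
  have hb : (m + 1 - K) ^ K ≤ m.descFactorial K := Nat.pow_sub_le_descFactorial m K
  have hc : (m - K).factorial * m.descFactorial K = m.factorial :=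
    Nat.factorial_mul_descFactorial hKm
  have hd : N ≤ 2 * (m + 1 - K) := by omega
  have hNK : N ^ K ≤ 2 ^ K * (m + 1 - K) ^ K := by
    rw [← mul_pow]
    exact Nat.pow_le_pow_left hd K
  have he4 : 4 * e ≤ 2 ^ (2 * l + 3) := by
    have hm : m ≤ 2 ^ l := h1.trans h3
    calc 4 * e ≤ 8 * m ^ 2 := by omega
      _ ≤ 8 * (2 ^ l) ^ 2 := Nat.mul_le_mul_left _ (Nat.pow_le_pow_left hm 2)
      _ = 2 ^ (2 * l + 3) := by ring
  have hexp : 2 ^ (2 * l + 3) * 2 ^ K ≤ 2 ^ (160 * l) := by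
    rw [← pow_add]
    exact Nat.pow_le_pow_right (by norm_num) (by omega)
  have hmain : 4 * e * (N.choose K * (m - K).factorial) * K.factorial ≤
      m.factorial * K.factorial := by
    calc 4 * e * (N.choose K * (m - K).factorial) * K.factorial
        = 4 * e * ((m - K).factorial * (N.choose K * K.factorial)) := by ring
      _ ≤ 2 ^ (2 * l + 3) * ((m - K).factorial * (2 ^ K * m.descFactorial K)) := by
          refine Nat.mul_le_mul he4 (Nat.mul_le_mul_left _ ?_)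
          exact ha.trans (hNK.trans (Nat.mul_le_mul_left _ hb))
      _ = (2 ^ (2 * l + 3) * 2 ^ K) * ((m - K).factorial * m.descFactorial K) := by ring
      _ = (2 ^ (2 * l + 3) * 2 ^ K) * m.factorial := by rw [hc]
      _ ≤ K.factorial * m.factorial := Nat.mul_le_mul_right _ (hexp.trans hfac)
      _ = m.factorial * K.factorial := mul_comm _ _
  exact Nat.le_of_mul_le_mul_right hmain (Nat.factorial_pos K)

/-- `2 e m^(4d) < K!` for `K = 64 l`, `e ≤ 2 m^2`, `d ≤ 14`, `m ≤ 2^l` -/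
theorem num_tau (m l e d : ℕ) (hl : 1 ≤ l) (h3 : m ≤ 2 ^ l) (hd : d ≤ 14) (hm : 1000 ≤ m) (he : e ≤ 2 * m ^ 2) :
    2 * e * m ^ (4 * d) < (64 * l).factorial := by
  have hm1 : 1 ≤ m := by omega
  calc 2 * e * m ^ (4 * d) ≤ (4 * m ^ 2) * m ^ 56 :=
        Nat.mul_le_mul (by omega) (Nat.pow_le_pow_right hm1 (by omega))
    _ = 4 * m ^ 58 := by ring
    _ ≤ 4 * (2 ^ l) ^ 58 := Nat.mul_le_mul_left _ (Nat.pow_le_pow_left h3 _)
    _ = 2 ^ (58 * l + 2) := by ring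
    _ < 2 ^ (160 * l) := Nat.pow_lt_pow_right (by norm_num) (by omega)
    _ ≤ (64 * l).factorial := factorial_ge l hl

/-- `8 m^2 ≤ 5^u` for `u = 2624 l`, `m ≤ 2^l` -/
theorem num_u (m l : ℕ) (hl : 1 ≤ l) (h3 : m ≤ 2 ^ l) : 8 * m ^ 2 ≤ 5 ^ (2624 * l) := by
  calc 8 * m ^ 2 ≤ 8 * (2 ^ l) ^ 2 := Nat.mul_le_mul_left _ (Nat.pow_le_pow_left h3 2)
    _ = 2 ^ (2 * l + 3) := by ring
    _ ≤ 2 ^ (2624 * l) := Nat.pow_le_pow_right (by norm_num) (by omega)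
    _ ≤ 5 ^ (2624 * l) := Nat.pow_le_pow_left (by norm_num) _

/-- The final conversion: if `n - 10^6 log n ≥ 0` and `l = Nat.log 2 n + 1` then `336000 l ≤ 10^6 log n` (for `n ≥ 2`), `n ≤ 2^l`,
`336000 l ≤ n`. -/
theorem num_final (n : ℕ) (hn : 2 ≤ n) (h : 0 ≤ (n : ℝ) - 1000000 * Real.log n) :
    n ≤ 2 ^ (Nat.log 2 n + 1) ∧ 336000 * (Nat.log 2 n + 1) ≤ n ∧ 
      (336000 * ((Nat.log 2 n + 1 : ℕ) : ℝ)) ≤ 1000000 * Real.log n := by
  have h2 := Real.log_two_gt_d9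
  have hn0 : (0 : ℝ) < n := by exact_mod_cast (by omega : 0 < n)
  have h3 : (Nat.log 2 n : ℝ) * Real.log 2 ≤ Real.log n := by
    have h4 : (2 : ℝ) ^ (Nat.log 2 n) ≤ n := by
      exact_mod_cast Nat.pow_log_le_self 2 (by omega : n ≠ 0)
    have h5 := Real.log_le_log (by positivity) h4
    rwa [Real.log_pow] at h5
  have h6 : Real.log 2 ≤ Real.log n := Real.log_le_log (by norm_num) (by exact_mod_cast hn)
  have h7 : (336000 * ((Nat.log 2 n + 1 : ℕ) : ℝ)) ≤ 1000000 * Real.log n := by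
    have h8 : (0 : ℝ) ≤ (Nat.log 2 n : ℝ) := Nat.cast_nonneg _
    push_cast
    nlinarith
  refine ⟨(Nat.lt_pow_succ_log_self (by norm_num) n).le, ?_, h7⟩
  have h9 : (336000 * ((Nat.log 2 n + 1 : ℕ) : ℝ)) ≤ (n : ℝ) := by linarith
  exact_mod_cast h9

end Pool.Agent.Lib.MP_ce3cb6_co.LB
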