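import Pool.Agent.Lib.MP_ce3cb6_co.LB.Two

/-!
# MP_ce3cb6_co, line version: choice of the row and column permutations
-/

set_option autoImplicit false

namespace Pool.Agent.Lib.MP_ce3cb6_co.LB

open Finset

variable {G : Type} [Fintype G] [DecidableEq G]

/-- Union bound over `(i, j, γ, η)` (`two_perm`: at most `m^4 * 2 (1/5)^u ((m-1)!)^2 = m^2 * 2 (1/5)^u (m!)^2 ≤ (m!)^2 / 4` bad pairs)
and over `e`, `ρ` (`card_hits_le` for `π = σ⁻¹`: at most `|E| C(N,K) (m-K)! m! ≤ (m!)^2 / 4` bad pairs). -/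
theorem exists_rho_sigma {E : Type} [Fintype E] (X Y : G → G → Finset G) (act : G → G → G → G → Prop)
    (S : G → G → G → G → Finset G) (α β : G → G → G → G → G → G) (u : ℕ)
    (hinjα : ∀ i j γ η, act i j γ η → Set.InjOn (α i j γ η) (S i j γ η))
    (hinjβ : ∀ i j γ η, act i j γ η → Set.InjOn (β i j γ η) (S i j γ η))
    (hα : ∀ i j γ η, act i j γ η → ∀ s ∈ S i j γ η, α i j γ η s ≠ γ)
    (hβ : ∀ i j γ η, act i j γ η → ∀ s ∈ S i j γ η, β i j γ η s ≠ η)
    (hS : ∀ i j γ η, act i j γ η → Fintype.card G ≤ 4 * ((S i j γ η).card + 1))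
    (hjX : ∀ i j γ η, act i j γ η → j ∉ X i j) (hiY : ∀ i j γ η, act i j γ η → i ∉ Y i j)
    (hX : ∀ i j γ η, act i j γ η → (X i j).card + 128 * u + 1 ≤ Fintype.card G)
    (hY : ∀ i j γ η, act i j γ η → (Y i j).card + 128 * u + 1 ≤ Fintype.card G)
    (hXY : ∀ i j γ η, act i j γ η → (X i j).card + (Y i j).card ≤ Fintype.card G + 6)
    (hm : 1000 ≤ Fintype.card G) (hu : 8 * (Fintype.card G) ^ 2 ≤ 5 ^ u)
    (H : E → Equiv.Perm G → Finset (G × G)) (N K : ℕ) (hH : ∀ e ρ, (H e ρ).card ≤ N)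
    (hK : 4 * Fintype.card E * (N.choose K * (Fintype.card G - K).factorial) ≤ (Fintype.card G).factorial) :
    ∃ ρ σ : Equiv.Perm G,
      (∀ i j, act i j (ρ i) (σ j) → u ≤ ((S i j (ρ i) (σ j)).filter fun s =>
        ρ.symm (α i j (ρ i) (σ j) s) ∉ Y i j ∧ σ.symm (β i j (ρ i) (σ j) s) ∉ X i j).card) ∧
      ∀ e, (univ.filter fun x => (x, σ.symm x) ∈ H e ρ).card < K := by
  classical
  obtain ⟨m, hmdef⟩ : ∃ m, m = Fintype.card G := ⟨_, rfl⟩
  have hm0 : 0 < m := by omega
  have hfac : (m.factorial : ℝ) = m * ((m - 1).factorial : ℝ) := by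
    exact_mod_cast (Nat.mul_factorial_pred hm0.ne').symm
  let bad1 : G × G × G × G → Finset (Equiv.Perm G × Equiv.Perm G) := fun t =>
    univ.filter fun p => act t.1 t.2.1 t.2.2.1 t.2.2.2 ∧ (p.1 t.1 = t.2.2.1 ∧ p.2 t.2.1 = t.2.2.2 ∧
      ((S t.1 t.2.1 t.2.2.1 t.2.2.2).filter fun s =>
        p.1.symm (α t.1 t.2.1 t.2.2.1 t.2.2.2 s) ∉ Y t.1 t.2.1 ∧
        p.2.symm (β t.1 t.2.1 t.2.2.1 t.2.2.2 s) ∉ X t.1 t.2.1).card < u)
  have h1 : ∀ t, ((bad1 t).card : ℝ) ≤ 2 * (1 / 5) ^ u * ((m - 1).factorial : ℝ) ^ 2 := by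
    rintro ⟨i, j, γ, η⟩
    by_cases ha : act i j γ η
    · have h := two_perm i j γ η (X i j) (Y i j) (S i j γ η) (α i j γ η) (β i j γ η)
        (hinjα i j γ η ha) (hinjβ i j γ η ha) (hα i j γ η ha) (hβ i j γ η ha) (hjX i j γ η ha)
        (hiY i j γ η ha) (hS i j γ η ha) u (hX i j γ η ha) (hY i j γ η ha) (hXY i j γ η ha) hm
      rw [hmdef]
      refine le_trans ?_ h
      rw [Nat.cast_le]
      apply Finset.card_le_card
      intro p hp
      rw [Finset.mem_filter] at hp ⊢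
      exact ⟨hp.1, hp.2.2⟩
    · have h : bad1 (i, j, γ, η) = ∅ := by
        rw [Finset.filter_eq_empty_iff]
        intro p _ hp
        exact ha hp.1
      rw [h, Finset.card_empty, Nat.cast_zero]
      positivity
  let bad2 : E × Equiv.Perm G → Finset (Equiv.Perm G × Equiv.Perm G) := fun t =>
    univ.filter fun p => p.1 = t.2 ∧
      K ≤ (univ.filter fun x => (x, p.2.symm x) ∈ H t.1 t.2).card
  have h2 : ∀ t, (bad2 t).card ≤ N.choose K * (m - K).factorial := by
    rintro ⟨e, ρ⟩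
    have h := card_hits_le (H e ρ) K
    rw [← hmdef] at h
    refine le_trans ?_ (le_trans h (Nat.mul_le_mul_right _ (Nat.choose_le_choose K (hH e ρ))))
    apply Finset.card_le_card_of_injOn (fun p => p.2.symm)
    · intro p hp
      have hp' := (Finset.mem_filter.mp hp).2
      rw [Finset.mem_coe, Finset.mem_filter]
      exact ⟨Finset.mem_univ _, hp'.2⟩
    · intro p hp q hq hpq
      have hp' := (Finset.mem_filter.mp hp).2
      have hq' := (Finset.mem_filter.mp hq).2
      apply Prod.ext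
      · rw [hp'.1, hq'.1]
      · have h3 : p.2.symm = q.2.symm := hpq
        rw [← Equiv.symm_symm p.2, h3, Equiv.symm_symm]
  have hB1 : ((univ.biUnion bad1).card : ℝ) ≤ (m.factorial : ℝ) ^ 2 / 4 := by
    have h3 : ((univ.biUnion bad1).card : ℝ) ≤ ∑ t : G × G × G × G, ((bad1 t).card : ℝ) := by
      have := Finset.card_biUnion_le (s := (univ : Finset (G × G × G × G))) (t := bad1)
      exact_mod_cast this
    have h4 : ∑ t : G × G × G × G, ((bad1 t).card : ℝ) ≤
        ∑ t : G × G × G × G, (2 * (1 / 5) ^ u * ((m - 1).factorial : ℝ) ^ 2) :=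
      Finset.sum_le_sum fun t _ => h1 t
    have h5 : ∑ t : G × G × G × G, (2 * (1 / 5) ^ u * ((m - 1).factorial : ℝ) ^ 2) =
        (m : ℝ) ^ 4 * (2 * (1 / 5) ^ u * ((m - 1).factorial : ℝ) ^ 2) := by
      rw [Finset.sum_const, Finset.card_univ, nsmul_eq_mul]
      simp only [Fintype.card_prod, ← hmdef]
      push_cast
      ring
    have h6 : (8 : ℝ) * (m : ℝ) ^ 2 ≤ 5 ^ u := by
      rw [← hmdef] at hu
      exact_mod_cast hu
    have h7 : (m : ℝ) ^ 2 * (1 / 5) ^ u ≤ 1 / 8 := by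
      rw [one_div_pow, mul_one_div, div_le_div_iff₀ (by positivity) (by norm_num)]
      linarith
    calc ((univ.biUnion bad1).card : ℝ)
        ≤ (m : ℝ) ^ 4 * (2 * (1 / 5) ^ u * ((m - 1).factorial : ℝ) ^ 2) := by
          rw [← h5]; exact le_trans h3 h4
      _ = 2 * ((m : ℝ) ^ 2 * (1 / 5) ^ u) * (m.factorial : ℝ) ^ 2 := by rw [hfac]; ring
      _ ≤ 2 * (1 / 8) * (m.factorial : ℝ) ^ 2 := by
          apply mul_le_mul_of_nonneg_right _ (by positivity)
          linarith
      _ = (m.factorial : ℝ) ^ 2 / 4 := by ring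
  have hB2 : ((univ.biUnion bad2).card : ℝ) ≤ (m.factorial : ℝ) ^ 2 / 4 := by
    have h3 : (univ.biUnion bad2).card ≤ ∑ t : E × Equiv.Perm G, (bad2 t).card :=
      Finset.card_biUnion_le
    have h4 : ∑ t : E × Equiv.Perm G, (bad2 t).card ≤
        ∑ t : E × Equiv.Perm G, (N.choose K * (m - K).factorial) :=
      Finset.sum_le_sum fun t _ => h2 t
    have h5 : ∑ t : E × Equiv.Perm G, (N.choose K * (m - K).factorial) =
        Fintype.card E * m.factorial * (N.choose K * (m - K).factorial) := by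
      rw [Finset.sum_const, Finset.card_univ, smul_eq_mul, Fintype.card_prod, Fintype.card_perm,
        ← hmdef]
    have h6 : 4 * (univ.biUnion bad2).card ≤ m.factorial ^ 2 := by
      rw [← hmdef] at hK
      calc 4 * (univ.biUnion bad2).card
          ≤ 4 * (Fintype.card E * m.factorial * (N.choose K * (m - K).factorial)) := by
            apply Nat.mul_le_mul_left
            rw [← h5]
            exact le_trans h3 h4
        _ = (4 * Fintype.card E * (N.choose K * (m - K).factorial)) * m.factorial := by ring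
        _ ≤ m.factorial * m.factorial := Nat.mul_le_mul_right _ hK
        _ = m.factorial ^ 2 := by ring
    have h7 : (4 : ℝ) * ((univ.biUnion bad2).card : ℝ) ≤ (m.factorial : ℝ) ^ 2 := by
      exact_mod_cast h6
    linarith
  have hfp : (0 : ℝ) < (m.factorial : ℝ) ^ 2 := by
    have : 0 < m.factorial := Nat.factorial_pos m
    positivity
  have hBB : (((univ.biUnion bad1) ∪ (univ.biUnion bad2)).card : ℝ) < (m.factorial : ℝ) ^ 2 := by
    have h3 : (((univ.biUnion bad1) ∪ (univ.biUnion bad2)).card : ℝ) ≤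
        ((univ.biUnion bad1).card : ℝ) + ((univ.biUnion bad2).card : ℝ) := by
      exact_mod_cast Finset.card_union_le _ _
    linarith
  obtain ⟨p, hp⟩ : ∃ p, p ∉ (univ.biUnion bad1) ∪ (univ.biUnion bad2) := by
    by_contra hcon
    push Not at hcon
    have h3 : (univ.biUnion bad1) ∪ (univ.biUnion bad2) = univ :=
      Finset.eq_univ_iff_forall.mpr hcon
    rw [h3, Finset.card_univ, Fintype.card_prod, Fintype.card_perm, ← hmdef] at hBB
    push_cast at hBB
    nlinarith
  rw [Finset.mem_union, not_or, Finset.mem_biUnion, Finset.mem_biUnion] at hp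
  refine ⟨p.1, p.2, ?_, ?_⟩
  · intro i j ha
    by_contra hcon
    apply hp.1
    refine ⟨(i, j, p.1 i, p.2 j), Finset.mem_univ _, ?_⟩
    rw [Finset.mem_filter]
    exact ⟨Finset.mem_univ _, ha, rfl, rfl, not_le.mp hcon⟩
  · intro e
    by_contra hcon
    apply hp.2
    refine ⟨(e, p.1), Finset.mem_univ _, ?_⟩
    rw [Finset.mem_filter]
    exact ⟨Finset.mem_univ _, rfl, not_lt.mp hcon⟩

end Pool.Agent.Lib.MP_ce3cb6_co.LB
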