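import Pool.Agent.Lib.MP_ce3cb6_co.LB.Data
import Pool.Agent.Lib.MP_ce3cb6_co.LB.Stage
import Pool.Agent.Lib.MP_ce3cb6_co.LB.Num

/-!
# MP_ce3cb6_co, line version: existence of the row and column permutations
-/

set_option autoImplicit false

namespace Pool.Agent.Lib.MP_ce3cb6_co.LB

open Finset

variable {G R : Type} [Group G] [Fintype G] [DecidableEq G] [Fintype R] [DecidableEq R]

private def XX (D : Data G R) (i j : G) : Finset G :=
  univ.filter fun j' => j' ≠ j ∧ D.A (Sum.inl i) (Sum.inl j') = D.A (Sum.inl i) (Sum.inl j)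

private def YY (D : Data G R) (i j : G) : Finset G :=
  univ.filter fun i' => i' ≠ i ∧ D.A (Sum.inl i') (Sum.inl j) = D.A (Sum.inl i) (Sum.inl j)

private def act (D : Data G R) (i j γ η : G) : Prop :=
  (∃ a, D.A (Sum.inl i) (Sum.inl j) = some (Sum.inl a)) ∨
    ∃ t, D.A (Sum.inl i) (Sum.inl j) = some (Sum.inr t) ∧ η = D.θ γ * D.c t

private def SS (D : Data G R) (i j γ _η : G) : Finset G :=
  match D.A (Sum.inl i) (Sum.inl j) with
  | some (Sum.inl _) => D.J
  | some (Sum.inr _) => D.V γ
  | none => ∅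

private def aa (D : Data G R) (i j γ _η : G) (s : G) : G :=
  match D.A (Sum.inl i) (Sum.inl j) with
  | some (Sum.inl _) => γ * s
  | some (Sum.inr _) => s
  | none => s

private def bb (D : Data G R) (i j _γ η : G) (s : G) : G :=
  match D.A (Sum.inl i) (Sum.inl j) with
  | some (Sum.inl _) => s * η
  | some (Sum.inr t) => D.θ s * D.c t
  | none => s

private lemma SS_l (D : Data G R) {i j : G} {a : G} (h : D.A (Sum.inl i) (Sum.inl j) = some (Sum.inl a))
    (γ η : G) : SS D i j γ η = D.J := by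
  simp [SS, h]

private lemma SS_r (D : Data G R) {i j : G} {t : R} (h : D.A (Sum.inl i) (Sum.inl j) = some (Sum.inr t))
    (γ η : G) : SS D i j γ η = D.V γ := by
  simp [SS, h]

private lemma aa_l (D : Data G R) {i j : G} {a : G} (h : D.A (Sum.inl i) (Sum.inl j) = some (Sum.inl a))
    (γ η s : G) : aa D i j γ η s = γ * s := by
  simp [aa, h]

private lemma aa_r (D : Data G R) {i j : G} {t : R} (h : D.A (Sum.inl i) (Sum.inl j) = some (Sum.inr t))
    (γ η s : G) : aa D i j γ η s = s := by
  simp [aa, h]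

private lemma bb_l (D : Data G R) {i j : G} {a : G} (h : D.A (Sum.inl i) (Sum.inl j) = some (Sum.inl a))
    (γ η s : G) : bb D i j γ η s = s * η := by
  simp [bb, h]

private lemma bb_r (D : Data G R) {i j : G} {t : R} (h : D.A (Sum.inl i) (Sum.inl j) = some (Sum.inr t))
    (γ η s : G) : bb D i j γ η s = D.θ s * D.c t := by
  simp [bb, h]

private lemma XX_card (D : Data G R) {i j : G} {a : G ⊕ R} (h : D.A (Sum.inl i) (Sum.inl j) = some a) :
    (XX D i j).card + 1 ≤ (univ.filter fun y => D.A (Sum.inl i) y = some a).card := by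
  have h1 : j ∉ XX D i j := by simp [XX]
  rw [← Finset.card_insert_of_notMem h1]
  refine Finset.card_le_card_of_injOn (fun y => Sum.inl y) ?_ ?_
  · intro y hy
    have hy' := Finset.mem_insert.mp (Finset.mem_coe.mp hy)
    simp only [Finset.coe_filter, Finset.mem_univ, true_and, Set.mem_setOf_eq]
    rcases hy' with rfl | hy'
    · exact h
    · simp only [XX, Finset.mem_filter, Finset.mem_univ, true_and] at hy'
      rw [hy'.2, h]
  · intro y _ y' _ hyy
    exact Sum.inl_injective hyy

private lemma YY_card (D : Data G R) {i j : G} {a : G ⊕ R} (h : D.A (Sum.inl i) (Sum.inl j) = some a) :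
    (YY D i j).card + 1 ≤ (univ.filter fun x => D.A x (Sum.inl j) = some a).card := by
  have h1 : i ∉ YY D i j := by simp [YY]
  rw [← Finset.card_insert_of_notMem h1]
  refine Finset.card_le_card_of_injOn (fun y => Sum.inl y) ?_ ?_
  · intro y hy
    have hy' := Finset.mem_insert.mp (Finset.mem_coe.mp hy)
    simp only [Finset.coe_filter, Finset.mem_univ, true_and, Set.mem_setOf_eq]
    rcases hy' with rfl | hy'
    · exact h
    · simp only [YY, Finset.mem_filter, Finset.mem_univ, true_and] at hy'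
      rw [hy'.2, h]
  · intro y _ y' _ hyy
    exact Sum.inl_injective hyy

private lemma XY_card (D : Data G R) {i j : G} {a : G ⊕ R} (h : D.A (Sum.inl i) (Sum.inl j) = some a) :
    (XX D i j).card + (YY D i j).card + 1 ≤
      (univ.filter fun p : (G ⊕ R) × (G ⊕ R) => D.A p.1 p.2 = some a).card := by
  classical
  set U1 : Finset ((G ⊕ R) × (G ⊕ R)) := (XX D i j).image fun y => (Sum.inl i, Sum.inl y) with hU1
  set U2 : Finset ((G ⊕ R) × (G ⊕ R)) := (YY D i j).image fun x => (Sum.inl x, Sum.inl j) with hU2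
  have hc1 : U1.card = (XX D i j).card := by
    refine Finset.card_image_of_injective _ ?_
    intro a b hab
    exact Sum.inl_injective (Prod.mk.inj hab).2
  have hc2 : U2.card = (YY D i j).card := by
    refine Finset.card_image_of_injective _ ?_
    intro a b hab
    exact Sum.inl_injective (Prod.mk.inj hab).1
  have hd : Disjoint U1 U2 := by
    rw [Finset.disjoint_left]
    intro p hp1 hp2
    rw [hU1, Finset.mem_image] at hp1
    rw [hU2, Finset.mem_image] at hp2
    obtain ⟨y, hy, rfl⟩ := hp1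
    obtain ⟨x, hx, hxy⟩ := hp2
    have := Sum.inl_injective (Prod.mk.inj hxy).1
    simp only [YY, Finset.mem_filter, Finset.mem_univ, true_and] at hx
    exact hx.1 this
  have hn : ((Sum.inl i, Sum.inl j) : (G ⊕ R) × (G ⊕ R)) ∉ U1 ∪ U2 := by
    rw [Finset.mem_union]
    rintro (hp | hp)
    · rw [hU1, Finset.mem_image] at hp
      obtain ⟨y, hy, hyy⟩ := hp
      have := Sum.inl_injective (Prod.mk.inj hyy).2
      simp only [XX, Finset.mem_filter, Finset.mem_univ, true_and] at hy
      exact hy.1 this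
    · rw [hU2, Finset.mem_image] at hp
      obtain ⟨y, hy, hyy⟩ := hp
      have := Sum.inl_injective (Prod.mk.inj hyy).1
      simp only [YY, Finset.mem_filter, Finset.mem_univ, true_and] at hy
      exact hy.1 this
  rw [← hc1, ← hc2, ← Finset.card_union_of_disjoint hd, ← Finset.card_insert_of_notMem hn]
  refine Finset.card_le_card ?_
  intro p hp
  rw [Finset.mem_insert, Finset.mem_union] at hp
  rw [Finset.mem_filter]
  refine ⟨Finset.mem_univ _, ?_⟩
  rcases hp with rfl | hp | hp
  · exact h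
  · rw [hU1, Finset.mem_image] at hp
    obtain ⟨y, hy, rfl⟩ := hp
    simp only [XX, Finset.mem_filter, Finset.mem_univ, true_and] at hy
    show D.A (Sum.inl i) (Sum.inl y) = some a
    rw [hy.2, h]
  · rw [hU2, Finset.mem_image] at hp
    obtain ⟨y, hy, rfl⟩ := hp
    simp only [YY, Finset.mem_filter, Finset.mem_univ, true_and] at hy
    show D.A (Sum.inl y) (Sum.inl j) = some a
    rw [hy.2, h]

/-- the pairs counted in the second part -/
private def HH (D : Data G R) : (G × G) ⊕ R → Equiv.Perm G → Finset (G × G)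
  | Sum.inl e, ρ => univ.filter fun p => D.A (Sum.inl (ρ.symm (e.1 * p.1⁻¹))) (Sum.inl p.2) = some (Sum.inl e.2)
  | Sum.inr t, ρ => univ.filter fun p => D.A (Sum.inl (ρ.symm (D.θ.symm (p.1 * (D.c t)⁻¹)))) (Sum.inl p.2) =
      some (Sum.inr t)

private lemma HH_card (D : Data G R) (e : (G × G) ⊕ R) (ρ : Equiv.Perm G) :
    (HH D e ρ).card ≤ Fintype.card G + Fintype.card R := by
  rcases e with ⟨z, a⟩ | t
  · refine le_trans (Finset.card_le_card_of_injOn
      (fun p => ((Sum.inl (ρ.symm (z * p.1⁻¹)), Sum.inl p.2) : (G ⊕ R) × (G ⊕ R))) ?_ ?_) (D.htot (Sum.inl a))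
    · intro p hp
      simpa [HH] using hp
    · intro p _ p' _ hpp
      have h1 := Sum.inl_injective (Prod.mk.inj hpp).1
      have h2 := Sum.inl_injective (Prod.mk.inj hpp).2
      have h3 := ρ.symm.injective h1
      exact Prod.ext (inv_injective (mul_left_cancel h3)) h2
  · refine le_trans (Finset.card_le_card_of_injOn
      (fun p => ((Sum.inl (ρ.symm (D.θ.symm (p.1 * (D.c t)⁻¹))), Sum.inl p.2) : (G ⊕ R) × (G ⊕ R))) ?_ ?_)
        (D.htot (Sum.inr t))
    · intro p hp
      simpa [HH] using hp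
    · intro p _ p' _ hpp
      have h1 := Sum.inl_injective (Prod.mk.inj hpp).1
      have h2 := Sum.inl_injective (Prod.mk.inj hpp).2
      have h3 := D.θ.symm.injective (ρ.symm.injective h1)
      exact Prod.ext (mul_right_cancel h3) h2

/-- Apply `exists_rho_sigma` with (`m = |G|`, `N = |G| + |R|`, `K = 64 l`, `u = 2624 l`)
* `X i j = {j' ≠ j | A (inl i) (inl j') = A (inl i) (inl j)}`, `Y i j = {i' ≠ i | A (inl i') (inl j) = A (inl i) (inl j)}`;
* if `A (inl i) (inl j) = some (inl a)`: `act` true, `S = J`, `α s = γ * s`, `β s = s * η`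
  (`γ s ≠ γ` because `s ≠ 1`);
* if `A (inl i) (inl j) = some (inr t)`: `act := η = θ γ * c t`, `S = D.V γ`, `α g' = g'`, `β g' = θ g' * c t`
  (`≠ η` because `g' ≠ γ`);
* if `A (inl i) (inl j) = none`: `act` false.
Sizes: `|X|, |Y| + 1 ≤ N - 336000 l`, and `128 u + 7 = 335872 l + 7 ≤ 336000 l`; `|X| + |Y| + 1 ≤ N ≤ m + 7` (`htot`).
* `E = (G × G) ⊕ R`; for `e = inl (z, a)`: `H e ρ = {((ρ i)⁻¹ * z, j) | A (inl i) (inl j) = some (inl a)}` (at most `N` cells by
  `htot`), for `e = inr t`: `H e ρ = {(θ (ρ i) * c t, j) | A (inl i) (inl j) = some (inr t)}`; `x ↔ i` is a bijection.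
Numbers: `num_u`, `num_hits` (`|E| = m^2 + |R| ≤ 2 m^2`). -/
theorem exists_RS (D : Data G R) : ∃ ρ σ : Equiv.Perm G, RS D ρ σ := by
  have hm := D.m_ge
  have hl := D.hl
  have hr := D.hr
  have hN := D.hN
  have hNl := D.hNl
  have hE : Fintype.card ((G × G) ⊕ R) ≤ 2 * Fintype.card G ^ 2 := by
    rw [Fintype.card_sum, Fintype.card_prod]
    nlinarith
  have hcase : ∀ i j γ η, act D i j γ η → ∃ a, D.A (Sum.inl i) (Sum.inl j) = some a := by
    rintro i j γ η (⟨a, h⟩ | ⟨t, h, -⟩)
    · exact ⟨_, h⟩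
    · exact ⟨_, h⟩
  obtain ⟨ρ, σ, h1, h2⟩ := exists_rho_sigma (E := (G × G) ⊕ R) (XX D) (YY D) (act D) (SS D) (aa D) (bb D)
    (2624 * D.l)
    (by
      rintro i j γ η (⟨a, h⟩ | ⟨t, h, -⟩) x _ y _ hxy
      · rw [aa_l D h, aa_l D h] at hxy
        exact mul_left_cancel hxy
      · rw [aa_r D h, aa_r D h] at hxy
        exact hxy)
    (by
      rintro i j γ η (⟨a, h⟩ | ⟨t, h, -⟩) x _ y _ hxy
      · rw [bb_l D h, bb_l D h] at hxy
        exact mul_right_cancel hxy
      · rw [bb_r D h, bb_r D h] at hxy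
        exact D.θ.injective (mul_right_cancel hxy))
    (by
      rintro i j γ η (⟨a, h⟩ | ⟨t, h, -⟩) s hs
      · rw [SS_l D h] at hs
        rw [aa_l D h]
        intro h3
        exact (D.hJ s hs).2 (mul_eq_left.mp h3)
      · rw [SS_r D h] at hs
        rw [aa_r D h]
        simp only [Data.V, Finset.mem_filter, Finset.mem_univ, true_and] at hs
        exact hs.1)
    (by
      rintro i j γ η (⟨a, h⟩ | ⟨t, h, hη⟩) s hs
      · rw [SS_l D h] at hs
        rw [bb_l D h]
        intro h3
        exact (D.hJ s hs).2 (mul_eq_right.mp h3)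
      · rw [SS_r D h] at hs
        rw [bb_r D h, hη]
        simp only [Data.V, Finset.mem_filter, Finset.mem_univ, true_and] at hs
        intro h3
        exact hs.1 (D.θ.injective (mul_right_cancel h3)))
    (by
      rintro i j γ η (⟨a, h⟩ | ⟨t, h, hη⟩)
      · rw [SS_l D h]
        exact D.hJc
      · rw [SS_r D h]
        exact D.hV γ)
    (by
      intro i j γ η _
      simp [XX])
    (by
      intro i j γ η _
      simp [YY])
    (by
      intro i j γ η hact
      obtain ⟨a, ha⟩ := hcase i j γ η hact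
      have h3 := XX_card D ha
      have h4 := D.hrow a (Sum.inl i)
      omega)
    (by
      intro i j γ η hact
      obtain ⟨a, ha⟩ := hcase i j γ η hact
      have h3 := YY_card D ha
      have h4 := D.hcol a (Sum.inl j)
      omega)
    (by
      intro i j γ η hact
      obtain ⟨a, ha⟩ := hcase i j γ η hact
      have h3 := XY_card D ha
      have h4 := D.htot a
      omega)
    hm (num_u _ _ hl (by omega)) (HH D) (Fintype.card G + Fintype.card R) (64 * D.l) (HH_card D)
    (num_hits _ _ _ _ hl (by omega) (by omega) hN hNl hE)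
  refine ⟨ρ, σ, ?_, ?_, ?_, ?_⟩
  · intro i j a h
    have h3 := h1 i j (Or.inl ⟨a, h⟩)
    rw [SS_l D h] at h3
    refine le_trans h3 (Finset.card_le_card ?_)
    intro s hs
    rw [Finset.mem_filter] at hs ⊢
    obtain ⟨hsJ, hs1, hs2⟩ := hs
    rw [aa_l D h] at hs1
    rw [bb_l D h] at hs2
    have hs3 := (D.hJ s hsJ).2
    refine ⟨hsJ, fun h4 => hs1 ?_, fun h4 => hs2 ?_⟩
    · simp only [YY, Finset.mem_filter, Finset.mem_univ, true_and]
      refine ⟨?_, by rw [h4, h]⟩
      intro h5
      rw [Equiv.symm_apply_eq] at h5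
      exact hs3 (mul_eq_left.mp h5)
    · simp only [XX, Finset.mem_filter, Finset.mem_univ, true_and]
      refine ⟨?_, by rw [h4, h]⟩
      intro h5
      rw [Equiv.symm_apply_eq] at h5
      exact hs3 (mul_eq_right.mp h5)
  · intro i j t h hσ
    have h3 := h1 i j (Or.inr ⟨t, h, hσ⟩)
    rw [SS_r D h] at h3
    refine le_trans h3 (Finset.card_le_card ?_)
    intro s hs
    rw [Finset.mem_filter] at hs ⊢
    obtain ⟨hsV, hs1, hs2⟩ := hs
    rw [aa_r D h] at hs1
    rw [bb_r D h] at hs2
    have hs3 : s ≠ ρ i := by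
      simp only [Data.V, Finset.mem_filter, Finset.mem_univ, true_and] at hsV
      exact hsV.1
    refine ⟨hsV, fun h4 => hs1 ?_, fun h4 => hs2 ?_⟩
    · simp only [YY, Finset.mem_filter, Finset.mem_univ, true_and]
      refine ⟨?_, by rw [h4, h]⟩
      intro h5
      rw [Equiv.symm_apply_eq] at h5
      exact hs3 h5
    · simp only [XX, Finset.mem_filter, Finset.mem_univ, true_and]
      refine ⟨?_, by rw [h4, h]⟩
      intro h5
      rw [Equiv.symm_apply_eq, hσ] at h5
      exact hs3 (D.θ.injective (mul_right_cancel h5))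
  · intro z a
    refine lt_of_le_of_lt ?_ (h2 (Sum.inl (z, a)))
    refine Finset.card_le_card_of_injOn (fun i => (ρ i)⁻¹ * z) ?_ ?_
    · intro i hi
      simp only [Finset.coe_filter, Finset.mem_univ, true_and, Set.mem_setOf_eq] at hi ⊢
      simp only [HH, Finset.mem_filter, Finset.mem_univ, true_and]
      rw [mul_inv_rev, inv_inv, ← mul_assoc, mul_inv_cancel, one_mul, Equiv.symm_apply_apply]
      exact hi
    · intro i _ i' _ hii
      exact ρ.injective (inv_injective (mul_right_cancel hii))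
  · intro t
    refine lt_of_le_of_lt ?_ (h2 (Sum.inr t))
    refine Finset.card_le_card_of_injOn (fun i => D.θ (ρ i) * D.c t) ?_ ?_
    · intro i hi
      simp only [Finset.coe_filter, Finset.mem_univ, true_and, Set.mem_setOf_eq] at hi ⊢
      simp only [HH, Finset.mem_filter, Finset.mem_univ, true_and]
      rw [mul_inv_cancel_right, Equiv.symm_apply_apply, Equiv.symm_apply_apply]
      exact hi
    · intro i _ i' _ hii
      exact ρ.injective (D.θ.injective (mul_right_cancel hii))

end Pool.Agent.Lib.MP_ce3cb6_co.LB
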