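import Pool.Agent.Lib.MP_ce3cb6_co.LB.PermA

/-!
# MP_ce3cb6_co, line version: choice of the symbol permutation
-/

set_option autoImplicit false

namespace Pool.Agent.Lib.MP_ce3cb6_co.LB

open Finset

variable {G Ce : Type} [Fintype G] [DecidableEq G] [Fintype Ce] [DecidableEq Ce]

/-- number of conflicts of `τ` in the special cells: the cell `c` lies in class `zf c` and contains the symbol `af c` -/
def cnum (zf : Ce → G) (af : Ce → Option G) (τ : Equiv.Perm G) : ℕ := (univ.filter fun c => af c = some (τ (zf c))).card

/-- One transposition removes a conflict: let `c₀` be a conflict, `z₀ = zf c₀`, `a₀ = τ z₀`. A `z' ≠ z₀` is good if no cell of class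
`z₀` contains `τ z'` (at most `d` values excluded) and no cell of class `z'` contains `a₀` (at most `#{c | af c = some a₀}` values
excluded); so there is a good one, and all new conflicts of `τ * swap z₀ z'` would be in the classes `z₀`, `z'`: there are none. -/
theorem exists_swap (zf : Ce → G) (af : Ce → Option G) (d : ℕ)
    (hz : ∀ z, (univ.filter fun c => zf c = z).card ≤ d)
    (ha : ∀ a, (univ.filter fun c => af c = some a).card + d + 2 ≤ Fintype.card G)
    (τ : Equiv.Perm G) (h : 0 < cnum zf af τ) :
    ∃ z z' : G, cnum zf af (τ * Equiv.swap z z') < cnum zf af τ := by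
  obtain ⟨c₀, hc₀⟩ := card_pos.mp h
  have hc₀' : af c₀ = some (τ (zf c₀)) := (mem_filter.mp hc₀).2
  set z₀ := zf c₀ with hz₀
  set B1 : Finset G := univ.filter fun z' => ∃ c, zf c = z₀ ∧ af c = some (τ z') with hB1
  set B2 : Finset G := (univ.filter fun c => af c = some (τ z₀)).image zf with hB2
  have h1 : B1.card ≤ d := by
    refine le_trans ?_ (hz z₀)
    have hch : ∀ z' ∈ B1, ∃ c, zf c = z₀ ∧ af c = some (τ z') := fun z' hz' =>
      (mem_filter.mp hz').2
    have : Nonempty Ce := ⟨c₀⟩
    choose! f hf using hch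
    refine card_le_card_of_injOn f (fun z' hz' => ?_) (fun z' hz' z'' hz'' he => ?_)
    · exact mem_coe.mpr (mem_filter.mpr ⟨mem_univ _, (hf z' (mem_coe.mp hz')).1⟩)
    · have e1 := (hf z' (mem_coe.mp hz')).2
      have e2 := (hf z'' (mem_coe.mp hz'')).2
      rw [he, e2] at e1
      exact (τ.injective (Option.some.inj e1)).symm
  have h2 : B2.card ≤ (univ.filter fun c => af c = some (τ z₀)).card := card_image_le
  have h3 : (B1 ∪ B2).card < Fintype.card G := by
    have h4 := card_union_le B1 B2
    have h5 := ha (τ z₀)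
    omega
  obtain ⟨z', hz'⟩ : ∃ z', z' ∉ B1 ∪ B2 := by
    by_contra hcon
    push Not at hcon
    have : B1 ∪ B2 = univ := eq_univ_iff_forall.mpr hcon
    rw [this, card_univ] at h3
    exact lt_irrefl _ h3
  rw [mem_union, not_or] at hz'
  refine ⟨z₀, z', card_lt_card ?_⟩
  rw [ssubset_iff_of_subset]
  · refine ⟨c₀, hc₀, fun hcon => ?_⟩
    have h6 := (mem_filter.mp hcon).2
    rw [Equiv.Perm.mul_apply, ← hz₀, Equiv.swap_apply_left] at h6
    exact hz'.1 (mem_filter.mpr ⟨mem_univ _, c₀, hz₀.symm, h6⟩)
  · intro c hc
    have h6 := (mem_filter.mp hc).2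
    rw [Equiv.Perm.mul_apply] at h6
    by_cases hcz : zf c = z₀
    · rw [hcz, Equiv.swap_apply_left] at h6
      exact absurd (mem_filter.mpr ⟨mem_univ _, c, hcz, h6⟩) hz'.1
    · by_cases hcz' : zf c = z'
      · rw [hcz', Equiv.swap_apply_right] at h6
        exact absurd (mem_image.mpr ⟨c, mem_filter.mpr ⟨mem_univ _, h6⟩, hcz'⟩) hz'.2
      · rw [Equiv.swap_apply_of_ne_of_ne hcz hcz'] at h6
        exact mem_filter.mpr ⟨mem_univ _, h6⟩

/-- Markov -/
private theorem tau_markov (zf : Ce → G) (af : Ce → Option G) (d : ℕ)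
    (hz : ∀ z, (univ.filter fun c => zf c = z).card ≤ d) (hm : 0 < Fintype.card G) :
    (Fintype.card G).factorial ≤
      2 * (univ.filter fun τ : Equiv.Perm G => cnum zf af τ ≤ 2 * d).card := by
  -- number of cells
  have hCe : Fintype.card Ce ≤ d * Fintype.card G := by
    have h1 : (univ : Finset Ce).card = ∑ z : G, (univ.filter fun c => zf c = z).card :=
      card_eq_sum_card_fiberwise (fun c _ => mem_coe.mpr (mem_univ (zf c)))
    rw [← card_univ, h1]
    refine (sum_le_sum fun z _ => hz z).trans ?_
    rw [sum_const, card_univ, smul_eq_mul, mul_comm]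
  -- first moment
  have hsum : ∑ τ : Equiv.Perm G, cnum zf af τ ≤ d * (Fintype.card G).factorial := by
    have h1 : ∑ τ : Equiv.Perm G, cnum zf af τ =
        ∑ c : Ce, (univ.filter fun τ : Equiv.Perm G => af c = some (τ (zf c))).card := by
      unfold cnum
      simp only [card_filter]
      exact sum_comm
    rw [h1]
    have h2 : ∀ c : Ce, (univ.filter fun τ : Equiv.Perm G => af c = some (τ (zf c))).card ≤
        (Fintype.card G - 1).factorial := by
      intro c
      rcases hc : af c with _ | a
      · have : (univ.filter fun τ : Equiv.Perm G => (none : Option G) = some (τ (zf c))) = ∅ := by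
          refine filter_eq_empty_iff.mpr fun τ _ h => ?_
          exact absurd h (by simp)
        rw [this, card_empty]
        exact Nat.zero_le _
      · have h3 := card_perm_graph_le ({(zf c, a)} : Finset (G × G))
        rw [card_singleton] at h3
        refine le_trans (card_le_card fun τ hτ => ?_) h3
        have h4 := Option.some.inj (mem_filter.mp hτ).2
        refine mem_filter.mpr ⟨mem_univ _, fun p hp => ?_⟩
        rw [mem_singleton.mp hp]
        exact h4.symm
    refine (sum_le_sum fun c _ => h2 c).trans ?_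
    rw [sum_const, card_univ, smul_eq_mul]
    calc Fintype.card Ce * (Fintype.card G - 1).factorial
        ≤ d * Fintype.card G * (Fintype.card G - 1).factorial := Nat.mul_le_mul_right _ hCe
      _ = d * (Fintype.card G).factorial := by
          rw [mul_assoc, Nat.mul_factorial_pred hm.ne']
  have hbad : (2 * d + 1) * (univ.filter fun τ : Equiv.Perm G => ¬ cnum zf af τ ≤ 2 * d).card ≤
      d * (Fintype.card G).factorial := by
    refine le_trans ?_ hsum
    calc (2 * d + 1) * (univ.filter fun τ : Equiv.Perm G => ¬ cnum zf af τ ≤ 2 * d).card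
        = ∑ τ ∈ univ.filter fun τ : Equiv.Perm G => ¬ cnum zf af τ ≤ 2 * d, (2 * d + 1) := by
          rw [sum_const, smul_eq_mul, mul_comm]
      _ ≤ ∑ τ ∈ univ.filter fun τ : Equiv.Perm G => ¬ cnum zf af τ ≤ 2 * d, cnum zf af τ := by
          refine sum_le_sum fun τ hτ => ?_
          have := (mem_filter.mp hτ).2
          omega
      _ ≤ ∑ τ : Equiv.Perm G, cnum zf af τ := sum_le_univ_sum_of_nonneg fun _ => Nat.zero_le _
  have htot : (univ.filter fun τ : Equiv.Perm G => cnum zf af τ ≤ 2 * d).card +
      (univ.filter fun τ : Equiv.Perm G => ¬ cnum zf af τ ≤ 2 * d).card =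
      (Fintype.card G).factorial := by
    rw [card_filter_add_card_filter_not, card_univ, Fintype.card_perm]
  set g := (univ.filter fun τ : Equiv.Perm G => cnum zf af τ ≤ 2 * d).card
  set b := (univ.filter fun τ : Equiv.Perm G => ¬ cnum zf af τ ≤ 2 * d).card
  have h5 : 2 * b ≤ (Fintype.card G).factorial := by
    have h6 : (2 * d + 1) * (2 * b) ≤ (2 * d + 1) * (Fintype.card G).factorial := by
      calc (2 * d + 1) * (2 * b) = 2 * ((2 * d + 1) * b) := by ring
        _ ≤ 2 * (d * (Fintype.card G).factorial) := Nat.mul_le_mul_left _ hbad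
        _ ≤ (2 * d + 1) * (Fintype.card G).factorial := by
          rw [← mul_assoc]
          exact Nat.mul_le_mul_right _ (by omega)
    exact Nat.le_of_mul_le_mul_left h6 (by omega)
  omega

private theorem tau_iter (zf : Ce → G) (af : Ce → Option G) (d : ℕ)
    (hz : ∀ z, (univ.filter fun c => zf c = z).card ≤ d)
    (ha : ∀ a, (univ.filter fun c => af c = some a).card + d + 2 ≤ Fintype.card G)
    (hm : 0 < Fintype.card G) (x : ℕ) :
    (univ.filter fun τ : Equiv.Perm G => cnum zf af τ ≤ x).card ≤
      (Fintype.card G) ^ (2 * x) * (univ.filter fun τ : Equiv.Perm G => cnum zf af τ ≤ 0).card := by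
  induction x with
  | zero => simp
  | succ x ih =>
    have hsub : (univ.filter fun τ : Equiv.Perm G => cnum zf af τ ≤ x + 1) ⊆
        ((univ.filter fun τ : Equiv.Perm G => cnum zf af τ ≤ x) ×ˢ
          ((univ : Finset G) ×ˢ (univ : Finset G))).image
          fun p => p.1 * Equiv.swap p.2.1 p.2.2 := by
      intro τ hτ
      have hτ' := (mem_filter.mp hτ).2
      rw [mem_image]
      rcases Nat.lt_or_ge x (cnum zf af τ) with h | h
      · obtain ⟨z, z', hzz⟩ := exists_swap zf af d hz ha τ (by omega)
        refine ⟨(τ * Equiv.swap z z', z, z'), ?_, ?_⟩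
        · rw [mem_product, mem_product]
          refine ⟨mem_filter.mpr ⟨mem_univ _, ?_⟩, mem_univ _, mem_univ _⟩
          show cnum zf af (τ * Equiv.swap z z') ≤ x
          omega
        · show τ * Equiv.swap z z' * Equiv.swap z z' = τ
          rw [mul_assoc, Equiv.swap_mul_self, mul_one]
      · obtain ⟨z⟩ : Nonempty G := Fintype.card_pos_iff.mp hm
        refine ⟨(τ, z, z), ?_, ?_⟩
        · rw [mem_product, mem_product]
          exact ⟨mem_filter.mpr ⟨mem_univ _, h⟩, mem_univ _, mem_univ _⟩
        · show τ * Equiv.swap z z = τ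
          rw [Equiv.swap_self]
          exact mul_one τ
    refine (card_le_card hsub).trans (card_image_le.trans ?_)
    rw [card_product, card_product, card_univ]
    calc (univ.filter fun τ : Equiv.Perm G => cnum zf af τ ≤ x).card *
          (Fintype.card G * Fintype.card G)
        ≤ (Fintype.card G) ^ (2 * x) *
          (univ.filter fun τ : Equiv.Perm G => cnum zf af τ ≤ 0).card *
          (Fintype.card G * Fintype.card G) := Nat.mul_le_mul_right _ ih
      _ = _ := by
        rw [show 2 * (x + 1) = 2 * x + 2 by ring, pow_add]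
        ring

/-- `m! ≤ 2 m^(4d) #{τ | no conflict}`. Markov: `∑_τ cnum = ∑_c #{τ | τ (zf c) = a} ≤ d m (m-1)! = d m!` (the number of cells is
at most `d m`), so at most `d m!/(2d+1) ≤ m!/2` of the `τ` have `cnum ≥ 2d+1`. And `#{cnum ≤ x+1} ≤ m^2 #{cnum ≤ x}` because
`τ ↦ (τ * swap z z', z, z')` is injective (`z = z'` when `cnum τ ≤ x` already). -/
theorem card_good_tau (zf : Ce → G) (af : Ce → Option G) (d : ℕ)
    (hz : ∀ z, (univ.filter fun c => zf c = z).card ≤ d)
    (ha : ∀ a, (univ.filter fun c => af c = some a).card + d + 2 ≤ Fintype.card G) (hm : 0 < Fintype.card G) :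
    (Fintype.card G).factorial ≤ 2 * (Fintype.card G) ^ (4 * d) * (univ.filter fun τ : Equiv.Perm G => cnum zf af τ = 0).card := by
  have h1 := tau_markov zf af d hz hm
  have h2 := tau_iter zf af d hz ha hm (2 * d)
  have h3 : (univ.filter fun τ : Equiv.Perm G => cnum zf af τ ≤ 0).card =
      (univ.filter fun τ : Equiv.Perm G => cnum zf af τ = 0).card := by
    congr 1
    ext τ
    simp
  rw [h3, ← mul_assoc] at h2
  calc (Fintype.card G).factorial
      ≤ 2 * (univ.filter fun τ : Equiv.Perm G => cnum zf af τ ≤ 2 * d).card := h1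
    _ ≤ 2 * ((Fintype.card G) ^ (2 * 2 * d) *
        (univ.filter fun τ : Equiv.Perm G => cnum zf af τ = 0).card) :=
        Nat.mul_le_mul_left _ h2
    _ = _ := by
        rw [show 2 * 2 * d = 4 * d by ring, ← mul_assoc]

/-- A permutation without conflicts in the special cells and with fewer than `K` hits in each `H e`
(`card_hits_le`: at most `C(m,K) (m-K)! = m!/K!` bad ones for each `e`; if `K > m` no `τ` has `K` hits). -/
theorem exists_tau {E : Type} [Fintype E] (zf : Ce → G) (af : Ce → Option G) (d : ℕ)
    (hz : ∀ z, (univ.filter fun c => zf c = z).card ≤ d)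
    (ha : ∀ a, (univ.filter fun c => af c = some a).card + d + 2 ≤ Fintype.card G)
    (H : E → Finset (G × G)) (hH : ∀ e, (H e).card ≤ Fintype.card G) (K : ℕ)
    (hm : 0 < Fintype.card G) (hK : 2 * Fintype.card E * (Fintype.card G) ^ (4 * d) < K.factorial) :
    ∃ τ : Equiv.Perm G, (∀ c, af c ≠ some (τ (zf c))) ∧ ∀ e, (univ.filter fun x => (x, τ x) ∈ H e).card < K := by
  classical
  by_contra hcon
  push Not at hcon
  have hg := card_good_tau zf af d hz ha hm
  set m := Fintype.card G with hmdef
  have hB : ∀ e : E, (univ.filter fun π : Equiv.Perm G =>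
      K ≤ (univ.filter fun x => (x, π x) ∈ H e).card).card * K.factorial ≤ m.factorial := by
    intro e
    have h1 := card_hits_le (H e) K
    rcases Nat.lt_or_ge m K with hKm | hKm
    · have h2 : (H e).card.choose K = 0 := Nat.choose_eq_zero_of_lt ((hH e).trans_lt hKm)
      rw [h2, zero_mul, Nat.le_zero] at h1
      rw [h1, zero_mul]
      exact Nat.zero_le _
    · calc _ ≤ (H e).card.choose K * (m - K).factorial * K.factorial :=
            Nat.mul_le_mul_right _ h1
        _ ≤ m.choose K * (m - K).factorial * K.factorial :=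
            Nat.mul_le_mul_right _ (Nat.mul_le_mul_right _ (Nat.choose_le_choose K (hH e)))
        _ = m.factorial := by
            rw [mul_right_comm, Nat.choose_mul_factorial_mul_factorial hKm]
  set good := (univ.filter fun τ : Equiv.Perm G => cnum zf af τ = 0) with hgood
  have hsub : good ⊆ (univ : Finset E).biUnion fun e => univ.filter fun π : Equiv.Perm G =>
      K ≤ (univ.filter fun x => (x, π x) ∈ H e).card := by
    intro τ hτ
    have h0 : cnum zf af τ = 0 := (mem_filter.mp hτ).2
    unfold cnum at h0
    rw [card_eq_zero, filter_eq_empty_iff] at h0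
    obtain ⟨e, he⟩ := hcon τ fun c => h0 (mem_univ c)
    exact mem_biUnion.mpr ⟨e, mem_univ _, mem_filter.mpr ⟨mem_univ _, he⟩⟩
  have h1 : good.card * K.factorial ≤ Fintype.card E * m.factorial := by
    calc good.card * K.factorial
        ≤ (∑ e : E, (univ.filter fun π : Equiv.Perm G =>
          K ≤ (univ.filter fun x => (x, π x) ∈ H e).card).card) * K.factorial :=
          Nat.mul_le_mul_right _ ((card_le_card hsub).trans card_biUnion_le)
      _ = ∑ e : E, (univ.filter fun π : Equiv.Perm G =>
          K ≤ (univ.filter fun x => (x, π x) ∈ H e).card).card * K.factorial := sum_mul _ _ _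
      _ ≤ ∑ e : E, m.factorial := sum_le_sum fun e _ => hB e
      _ = Fintype.card E * m.factorial := by rw [sum_const, card_univ, smul_eq_mul]
  have hpos : 0 < good.card := by
    rcases Nat.eq_zero_or_pos good.card with h | h
    · rw [h, mul_zero] at hg
      exact absurd hg (not_le.mpr (Nat.factorial_pos m))
    · exact h
  have h2 : good.card * K.factorial ≤ good.card * (2 * Fintype.card E * m ^ (4 * d)) := by
    refine h1.trans ((Nat.mul_le_mul_left _ hg).trans (le_of_eq ?_))
    ring
  have h3 := Nat.le_of_mul_le_mul_left h2 hpos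
  omega

end Pool.Agent.Lib.MP_ce3cb6_co.LB
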