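import Pool.Agent.Lib.MP_ce3cb6_co.LB.Data
import Pool.Agent.Lib.MP_ce3cb6_co.LB.Tau
import Pool.Agent.Lib.MP_ce3cb6_co.LB.Num

/-!
# MP_ce3cb6_co, line version: existence of the symbol permutation
-/

set_option autoImplicit false

namespace Pool.Agent.Lib.MP_ce3cb6_co.LB

open Finset

variable {G R : Type} [Group G] [Fintype G] [DecidableEq G] [Fintype R] [DecidableEq R]

private lemma card_fun_le (H : Finset (G × G)) (h : ∀ p ∈ H, ∀ p' ∈ H, p.1 = p'.1 → p.2 = p'.2) :
    H.card ≤ Fintype.card G := by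
  rw [← Finset.card_univ]
  refine Finset.card_le_card_of_injOn Prod.fst (fun _ _ => Finset.mem_univ _) ?_
  intro p hp p' hp' hpp
  exact Prod.ext hpp (h p hp p' hp' hpp)

private lemma card_hits_le' {ι : Type} [DecidableEq ι] (S : Finset ι) (φ : ι → G)
    (hφ : Function.Injective φ) (P : ι → Prop) [DecidablePred P] (H : Finset (G × G))
    (τ : Equiv.Perm G) (hP : ∀ s ∈ S, P s → (φ s, τ (φ s)) ∈ H) :
    (S.filter P).card ≤ (univ.filter fun x => (x, τ x) ∈ H).card := by
  refine Finset.card_le_card_of_injOn φ ?_ (hφ.injOn)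
  intro s hs
  have hs' := Finset.mem_filter.mp hs
  exact Finset.mem_coe.mpr (Finset.mem_filter.mpr ⟨Finset.mem_univ _, hP s hs'.1 hs'.2⟩)

/-- the group part of an entry -/
private def lp (o : Option (G ⊕ R)) : Option G := o.bind Sum.getLeft?

private lemma lp_eq (o : Option (G ⊕ R)) (a : G) : lp o = some a ↔ o = some (Sum.inl a) := by
  unfold lp
  cases o with
  | none => simp
  | some v =>
    cases v with
    | inl x => simp
    | inr x => simp

/-- class of a special cell -/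
private def zf' (D : Data G R) (ρ σ : Equiv.Perm G) : (G × R) ⊕ (R × G) → G
  | Sum.inl p => ρ p.1 * D.θ (ρ p.1) * D.c p.2
  | Sum.inr p => D.θ.symm (σ p.2 * (D.c p.1)⁻¹) * σ p.2

/-- symbol of a special cell -/
private def af' (D : Data G R) : (G × R) ⊕ (R × G) → Option G
  | Sum.inl p => lp (D.A (Sum.inl p.1) (Sum.inr p.2))
  | Sum.inr p => lp (D.A (Sum.inr p.1) (Sum.inl p.2))

private lemma card_sum_filter {α β : Type} [Fintype α] [Fintype β] [DecidableEq α] [DecidableEq β]
    (P : α ⊕ β → Prop) [DecidablePred P] :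
    (univ.filter P).card = (univ.filter fun x => P (Sum.inl x)).card +
      (univ.filter fun y => P (Sum.inr y)).card := by
  have h : (univ.filter P) = (univ.filter fun x => P (Sum.inl x)).disjSum
      (univ.filter fun y => P (Sum.inr y)) := by
    ext z
    cases z with
    | inl x => simp
    | inr y => simp
  rw [h, Finset.card_disjSum]

private lemma hz' (D : Data G R) (ρ σ : Equiv.Perm G) (z : G) :
    (univ.filter fun c => zf' D ρ σ c = z).card ≤ 2 * Fintype.card R := by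
  rw [card_sum_filter, two_mul]
  refine Nat.add_le_add ?_ ?_
  · rw [← Finset.card_univ]
    refine Finset.card_le_card_of_injOn Prod.snd (fun _ _ => Finset.mem_univ _) ?_
    intro p hp p' hp' hpp
    have h1 := (Finset.mem_filter.mp hp).2
    have h2 := (Finset.mem_filter.mp hp').2
    simp only [zf'] at h1 h2
    rw [← h2, hpp] at h1
    have h3 := D.hη.1 (mul_right_cancel h1)
    exact Prod.ext (ρ.injective h3) hpp
  · rw [← Finset.card_univ]
    refine Finset.card_le_card_of_injOn Prod.fst (fun _ _ => Finset.mem_univ _) ?_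
    intro p hp p' hp' hpp
    have h1 := (Finset.mem_filter.mp hp).2
    have h2 := (Finset.mem_filter.mp hp').2
    simp only [zf'] at h1 h2
    rw [← h2, hpp] at h1
    have key : ∀ y : G, D.θ.symm (y * (D.c p'.1)⁻¹) * y =
        D.θ.symm (y * (D.c p'.1)⁻¹) * D.θ (D.θ.symm (y * (D.c p'.1)⁻¹)) * D.c p'.1 := by
      intro y
      rw [Equiv.apply_symm_apply]
      group
    rw [key (σ p.2), key (σ p'.2)] at h1
    have h3 := D.hη.1 (mul_right_cancel h1)
    have h4 := mul_right_cancel (D.θ.symm.injective h3)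
    exact Prod.ext hpp (σ.injective h4)

private lemma ha' (D : Data G R) (a : G) :
    (univ.filter fun c => af' D c = some a).card + 2 * Fintype.card R + 2 ≤ Fintype.card G := by
  have h := D.hnew a
  rw [card_sum_filter]
  simp only [af', lp_eq]
  omega

/-- hit sets -/
private def Hs (D : Data G R) (ρ σ : Equiv.Perm G) :
    G ⊕ G ⊕ (G × G) ⊕ (G × R) → Finset (G × G)
  | Sum.inl i => univ.filter fun p =>
      D.A (Sum.inl i) (Sum.inl (σ.symm ((ρ i)⁻¹ * p.1))) = some (Sum.inl p.2)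
  | Sum.inr (Sum.inl j) => univ.filter fun p =>
      D.A (Sum.inl (ρ.symm (p.1 * (σ j)⁻¹))) (Sum.inl j) = some (Sum.inl p.2)
  | Sum.inr (Sum.inr (Sum.inl ij)) => univ.filter fun p =>
      D.A (Sum.inl (ρ.symm (ρ ij.1 * ((ρ ij.1)⁻¹ * p.1 * (σ ij.2)⁻¹))))
        (Sum.inl (σ.symm (((ρ ij.1)⁻¹ * p.1 * (σ ij.2)⁻¹) * σ ij.2))) = some (Sum.inl p.2)
  | Sum.inr (Sum.inr (Sum.inr it)) => univ.filter fun p =>
      D.A (Sum.inl (ρ.symm (D.θ.symm ((ρ it.1)⁻¹ * p.1 * (D.c it.2)⁻¹))))
        (Sum.inl (σ.symm (D.θ (D.θ.symm ((ρ it.1)⁻¹ * p.1 * (D.c it.2)⁻¹)) * D.c it.2))) =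
          some (Sum.inl p.2)

private lemma Hs_card (D : Data G R) (ρ σ : Equiv.Perm G) (e : G ⊕ G ⊕ (G × G) ⊕ (G × R)) :
    (Hs D ρ σ e).card ≤ Fintype.card G := by
  refine card_fun_le _ ?_
  intro p hp p' hp' hpp
  rcases e with i | j | ij | it <;>
  · simp only [Hs, Finset.mem_filter, Finset.mem_univ, true_and] at hp hp'
    rw [hpp, hp'] at hp
    exact (Sum.inl.inj (Option.some.inj hp)).symm

/-- Apply `exists_tau` with `Ce = (G × R) ⊕ (R × G)`, `d = 2 |R|`, `zf (inl (i,t)) = ρ i * θ (ρ i) * c t`,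
`zf (inr (t,j)) = θ⁻¹ (σ j * (c t)⁻¹) * σ j` (for each `t` bijective in `i`, resp. in `j`: with `g = θ⁻¹ (σ j (c t)⁻¹)` it is
`g θ(g) c_t`, use `hη`), `af` the `inl` part of the entry of `A` (`none` if the entry is `none` or some `inr`; `hnew` gives `ha`);
`E = G ⊕ G ⊕ (G × G) ⊕ (G × R)` with
`H = {(ρ i * σ j, a) | A (inl i) (inl j) = some (inl a)}` for fixed `i` (t3), for fixed `j` (t4),
`H = {(ρ i * s * σ j, a) | s ∈ J, A (inl ρ⁻¹(ρ i s)) (inl σ⁻¹(s σ j)) = some (inl a)}` (t5),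
`H = {(ρ i * θ g' * c t, a) | g' ∈ V (ρ i), A (inl ρ⁻¹ g') (inl σ⁻¹(θ g' c t)) = some (inl a)}` (t6);
in each case the first coordinate determines the cell, so `|H| ≤ m` and hits correspond to cells.
Numbers: `num_tau` (`|E| = 2m + m^2 + m|R| ≤ 2 m^2`). -/
theorem exists_TT (D : Data G R) (ρ σ : Equiv.Perm G) : ∃ τ : Equiv.Perm G, TT D ρ σ τ := by
  have hm := D.m_ge
  have hr := D.hr
  have hE : Fintype.card (G ⊕ G ⊕ (G × G) ⊕ (G × R)) ≤ 2 * (Fintype.card G) ^ 2 := by
    simp only [Fintype.card_sum, Fintype.card_prod]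
    nlinarith
  have hK := num_tau (Fintype.card G) D.l (Fintype.card (G ⊕ G ⊕ (G × G) ⊕ (G × R)))
    (2 * Fintype.card R) D.hl (by have := D.hN; omega) (by omega) hm hE
  obtain ⟨τ, hτ1, hτ2⟩ := exists_tau (zf' D ρ σ) (af' D) (2 * Fintype.card R) (hz' D ρ σ) (ha' D)
    (Hs D ρ σ) (Hs_card D ρ σ) (64 * D.l) (by omega) hK
  refine ⟨τ, ?_, ?_, ?_, ?_, ?_, ?_⟩
  · intro i t h
    exact hτ1 (Sum.inl (i, t)) ((lp_eq _ _).mpr h)
  · intro t j h
    exact hτ1 (Sum.inr (t, j)) ((lp_eq _ _).mpr h)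
  · intro i
    refine lt_of_le_of_lt (card_hits_le' univ (fun j => ρ i * σ j) ?_ _ _ τ ?_)
      (hτ2 (Sum.inl i))
    · intro a b hab
      exact σ.injective (mul_left_cancel hab)
    · intro j _ hj
      simp only [Hs, Finset.mem_filter, Finset.mem_univ, true_and, inv_mul_cancel_left,
        Equiv.symm_apply_apply]
      exact hj
  · intro j
    refine lt_of_le_of_lt (card_hits_le' univ (fun i => ρ i * σ j) ?_ _ _ τ ?_)
      (hτ2 (Sum.inr (Sum.inl j)))
    · intro a b hab
      exact ρ.injective (mul_right_cancel hab)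
    · intro i _ hi
      simp only [Hs, Finset.mem_filter, Finset.mem_univ, true_and, mul_inv_cancel_right,
        Equiv.symm_apply_apply]
      exact hi
  · intro i j
    refine lt_of_le_of_lt (card_hits_le' D.J (fun s => ρ i * s * σ j) ?_ _ _ τ ?_)
      (hτ2 (Sum.inr (Sum.inr (Sum.inl (i, j)))))
    · intro a b hab
      exact mul_left_cancel (mul_right_cancel hab)
    · intro s _ hs
      have e1 : (ρ i)⁻¹ * (ρ i * s * σ j) * (σ j)⁻¹ = s := by group
      simp only [Hs, Finset.mem_filter, Finset.mem_univ, true_and, e1]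
      exact hs
  · intro i t
    refine lt_of_le_of_lt (card_hits_le' (D.V (ρ i)) (fun g' => ρ i * D.θ g' * D.c t) ?_ _ _ τ ?_)
      (hτ2 (Sum.inr (Sum.inr (Sum.inr (i, t)))))
    · intro a b hab
      exact D.θ.injective (mul_left_cancel (mul_right_cancel hab))
    · intro g' _ hg
      have e1 : (ρ i)⁻¹ * (ρ i * D.θ g' * D.c t) * (D.c t)⁻¹ = D.θ g' := by group
      simp only [Hs, Finset.mem_filter, Finset.mem_univ, true_and, e1, Equiv.symm_apply_apply]
      exact hg

end Pool.Agent.Lib.MP_ce3cb6_co.LB
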