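import Mathlib

/-!
# MP_ce3cb6_co, line version: the group `D_k × Z_2`, `k` odd
-/

set_option autoImplicit false

namespace Pool.Agent.Lib.MP_ce3cb6_co.LB

open Finset

open DihedralGroup in
/-- the complete mapping -/
private def Grp_th (k : ℕ) : DihedralGroup k × ℤˣ → DihedralGroup k × ℤˣ
  | (r x, u) => if u = 1 then (r x, 1) else (sr (-x), -1)
  | (sr x, u) => if u = 1 then (r x, -1) else (sr (-x), 1)

open DihedralGroup in
private def Grp_thi (k : ℕ) : DihedralGroup k × ℤˣ → DihedralGroup k × ℤˣ
  | (r x, u) => if u = 1 then (r x, 1) else (sr x, 1)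
  | (sr x, u) => if u = 1 then (sr (-x), -1) else (r (-x), -1)

private theorem Grp_neg_ne : (-1 : ℤˣ) ≠ 1 := by decide

private def Grp_equiv (k : ℕ) : Equiv.Perm (DihedralGroup k × ℤˣ) where
  toFun := Grp_th k
  invFun := Grp_thi k
  left_inv := by
    rintro ⟨x | x, u⟩ <;> rcases Int.units_eq_one_or u with rfl | rfl <;>
      simp [Grp_th, Grp_thi, Grp_neg_ne]
  right_inv := by
    rintro ⟨x | x, u⟩ <;> rcases Int.units_eq_one_or u with rfl | rfl <;>
      simp [Grp_th, Grp_thi, Grp_neg_ne]

private theorem Grp_two {k : ℕ} (hk : Odd k) {x y : ZMod k} (h : x + x = y + y) : x = y := by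
  have h2 : Nat.Coprime 2 k := by
    rw [Nat.coprime_two_left]
    exact hk
  have h3 : IsUnit ((2 : ℕ) : ZMod k) := (ZMod.isUnit_iff_coprime 2 k).2 h2
  have h4 : ((2 : ℕ) : ZMod k) * x = ((2 : ℕ) : ZMod k) * y := by
    push_cast
    rw [two_mul, two_mul, h]
  exact h3.mul_left_cancel h4

/-- `G = DihedralGroup k × Multiplicative (ZMod 2)`, `J` = the `2k` elements `(sr x, f)`, and `θ` given by
`(r x, 0) ↦ (r x, 0)`, `(r x, 1) ↦ (sr (-x), 1)`, `(sr x, 0) ↦ (r x, 1)`, `(sr x, 1) ↦ (sr (-x), 0)`. Then `g θ(g)` is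
`(r (2x), 0)`, `(sr (-2x), 0)`, `(sr (2x), 1)`, `(r (-2x), 1)`: bijective because `k` is odd. For two elements `g, g'` of the same of the
four types, `g θ(g') = g' θ(g)` (it is `(r (x+x'), 0)`, `(sr (-x-x'), 0)`, `(sr (x+x'), 1)`, `(r (-x-x'), 1)`).
(Or any other construction with these properties.) -/
theorem exists_group (k : ℕ) (hk : Odd k) :
    ∃ (G : Type) (_ : Group G) (_ : Fintype G) (_ : DecidableEq G) (J : Finset G) (θ : Equiv.Perm G),
      Fintype.card G = 4 * k ∧ (∀ s ∈ J, s * s = 1 ∧ s ≠ 1) ∧ J.card = 2 * k ∧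
      Function.Bijective (fun g => g * θ g) ∧
      ∀ g, k ≤ (univ.filter fun g' => g' ≠ g ∧ g * θ g' = g' * θ g).card + 1 := by
  have : NeZero k := ⟨by rintro rfl; exact absurd hk (by decide)⟩
  refine ⟨DihedralGroup k × ℤˣ, inferInstance, inferInstance, inferInstance,
    univ.image (fun p : ZMod k × ℤˣ => ((DihedralGroup.sr p.1, p.2) : DihedralGroup k × ℤˣ)),
    Grp_equiv k, ?_, ?_, ?_, ?_, ?_⟩
  · rw [Fintype.card_prod, DihedralGroup.card]
    have : Fintype.card ℤˣ = 2 := by decide
    rw [this]
    ring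
  · intro s hs
    rw [Finset.mem_image] at hs
    obtain ⟨⟨x, u⟩, -, rfl⟩ := hs
    constructor
    · rw [Prod.mk_mul_mk, DihedralGroup.sr_mul_sr, sub_self]
      rcases Int.units_eq_one_or u with rfl | rfl <;> rfl
    · intro h
      have h1 := congrArg Prod.fst h
      simp only [Prod.fst_one, DihedralGroup.one_def] at h1
      cases h1
  · rw [Finset.card_image_of_injective, Finset.card_univ, Fintype.card_prod, ZMod.card]
    · have : Fintype.card ℤˣ = 2 := by decide
      rw [this]
      ring
    · rintro ⟨x, u⟩ ⟨y, v⟩ h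
      simp only [Prod.mk.injEq, DihedralGroup.sr.injEq] at h
      rw [h.1, h.2]
  · refine (Finite.injective_iff_bijective).1 ?_
    rintro ⟨x | x, u⟩ ⟨y | y, v⟩ h <;> rcases Int.units_eq_one_or u with rfl | rfl <;>
      rcases Int.units_eq_one_or v with rfl | rfl <;>
      simp [Grp_equiv, Grp_th, Grp_neg_ne, Grp_neg_ne.symm] at h ⊢
    · exact Grp_two hk h
    · have h1 : (-x) + (-x) = (-y) + (-y) := by
        linear_combination h
      exact neg_injective (Grp_two hk h1)
    · exact Grp_two hk h
    · have h1 : (-x) + (-x) = (-y) + (-y) := by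
        linear_combination h
      exact neg_injective (Grp_two hk h1)
  · intro g
    have key : ∀ (x : ZMod k) (F : ZMod k → DihedralGroup k × ℤˣ), Function.Injective F →
        (∀ x y, F x * Grp_equiv k (F y) = F y * Grp_equiv k (F x)) →
        k ≤ (univ.filter fun g' => g' ≠ F x ∧ F x * Grp_equiv k g' =
          g' * Grp_equiv k (F x)).card + 1 := by
      intro x F hF hc
      have h1 : (univ.erase x).card ≤ (univ.filter fun g' => g' ≠ F x ∧ F x * Grp_equiv k g' =
          g' * Grp_equiv k (F x)).card := by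
        refine Finset.card_le_card_of_injOn F ?_ hF.injOn
        intro y hy
        rw [Finset.mem_coe, Finset.mem_erase] at hy
        rw [Finset.mem_coe, Finset.mem_filter]
        exact ⟨Finset.mem_univ _, fun h => hy.1 (hF h), hc x y⟩
      rw [Finset.card_erase_of_mem (Finset.mem_univ _), Finset.card_univ, ZMod.card] at h1
      omega
    obtain ⟨x | x, u⟩ := g <;> rcases Int.units_eq_one_or u with rfl | rfl
    · refine key x (fun y => (DihedralGroup.r y, 1)) ?_ ?_
      · intro a b h
        simpa using h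
      · intro a b
        simp [Grp_equiv, Grp_th]
        ring
    · refine key x (fun y => (DihedralGroup.r y, -1)) ?_ ?_
      · intro a b h
        simpa using h
      · intro a b
        simp [Grp_equiv, Grp_th, Grp_neg_ne]
        ring
    · refine key x (fun y => (DihedralGroup.sr y, 1)) ?_ ?_
      · intro a b h
        simpa using h
      · intro a b
        simp [Grp_equiv, Grp_th]
        ring
    · refine key x (fun y => (DihedralGroup.sr y, -1)) ?_ ?_
      · intro a b h
        simpa using h
      · intro a b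
        simp [Grp_equiv, Grp_th, Grp_neg_ne]
        ring

end Pool.Agent.Lib.MP_ce3cb6_co.LB
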