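import Mathlib

/-!
# MP_ce3cb6_co, line version: choice of the new lines
-/

set_option autoImplicit false

namespace Pool.Agent.Lib.MP_ce3cb6_co.LB

open Finset

variable {n : ℕ}

/-- number of occurrences of `a` in a line (`inl i`: row `i`, `inr j`: column `j`) -/
def occ (A : Fin n → Fin n → Option (Fin n)) (a : Fin n) : Fin n ⊕ Fin n → ℕ
  | Sum.inl i => (univ.filter fun j => A i j = some a).card
  | Sum.inr j => (univ.filter fun i => A i j = some a).card

/-- `x` and `y` are incompatible: some symbol is heavy (`28 occ ≥ n`) in `x` and moderate (`28 occ ≥ g`) in `y`, or conversely. -/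
def Inc (A : Fin n → Fin n → Option (Fin n)) (g : ℕ) (x y : Fin n ⊕ Fin n) : Prop :=
  ∃ a, (n ≤ 28 * occ A a x ∧ g ≤ 28 * occ A a y) ∨ (n ≤ 28 * occ A a y ∧ g ≤ 28 * occ A a x)

private lemma thr {ι : Type} [Fintype ι] (f : ι → ℕ) (k n : ℕ) (h : ∑ i, f i ≤ n) :
    k * (univ.filter fun i => k ≤ 28 * f i).card ≤ 28 * n := by
  calc k * (univ.filter fun i => k ≤ 28 * f i).card
      = ∑ _i ∈ univ.filter fun i => k ≤ 28 * f i, k := by
        rw [Finset.sum_const, smul_eq_mul, mul_comm]
    _ ≤ ∑ i ∈ univ.filter fun i => k ≤ 28 * f i, 28 * f i :=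
        Finset.sum_le_sum (fun i hi => (Finset.mem_filter.mp hi).2)
    _ ≤ ∑ i, 28 * f i :=
        Finset.sum_le_sum_of_subset (Finset.filter_subset _ _)
    _ = 28 * ∑ i, f i := by rw [Finset.mul_sum]
    _ ≤ 28 * n := Nat.mul_le_mul_left _ h

open Classical in
private lemma abs_bound (g : ℕ) (hg : 0 < g) (hgn : g ≤ n) (o : Fin n → Fin n → ℕ)
    (ox : Fin n → ℕ) (ho : ∀ a, ∑ i, o a i ≤ n) (hox : ∑ a, ox a ≤ n) :
    g * (univ.filter fun i : Fin n => ∃ a, (n ≤ 28 * ox a ∧ g ≤ 28 * o a i) ∨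
      (n ≤ 28 * o a i ∧ g ≤ 28 * ox a)).card ≤ 1568 * n := by
  have hn : 0 < n := lt_of_lt_of_le hg hgn
  set S1 := (univ.filter fun a : Fin n => n ≤ 28 * ox a).biUnion
    (fun a => univ.filter fun i : Fin n => g ≤ 28 * o a i) with hS1
  set S2 := (univ.filter fun a : Fin n => g ≤ 28 * ox a).biUnion
    (fun a => univ.filter fun i : Fin n => n ≤ 28 * o a i) with hS2
  have hsub : (univ.filter fun i : Fin n => ∃ a, (n ≤ 28 * ox a ∧ g ≤ 28 * o a i) ∨
      (n ≤ 28 * o a i ∧ g ≤ 28 * ox a)) ⊆ S1 ∪ S2 := by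
    intro i hi
    simp only [hS1, hS2, Finset.mem_filter, Finset.mem_univ, true_and, Finset.mem_union,
      Finset.mem_biUnion] at hi ⊢
    obtain ⟨a, h | h⟩ := hi
    · exact Or.inl ⟨a, h.1, h.2⟩
    · exact Or.inr ⟨a, h.2, h.1⟩
  have hH : (univ.filter fun a : Fin n => n ≤ 28 * ox a).card ≤ 28 := by
    have := thr ox n n hox
    rw [mul_comm 28 n] at this
    exact Nat.le_of_mul_le_mul_left this hn
  have hM : g * (univ.filter fun a : Fin n => g ≤ 28 * ox a).card ≤ 28 * n := thr ox g n hox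
  have h1 : g * S1.card ≤ 784 * n := by
    calc g * S1.card ≤ g * ∑ a ∈ univ.filter fun a : Fin n => n ≤ 28 * ox a,
          (univ.filter fun i : Fin n => g ≤ 28 * o a i).card :=
          Nat.mul_le_mul_left _ Finset.card_biUnion_le
      _ = ∑ a ∈ univ.filter fun a : Fin n => n ≤ 28 * ox a,
          g * (univ.filter fun i : Fin n => g ≤ 28 * o a i).card := by rw [Finset.mul_sum]
      _ ≤ ∑ _a ∈ univ.filter fun a : Fin n => n ≤ 28 * ox a, 28 * n :=
          Finset.sum_le_sum (fun a _ => thr (o a) g n (ho a))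
      _ = (univ.filter fun a : Fin n => n ≤ 28 * ox a).card * (28 * n) := by
          rw [Finset.sum_const, smul_eq_mul]
      _ ≤ 28 * (28 * n) := Nat.mul_le_mul_right _ hH
      _ = 784 * n := by ring
  have h2 : g * S2.card ≤ 784 * n := by
    have h3 : S2.card ≤ (univ.filter fun a : Fin n => g ≤ 28 * ox a).card * 28 := by
      calc S2.card ≤ ∑ a ∈ univ.filter fun a : Fin n => g ≤ 28 * ox a,
            (univ.filter fun i : Fin n => n ≤ 28 * o a i).card := Finset.card_biUnion_le
        _ ≤ ∑ _a ∈ univ.filter fun a : Fin n => g ≤ 28 * ox a, 28 := by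
            refine Finset.sum_le_sum (fun a _ => ?_)
            have := thr (o a) n n (ho a)
            rw [mul_comm 28 n] at this
            exact Nat.le_of_mul_le_mul_left this hn
        _ = _ := by rw [Finset.sum_const, smul_eq_mul]
    calc g * S2.card ≤ g * ((univ.filter fun a : Fin n => g ≤ 28 * ox a).card * 28) :=
          Nat.mul_le_mul_left _ h3
      _ = (g * (univ.filter fun a : Fin n => g ≤ 28 * ox a).card) * 28 := by ring
      _ ≤ (28 * n) * 28 := Nat.mul_le_mul_right _ hM
      _ = 784 * n := by ring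
  calc g * (univ.filter fun i : Fin n => ∃ a, (n ≤ 28 * ox a ∧ g ≤ 28 * o a i) ∨
      (n ≤ 28 * o a i ∧ g ≤ 28 * ox a)).card ≤ g * (S1 ∪ S2).card :=
        Nat.mul_le_mul_left _ (Finset.card_le_card hsub)
    _ ≤ g * (S1.card + S2.card) := Nat.mul_le_mul_left _ (Finset.card_union_le _ _)
    _ = g * S1.card + g * S2.card := by ring
    _ ≤ 784 * n + 784 * n := Nat.add_le_add h1 h2
    _ = 1568 * n := by ring

private lemma sum_sym (f : Fin n → Option (Fin n)) :
    ∑ a : Fin n, (univ.filter fun j => f j = some a).card ≤ n := by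
  calc ∑ a : Fin n, (univ.filter fun j => f j = some a).card
      = ∑ a : Fin n, ∑ j : Fin n, (if f j = some a then 1 else 0) := by
        refine Finset.sum_congr rfl (fun a _ => ?_)
        rw [Finset.card_filter]
    _ = ∑ j : Fin n, ∑ a : Fin n, (if f j = some a then 1 else 0) := Finset.sum_comm
    _ ≤ ∑ _j : Fin n, 1 := by
        refine Finset.sum_le_sum (fun j _ => ?_)
        cases hf : f j with
        | none => simp
        | some b => simp [Finset.sum_ite_eq]
    _ = n := by simp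

private lemma sum_occ_sym (A : Fin n → Fin n → Option (Fin n)) (x : Fin n ⊕ Fin n) :
    ∑ a : Fin n, occ A a x ≤ n := by
  rcases x with i | j
  · exact sum_sym (fun j => A i j)
  · exact sum_sym (fun i => A i j)

private lemma sum_row (A : Fin n → Fin n → Option (Fin n)) (a : Fin n) :
    ∑ i : Fin n, occ A a (Sum.inl i) =
      (univ.filter fun p : Fin n × Fin n => A p.1 p.2 = some a).card := by
  simp only [occ]
  rw [Finset.card_filter, Fintype.sum_prod_type]
  refine Finset.sum_congr rfl (fun i _ => ?_)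
  rw [Finset.card_filter]

private lemma sum_col (A : Fin n → Fin n → Option (Fin n)) (a : Fin n) :
    ∑ j : Fin n, occ A a (Sum.inr j) =
      (univ.filter fun p : Fin n × Fin n => A p.1 p.2 = some a).card := by
  simp only [occ]
  rw [Finset.card_filter, Fintype.sum_prod_type, Finset.sum_comm]
  refine Finset.sum_congr rfl (fun i _ => ?_)
  rw [Finset.card_filter]

/-- At most `1568 n / g` rows (columns) are incompatible with `x`: at most `28` symbols are heavy in `x`, each of them is moderate in at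
most `28 n / g` rows (it occurs at most `n` times); at most `28 n / g` symbols are moderate in `x`, each of them is heavy in at most
`28` rows. -/
theorem card_Inc_row (A : Fin n → Fin n → Option (Fin n)) (g : ℕ) (hg : 0 < g) (hgn : g ≤ n)
    (htot : ∀ a, (univ.filter fun p : Fin n × Fin n => A p.1 p.2 = some a).card ≤ n) (x : Fin n ⊕ Fin n) :
    g * (Nat.card {i : Fin n // Inc A g x (Sum.inl i)}) ≤ 1568 * n := by
  classical
  rw [Nat.card_eq_fintype_card, Fintype.card_subtype]
  refine le_trans (Nat.mul_le_mul_left _ (Finset.card_le_card ?_))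
    (abs_bound g hg hgn (fun a i => occ A a (Sum.inl i)) (fun a => occ A a x)
    (fun a => (sum_row A a).le.trans (htot a)) (sum_occ_sym A x))
  intro i hi
  rw [Finset.mem_filter] at hi ⊢
  exact hi

theorem card_Inc_col (A : Fin n → Fin n → Option (Fin n)) (g : ℕ) (hg : 0 < g) (hgn : g ≤ n)
    (htot : ∀ a, (univ.filter fun p : Fin n × Fin n => A p.1 p.2 = some a).card ≤ n) (x : Fin n ⊕ Fin n) :
    g * (Nat.card {j : Fin n // Inc A g x (Sum.inr j)}) ≤ 1568 * n := by
  classical
  rw [Nat.card_eq_fintype_card, Fintype.card_subtype]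
  refine le_trans (Nat.mul_le_mul_left _ (Finset.card_le_card ?_))
    (abs_bound g hg hgn (fun a i => occ A a (Sum.inr i)) (fun a => occ A a x)
    (fun a => (sum_col A a).le.trans (htot a)) (sum_occ_sym A x))
  intro i hi
  rw [Finset.mem_filter] at hi ⊢
  exact hi

private lemma Inc_symm (A : Fin n → Fin n → Option (Fin n)) (g : ℕ) (x y : Fin n ⊕ Fin n)
    (h : Inc A g x y) : Inc A g y x := by
  obtain ⟨a, h | h⟩ := h
  · exact ⟨a, Or.inr ⟨h.1, h.2⟩⟩
  · exact ⟨a, Or.inl ⟨h.1, h.2⟩⟩

open Classical in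
private lemma extend (A : Fin n → Fin n → Option (Fin n)) (g : ℕ) (hg : 100000 ≤ g) (hgn : g ≤ n)
    (F : Fin n → Fin n ⊕ Fin n) (hF : Function.Injective F)
    (hb : ∀ x, g * (univ.filter fun i => Inc A g x (F i)).card ≤ 1568 * n)
    (L : Finset (Fin n ⊕ Fin n)) (hL : L.card ≤ 13) :
    ∃ i, F i ∉ L ∧ ∀ x ∈ L, ¬ Inc A g x (F i) := by
  by_contra hcon
  push Not at hcon
  have hcov : (univ : Finset (Fin n)) ⊆
      (univ.filter fun i => F i ∈ L) ∪ L.biUnion (fun x => univ.filter fun i => Inc A g x (F i)) := by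
    intro i _
    simp only [Finset.mem_union, Finset.mem_filter, Finset.mem_univ, true_and, Finset.mem_biUnion]
    by_cases h : F i ∈ L
    · exact Or.inl h
    · exact Or.inr (hcon i h)
  have h1 : (univ.filter fun i => F i ∈ L).card ≤ 13 := by
    refine le_trans (Finset.card_le_card_of_injOn F ?_ hF.injOn) hL
    intro i hi
    exact Finset.mem_coe.mpr (Finset.mem_filter.mp (Finset.mem_coe.mp hi)).2
  have h2 : n ≤ 13 + ∑ x ∈ L, (univ.filter fun i => Inc A g x (F i)).card := by
    have h3 := Finset.card_le_card hcov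
    rw [Finset.card_univ, Fintype.card_fin] at h3
    exact h3.trans ((Finset.card_union_le _ _).trans (Nat.add_le_add h1 Finset.card_biUnion_le))
  have h3 : g * n ≤ g * 13 + 13 * (1568 * n) := by
    calc g * n ≤ g * (13 + ∑ x ∈ L, (univ.filter fun i => Inc A g x (F i)).card) :=
          Nat.mul_le_mul_left _ h2
      _ = g * 13 + ∑ x ∈ L, g * (univ.filter fun i => Inc A g x (F i)).card := by
          rw [mul_add, Finset.mul_sum]
      _ ≤ g * 13 + ∑ _x ∈ L, 1568 * n :=
          Nat.add_le_add_left (Finset.sum_le_sum (fun x _ => hb x)) _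
      _ = g * 13 + L.card * (1568 * n) := by rw [Finset.sum_const, smul_eq_mul]
      _ ≤ g * 13 + 13 * (1568 * n) := Nat.add_le_add_left (Nat.mul_le_mul_right _ hL) _
  obtain ⟨m, rfl⟩ : ∃ m, n = m + 13 := ⟨n - 13, by omega⟩
  have h4 : g * m ≤ 13 * (1568 * (m + 13)) := by nlinarith
  have h5 : 100000 * m ≤ g * m := Nat.mul_le_mul_right _ hg
  omega

private lemma pair_insert (A : Fin n → Fin n → Option (Fin n)) (g : ℕ)
    (L L' : Finset (Fin n ⊕ Fin n)) (z : Fin n ⊕ Fin n) (hL' : ∀ x ∈ L', x = z ∨ x ∈ L)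
    (h : ∀ x ∈ L, ∀ y ∈ L, x ≠ y → ¬ Inc A g x y) (hz : ∀ x ∈ L, ¬ Inc A g x z) :
    ∀ x ∈ L', ∀ y ∈ L', x ≠ y → ¬ Inc A g x y := by
  intro x hx y hy hxy
  rcases hL' x hx with rfl | hx' <;> rcases hL' y hy with rfl | hy'
  · exact absurd rfl hxy
  · exact fun hc => hz y hy' (Inc_symm A g _ _ hc)
  · exact hz x hx'
  · exact h x hx' y hy' hxy

/-- Greedy choice of `r` rows and `r` columns (`r ≤ 7`), pairwise compatible: at most 14 lines are chosen before, they exclude at most
`14 * 1568 n / g + 14 < n` rows. Then for each `a`: either no chosen line is heavy for `a`, and `a` occurs fewer than `14 n / 28` times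
in the chosen lines, or one is heavy, it contains at most `n - g` cells with `a`, and the others fewer than `g / 28` each. -/
theorem exists_lines (r g : ℕ) (hr : r ≤ 7) (hg : 100000 ≤ g) (hgn : g ≤ n) (A : Fin n → Fin n → Option (Fin n))
    (htot : ∀ a, (univ.filter fun p : Fin n × Fin n => A p.1 p.2 = some a).card ≤ n)
    (hrow : ∀ a i, (univ.filter fun j => A i j = some a).card + g ≤ n)
    (hcol : ∀ a j, (univ.filter fun i => A i j = some a).card + g ≤ n) :
    ∃ R₀ C₀ : Finset (Fin n), R₀.card = r ∧ C₀.card = r ∧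
      ∀ a, (univ.filter fun p : Fin n × Fin n => A p.1 p.2 = some a ∧ (p.1 ∈ R₀ ∨ p.2 ∈ C₀)).card + 3 * r + 2 ≤ n := by
  classical
  have hbr : ∀ x, g * (univ.filter fun i => Inc A g x (Sum.inl i)).card ≤ 1568 * n := by
    intro x
    have := card_Inc_row A g (by omega) hgn htot x
    rwa [Nat.card_eq_fintype_card, Fintype.card_subtype] at this
  have hbc : ∀ x, g * (univ.filter fun i => Inc A g x (Sum.inr i)).card ≤ 1568 * n := by
    intro x
    have := card_Inc_col A g (by omega) hgn htot x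
    rwa [Nat.card_eq_fintype_card, Fintype.card_subtype] at this
  have step1 : ∀ k, k ≤ 7 → ∃ R₀ : Finset (Fin n), R₀.card = k ∧
      ∀ x ∈ R₀.disjSum (∅ : Finset (Fin n)), ∀ y ∈ R₀.disjSum (∅ : Finset (Fin n)),
        x ≠ y → ¬ Inc A g x y := by
    intro k
    induction k with
    | zero => intro _; exact ⟨∅, rfl, by simp⟩
    | succ k ih =>
      intro hk
      obtain ⟨R₀, hR, hp⟩ := ih (by omega)
      obtain ⟨i, hi1, hi2⟩ := extend A g hg hgn Sum.inl Sum.inl_injective hbr
        (R₀.disjSum ∅) (by rw [Finset.card_disjSum, hR]; simp; omega)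
      have hiR : i ∉ R₀ := fun h => hi1 (Finset.inl_mem_disjSum.mpr h)
      refine ⟨insert i R₀, by rw [Finset.card_insert_of_notMem hiR, hR], ?_⟩
      refine pair_insert A g (R₀.disjSum ∅) _ (Sum.inl i) ?_ hp hi2
      intro x hx
      rcases x with x | x
      · rw [Finset.inl_mem_disjSum, Finset.mem_insert] at hx
        rcases hx with rfl | hx
        · exact Or.inl rfl
        · exact Or.inr (Finset.inl_mem_disjSum.mpr hx)
      · rw [Finset.inr_mem_disjSum] at hx
        exact absurd hx (Finset.notMem_empty _)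
  obtain ⟨R₀, hR, hpR⟩ := step1 r hr
  have step2 : ∀ k, k ≤ r → ∃ C₀ : Finset (Fin n), C₀.card = k ∧
      ∀ x ∈ R₀.disjSum C₀, ∀ y ∈ R₀.disjSum C₀, x ≠ y → ¬ Inc A g x y := by
    intro k
    induction k with
    | zero => intro _; exact ⟨∅, rfl, hpR⟩
    | succ k ih =>
      intro hk
      obtain ⟨C₀, hC, hp⟩ := ih (by omega)
      obtain ⟨i, hi1, hi2⟩ := extend A g hg hgn Sum.inr Sum.inr_injective hbc
        (R₀.disjSum C₀) (by rw [Finset.card_disjSum, hR, hC]; omega)
      have hiC : i ∉ C₀ := fun h => hi1 (Finset.inr_mem_disjSum.mpr h)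
      refine ⟨insert i C₀, by rw [Finset.card_insert_of_notMem hiC, hC], ?_⟩
      refine pair_insert A g (R₀.disjSum C₀) _ (Sum.inr i) ?_ hp hi2
      intro x hx
      rcases x with x | x
      · rw [Finset.inl_mem_disjSum] at hx
        exact Or.inr (Finset.inl_mem_disjSum.mpr hx)
      · rw [Finset.inr_mem_disjSum, Finset.mem_insert] at hx
        rcases hx with rfl | hx
        · exact Or.inl rfl
        · exact Or.inr (Finset.inr_mem_disjSum.mpr hx)
  obtain ⟨C₀, hC, hp⟩ := step2 r le_rfl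
  refine ⟨R₀, C₀, hR, hC, fun a => ?_⟩
  set L := R₀.disjSum C₀ with hL
  have hLc : L.card ≤ 14 := by rw [hL, Finset.card_disjSum, hR, hC]; omega
  have hsum : (univ.filter fun p : Fin n × Fin n =>
      A p.1 p.2 = some a ∧ (p.1 ∈ R₀ ∨ p.2 ∈ C₀)).card ≤ ∑ x ∈ L, occ A a x := by
    have hsub : (univ.filter fun p : Fin n × Fin n => A p.1 p.2 = some a ∧ (p.1 ∈ R₀ ∨ p.2 ∈ C₀)) ⊆
        (R₀.biUnion fun i => (univ.filter fun j => A i j = some a).image (fun j => (i, j))) ∪
        (C₀.biUnion fun j => (univ.filter fun i => A i j = some a).image (fun i => (i, j))) := by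
      rintro ⟨i, j⟩ hij
      simp only [Finset.mem_filter, Finset.mem_univ, true_and, Finset.mem_union,
        Finset.mem_biUnion, Finset.mem_image, Prod.mk.injEq] at hij ⊢
      rcases hij.2 with h | h
      · exact Or.inl ⟨i, h, j, hij.1, rfl, rfl⟩
      · exact Or.inr ⟨j, h, i, hij.1, rfl, rfl⟩
    refine (Finset.card_le_card hsub).trans ((Finset.card_union_le _ _).trans ?_)
    rw [hL, Finset.sum_disjSum]
    refine Nat.add_le_add ?_ ?_
    · exact Finset.card_biUnion_le.trans (Finset.sum_le_sum (fun i _ => Finset.card_image_le))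
    · exact Finset.card_biUnion_le.trans (Finset.sum_le_sum (fun i _ => Finset.card_image_le))
  have hocc : ∀ x, occ A a x + g ≤ n := by
    rintro (i | j)
    · exact hrow a i
    · exact hcol a j
  by_cases hheavy : ∃ x ∈ L, n ≤ 28 * occ A a x
  · obtain ⟨x, hx, hxn⟩ := hheavy
    have h1 : ∑ y ∈ L.erase x, 28 * occ A a y ≤ ∑ _y ∈ L.erase x, g := by
      refine Finset.sum_le_sum (fun y hy => ?_)
      rw [Finset.mem_erase] at hy
      by_contra hc
      push Not at hc
      exact hp x hx y hy.2 (Ne.symm hy.1) ⟨a, Or.inl ⟨hxn, hc.le⟩⟩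
    rw [Finset.sum_const, smul_eq_mul, ← Finset.mul_sum, Finset.card_erase_of_mem hx] at h1
    have h2 : ∑ y ∈ L, occ A a y = occ A a x + ∑ y ∈ L.erase x, occ A a y :=
      (Finset.add_sum_erase _ _ hx).symm
    have h3 : (L.card - 1) * g ≤ 13 * g := Nat.mul_le_mul_right _ (by omega)
    have h4 := hocc x
    omega
  · push Not at hheavy
    have h1 : ∑ x ∈ L, 28 * occ A a x ≤ ∑ _x ∈ L, n :=
      Finset.sum_le_sum (fun x hx => (hheavy x hx).le)
    rw [Finset.sum_const, smul_eq_mul, ← Finset.mul_sum] at h1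
    have h3 : L.card * n ≤ 14 * n := Nat.mul_le_mul_right _ hLc
    omega

end Pool.Agent.Lib.MP_ce3cb6_co.LB
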