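import Pool.Agent.Lib.MP_ce3cb6_co.LB.MainSum
import Pool.Agent.Lib.MP_ce3cb6_co.LB.Grp
import Pool.Agent.Lib.MP_ce3cb6_co.LB.Lines

/-!
# MP_ce3cb6_co, line version: the theorem
-/

set_option autoImplicit false

namespace Pool.Agent.Lib.MP_ce3cb6_co.LB

open Finset

/-- a bijection sending a given set to the right summand -/
theorem exists_equiv_sum {n : ℕ} {G R : Type} [Fintype G] [Fintype R] (h : Fintype.card G + Fintype.card R = n)
    (S : Finset (Fin n)) (hS : S.card = Fintype.card R) :
    ∃ e : Fin n ≃ G ⊕ R, ∀ x, x ∈ S ↔ ∃ t, e x = Sum.inr t := by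
  classical
  have h1 : Fintype.card {x // x ∈ S} = Fintype.card R := by
    rw [Fintype.card_coe, hS]
  have h2 : Fintype.card {x // ¬ x ∈ S} = Fintype.card G := by
    rw [Fintype.card_subtype_compl, Fintype.card_coe, Fintype.card_fin, hS]
    omega
  let e1 : {x // x ∈ S} ≃ R := Fintype.equivOfCardEq h1
  let e2 : {x // ¬ x ∈ S} ≃ G := Fintype.equivOfCardEq h2
  refine ⟨(Equiv.sumCompl (fun x => x ∈ S)).symm.trans ((Equiv.sumCongr e1 e2).trans (Equiv.sumComm R G)), ?_⟩
  intro x
  by_cases hx : x ∈ S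
  · simp [hx, Equiv.sumCompl_symm_apply_of_pos hx]
  · simp [hx, Equiv.sumCompl_symm_apply_of_neg hx]

/-- a Latin square of every order, on every finite type -/
theorem exists_latin (R : Type) [Fintype R] : ∃ q : R → R → R, Latin q := by
  classical
  rcases isEmpty_or_nonempty R with hR | hR
  · exact ⟨fun x _ => x, fun i => hR.elim i, fun i => hR.elim i⟩
  · obtain ⟨m, hm⟩ : ∃ m, Fintype.card R = m + 1 := ⟨Fintype.card R - 1, by
      have := Fintype.card_pos (α := R)
      omega⟩
    let e : R ≃ ZMod (m + 1) := Fintype.equivOfCardEq (by rw [hm, ZMod.card])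
    refine ⟨fun x y => e.symm (e x + e y), ?_, ?_⟩
    · intro i x y hxy
      have h1 := e.symm.injective hxy
      exact e.injective (add_left_cancel h1)
    · intro i x y hxy
      have h1 := e.symm.injective hxy
      exact e.injective (add_right_cancel h1)

/-- Write `n = 4k + r`, `k` odd, `r ≤ 7`, `r = (n - 4) % 8`; take `G` from `exists_group k`, `R = Fin r`, any injective `c`; choose rows
`R₀`, columns `C₀` by `exists_lines` (with `g = 336000 l`) and `r` symbols `S₀` not occurring in the cells of `R₀ × C₀`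
(`r^2 + r ≤ n`); transport `A` by the three bijections of `exists_equiv_sum` and apply `main_sum`. -/
theorem main_nat (n l : ℕ) (hl : 1 ≤ l) (h1 : n ≤ 2 ^ l) (h2 : 336000 * l ≤ n) (A : Fin n → Fin n → Option (Fin n))
    (htot : ∀ a, (univ.filter fun p : Fin n × Fin n => A p.1 p.2 = some a).card ≤ n)
    (hrow : ∀ a i, (univ.filter fun j => A i j = some a).card + 336000 * l ≤ n)
    (hcol : ∀ a j, (univ.filter fun i => A i j = some a).card + 336000 * l ≤ n) :
    ∃ L : Fin n → Fin n → Fin n, (∀ i, Function.Injective (L i)) ∧ (∀ j, Function.Injective fun i => L i j) ∧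
      ∀ i j, A i j ≠ some (L i j) := by
  classical
  obtain ⟨k, r, hk, hr, hkr⟩ : ∃ k r, Odd k ∧ r ≤ 7 ∧ 4 * k + r = n :=
    ⟨2 * ((n - 4) / 8) + 1, (n - 4) % 8, ⟨_, rfl⟩, by omega, by omega⟩
  obtain ⟨G, iG, iF, iD, J, θ, hG, hJ, hJc, hη, hV⟩ := exists_group k hk
  have hcard : Fintype.card G + Fintype.card (Fin r) = n := by rw [hG, Fintype.card_fin, hkr]
  obtain ⟨c⟩ : Nonempty (Fin r ↪ G) := Function.Embedding.nonempty_of_card_le (by
    rw [Fintype.card_fin, hG]
    omega)
  obtain ⟨q, hq⟩ := exists_latin (Fin r)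
  obtain ⟨R₀, C₀, hR₀, hC₀, hRC⟩ := exists_lines r (336000 * l) hr (by omega) h2 A htot hrow hcol
  -- the symbols
  obtain ⟨S₀, hS₀, hS₀c⟩ : ∃ S₀ : Finset (Fin n), (∀ i ∈ R₀, ∀ j ∈ C₀, ∀ a ∈ S₀, A i j ≠ some a) ∧ S₀.card = r := by
    have hbad : (univ.filter fun a : Fin n => ∃ p ∈ R₀ ×ˢ C₀, A p.1 p.2 = some a).card ≤ r * r := by
      have hsub : (univ.filter fun a : Fin n => ∃ p ∈ R₀ ×ˢ C₀, A p.1 p.2 = some a) ⊆
          (R₀ ×ˢ C₀).biUnion fun p => (A p.1 p.2).toFinset := by
        intro a ha
        obtain ⟨p, hp, hpa⟩ := (Finset.mem_filter.1 ha).2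
        refine Finset.mem_biUnion.2 ⟨p, hp, ?_⟩
        rw [Option.mem_toFinset, hpa]
        rfl
      refine (Finset.card_le_card hsub).trans ((Finset.card_biUnion_le_card_mul _ _ 1 ?_).trans ?_)
      · intro p hp
        rcases A p.1 p.2 with _ | b
        · simp
        · simp
      · rw [Finset.card_product, hR₀, hC₀, mul_one]
    have hgood : r ≤ (univ \ (univ.filter fun a : Fin n => ∃ p ∈ R₀ ×ˢ C₀, A p.1 p.2 = some a)).card := by
      rw [Finset.card_sdiff_of_subset (Finset.subset_univ _), Finset.card_univ, Fintype.card_fin]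
      have : r * r ≤ 7 * 7 := Nat.mul_le_mul hr hr
      omega
    obtain ⟨S₀, hS, hSc⟩ := Finset.exists_subset_card_eq hgood
    refine ⟨S₀, ?_, hSc⟩
    intro i hi j hj a ha hA
    have h3 := Finset.mem_sdiff.1 (hS ha)
    exact h3.2 (Finset.mem_filter.2 ⟨Finset.mem_univ _, (i, j), Finset.mem_product.2 ⟨hi, hj⟩, hA⟩)
  obtain ⟨e1, he1⟩ := exists_equiv_sum hcard R₀ (by rw [hR₀, Fintype.card_fin])
  obtain ⟨e2, he2⟩ := exists_equiv_sum hcard C₀ (by rw [hC₀, Fintype.card_fin])
  obtain ⟨e3, he3⟩ := exists_equiv_sum hcard S₀ (by rw [hS₀c, Fintype.card_fin])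
  have key : ∀ (o : Option (Fin n)) (b : G ⊕ Fin r), o.map e3 = some b ↔ o = some (e3.symm b) := by
    intro o b
    rcases o with _ | x
    · simp
    · simp only [Option.map_some, Option.some.injEq]
      constructor
      · intro h
        rw [← h, Equiv.symm_apply_apply]
      · intro h
        rw [h, Equiv.apply_symm_apply]
  have D : ∃ D : Data G (Fin r), D.A = fun x y => (A (e1.symm x) (e2.symm y)).map e3 := by
    refine ⟨{ J := J, θ := θ, c := c, q := q, l := l, A := fun x y => (A (e1.symm x) (e2.symm y)).map e3,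
              hJ := hJ, hJc := ?_, hη := hη, hV := ?_, hc := c.injective, hq := hq, hr := ?_, hl := hl,
              hN := ?_, hNl := ?_, htot := ?_, hrow := ?_, hcol := ?_, hnew := ?_, hcor := ?_ }, rfl⟩
    · omega
    · intro g
      have := hV g
      omega
    · rw [Fintype.card_fin]; exact hr
    · rw [hcard]; exact h1
    · rw [hcard]; exact h2
    · intro a
      rw [hcard]
      refine le_trans ?_ (htot (e3.symm a))
      refine Finset.card_le_card_of_injOn (fun p => (e1.symm p.1, e2.symm p.2)) ?_ ?_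
      · intro p hp
        have hp' := (Finset.mem_filter.1 (Finset.mem_coe.1 hp)).2
        exact Finset.mem_coe.2 (Finset.mem_filter.2 ⟨Finset.mem_univ _, (key _ _).1 hp'⟩)
      · intro p _ p' _ hpp
        have h3 := Prod.mk.inj hpp
        exact Prod.ext (e1.symm.injective h3.1) (e2.symm.injective h3.2)
    · intro a x
      rw [hcard]
      refine le_trans (Nat.add_le_add_right ?_ _) (hrow (e3.symm a) (e1.symm x))
      refine Finset.card_le_card_of_injOn (fun y => e2.symm y) ?_ ?_
      · intro p hp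
        have hp' := (Finset.mem_filter.1 (Finset.mem_coe.1 hp)).2
        exact Finset.mem_coe.2 (Finset.mem_filter.2 ⟨Finset.mem_univ _, (key _ _).1 hp'⟩)
      · intro p _ p' _ hpp
        exact e2.symm.injective hpp
    · intro a y
      rw [hcard]
      refine le_trans (Nat.add_le_add_right ?_ _) (hcol (e3.symm a) (e2.symm y))
      refine Finset.card_le_card_of_injOn (fun y => e1.symm y) ?_ ?_
      · intro p hp
        have hp' := (Finset.mem_filter.1 (Finset.mem_coe.1 hp)).2
        exact Finset.mem_coe.2 (Finset.mem_filter.2 ⟨Finset.mem_univ _, (key _ _).1 hp'⟩)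
      · intro p _ p' _ hpp
        exact e1.symm.injective hpp
    · intro a
      rw [hcard, Fintype.card_fin]
      refine le_trans (Nat.add_le_add_right (Nat.add_le_add_right ?_ _) _) (hRC (e3.symm (Sum.inl a)))
      have hc1 : ((univ.filter fun p : G × Fin r => (A (e1.symm (Sum.inl p.1)) (e2.symm (Sum.inr p.2))).map e3 =
          some (Sum.inl a)).image fun p => (e1.symm (Sum.inl p.1), e2.symm (Sum.inr p.2))).card =
          (univ.filter fun p : G × Fin r => (A (e1.symm (Sum.inl p.1)) (e2.symm (Sum.inr p.2))).map e3 =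
          some (Sum.inl a)).card := by
        refine Finset.card_image_of_injective _ ?_
        intro p p' hpp
        have h3 := Prod.mk.inj hpp
        exact Prod.ext (Sum.inl.inj (e1.symm.injective h3.1)) (Sum.inr.inj (e2.symm.injective h3.2))
      have hc2 : ((univ.filter fun p : Fin r × G => (A (e1.symm (Sum.inr p.1)) (e2.symm (Sum.inl p.2))).map e3 =
          some (Sum.inl a)).image fun p => (e1.symm (Sum.inr p.1), e2.symm (Sum.inl p.2))).card =
          (univ.filter fun p : Fin r × G => (A (e1.symm (Sum.inr p.1)) (e2.symm (Sum.inl p.2))).map e3 =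
          some (Sum.inl a)).card := by
        refine Finset.card_image_of_injective _ ?_
        intro p p' hpp
        have h3 := Prod.mk.inj hpp
        exact Prod.ext (Sum.inr.inj (e1.symm.injective h3.1)) (Sum.inl.inj (e2.symm.injective h3.2))
      rw [← hc1, ← hc2, ← Finset.card_union_of_disjoint]
      · refine Finset.card_le_card ?_
        intro p hp
        rcases Finset.mem_union.1 hp with hp | hp
        · obtain ⟨p', hp', rfl⟩ := Finset.mem_image.1 hp
          refine Finset.mem_filter.2 ⟨Finset.mem_univ _, (key _ _).1 (Finset.mem_filter.1 hp').2, Or.inr ?_⟩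
          exact (he2 _).2 ⟨p'.2, by simp⟩
        · obtain ⟨p', hp', rfl⟩ := Finset.mem_image.1 hp
          refine Finset.mem_filter.2 ⟨Finset.mem_univ _, (key _ _).1 (Finset.mem_filter.1 hp').2, Or.inl ?_⟩
          exact (he1 _).2 ⟨p'.1, by simp⟩
      · rw [Finset.disjoint_left]
        intro p hp hp2
        obtain ⟨p', hp', rfl⟩ := Finset.mem_image.1 hp
        obtain ⟨p'', hp'', h3⟩ := Finset.mem_image.1 hp2
        have h4 := (Prod.mk.inj h3).1
        exact absurd (e1.symm.injective h4) (by simp)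
    · intro t t' t'' hA
      have h3 := (key _ _).1 hA
      refine hS₀ _ ((he1 _).2 ⟨t, by simp⟩) _ ((he2 _).2 ⟨t', by simp⟩) _ ((he3 _).2 ⟨t'', by simp⟩) h3
  obtain ⟨D, hD⟩ := D
  obtain ⟨L, hL, hLA⟩ := main_sum D
  refine ⟨fun i j => e3.symm (L (e1 i) (e2 j)), ?_, ?_, ?_⟩
  · intro i x y hxy
    exact e2.injective (hL.1 _ (e3.symm.injective hxy))
  · intro j x y hxy
    exact e1.injective (hL.2 _ (e3.symm.injective hxy))
  · intro i j hA
    apply hLA (e1 i) (e2 j)
    rw [hD]
    simp only [Equiv.symm_apply_apply]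
    rw [key]
    exact hA

/-- **Theorem.** `C = 10^6`; `num_final` with `l = Nat.log 2 n + 1` (if `n ≥ 2` then `n - C log n ≥ 0` because it bounds a number of
cells). -/
theorem line_bound : ∃ C : ℝ, 0 < C ∧ ∀ n : ℕ, 2 ≤ n → ∀ A : Fin n → Fin n → Option (Fin n),
    (∀ a, (univ.filter fun p : Fin n × Fin n => A p.1 p.2 = some a).card ≤ n) →
    (∀ a i, ((univ.filter fun j => A i j = some a).card : ℝ) ≤ n - C * Real.log n) →
    (∀ a j, ((univ.filter fun i => A i j = some a).card : ℝ) ≤ n - C * Real.log n) →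
    ∃ L : Fin n → Fin n → Fin n, (∀ i, Function.Injective (L i)) ∧ (∀ j, Function.Injective fun i => L i j) ∧
      ∀ i j, A i j ≠ some (L i j) := by
  refine ⟨1000000, by norm_num, ?_⟩
  intro n hn A htot hrow hcol
  have hz : Fin n := ⟨0, by omega⟩
  have h0 : 0 ≤ (n : ℝ) - 1000000 * Real.log n := le_trans (Nat.cast_nonneg _) (hrow hz hz)
  obtain ⟨h1, h2, h3⟩ := num_final n hn h0
  refine main_nat n (Nat.log 2 n + 1) (by omega) h1 h2 A htot ?_ ?_
  · intro a i
    have h4 := hrow a i
    have h5 : (((univ.filter fun j => A i j = some a).card + 336000 * (Nat.log 2 n + 1) : ℕ) : ℝ) ≤ (n : ℝ) := by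
      push_cast at h3 ⊢
      linarith
    exact_mod_cast h5
  · intro a j
    have h4 := hcol a j
    have h5 : (((univ.filter fun i => A i j = some a).card + 336000 * (Nat.log 2 n + 1) : ℕ) : ℝ) ≤ (n : ℝ) := by
      push_cast at h3 ⊢
      linarith
    exact_mod_cast h5

end Pool.Agent.Lib.MP_ce3cb6_co.LB
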