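import Mathlib

/-!
# MP_ce3cb6_co, line version: independent transversals by Rosenfeld's counting argument
-/

set_option autoImplicit false

namespace Pool.Agent.Lib.MP_ce3cb6_co.LB

open Finset Classical

private noncomputable def TransN {P Q : Type} [Fintype P] (C : P → Finset Q)
    (R : P → Q → P → Q → Prop) (q₀ : Q) (S : Finset P) : Finset (P → Q) :=
  (Fintype.piFinset (fun p => if p ∈ S then C p else {q₀})).filter
    (fun f => ∀ p ∈ S, ∀ p' ∈ S, p ≠ p' → ¬ R p (f p) p' (f p'))

private theorem TransN_mem {P Q : Type} [Fintype P] (C : P → Finset Q)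
    (R : P → Q → P → Q → Prop) (q₀ : Q) (S : Finset P) (f : P → Q) :
    f ∈ TransN C R q₀ S ↔ (∀ p ∈ S, f p ∈ C p) ∧ (∀ p, p ∉ S → f p = q₀) ∧
      ∀ p ∈ S, ∀ p' ∈ S, p ≠ p' → ¬ R p (f p) p' (f p') := by
  unfold TransN
  rw [mem_filter, Fintype.mem_piFinset]
  constructor
  · rintro ⟨h1, h2⟩
    refine ⟨fun p hp => ?_, fun p hp => ?_, h2⟩
    · have := h1 p
      rwa [if_pos hp] at this
    · have := h1 p
      rwa [if_neg hp, mem_singleton] at this
  · rintro ⟨h1, h2, h3⟩
    refine ⟨fun p => ?_, h3⟩
    by_cases hp : p ∈ S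
    · rw [if_pos hp]; exact h1 p hp
    · rw [if_neg hp, mem_singleton]; exact h2 p hp

private theorem TransN_fiber {P Q : Type} [Fintype P] (C : P → Finset Q)
    (R : P → Q → P → Q → Prop) (q₀ : Q) (S : Finset P) {w : P} (y : Q) :
    ((TransN C R q₀ S).filter fun f => f w = y).card ≤ (TransN C R q₀ (S.erase w)).card := by
  refine Finset.card_le_card_of_injOn (fun f => Function.update f w q₀) ?_ ?_
  · intro f hf
    rw [Finset.mem_coe, mem_filter, TransN_mem] at hf
    obtain ⟨⟨h1, h2, h3⟩, h4⟩ := hf
    rw [Finset.mem_coe, TransN_mem]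
    refine ⟨fun p hp => ?_, fun p hp => ?_, fun p hp p' hp' hne => ?_⟩
    · obtain ⟨hpw, hpS⟩ := mem_erase.1 hp
      show Function.update f w q₀ p ∈ C p
      rw [Function.update_of_ne hpw]
      exact h1 p hpS
    · show Function.update f w q₀ p = q₀
      by_cases hpw : p = w
      · rw [hpw, Function.update_self]
      · rw [Function.update_of_ne hpw]
        exact h2 p fun hpS => hp (mem_erase.2 ⟨hpw, hpS⟩)
    · obtain ⟨hpw, hpS⟩ := mem_erase.1 hp
      obtain ⟨hpw', hpS'⟩ := mem_erase.1 hp'
      show ¬ R p (Function.update f w q₀ p) p' (Function.update f w q₀ p')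
      rw [Function.update_of_ne hpw, Function.update_of_ne hpw']
      exact h3 p hpS p' hpS' hne
  · intro f hf g hg hfg
    rw [Finset.mem_coe, mem_filter] at hf hg
    have hfg' : Function.update f w q₀ = Function.update g w q₀ := hfg
    funext p
    by_cases hpw : p = w
    · rw [hpw, hf.2, hg.2]
    · have := congrFun hfg' p
      rwa [Function.update_of_ne hpw, Function.update_of_ne hpw] at this

private theorem TransN_step {P Q : Type} [Fintype P] (C : P → Finset Q)
    (R : P → Q → P → Q → Prop) (hR : ∀ p q p' q', R p q p' q' → R p' q' p q) (D Δ : ℕ)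
    (hD : 4 * Δ ≤ D) (hD0 : 0 < D) (hC : ∀ p, D ≤ (C p).card)
    (hdeg : ∀ p, ∀ q ∈ C p, ∑ p' ∈ univ.erase p, ((C p').filter fun q' => R p q p' q').card ≤ Δ)
    (q₀ : Q) : ∀ (S : Finset P) (v : P), v ∉ S →
      D * (TransN C R q₀ S).card ≤ 2 * (TransN C R q₀ (insert v S)).card := by
  intro S
  induction S using Finset.strongInduction with
  | H S ih =>
    intro v hv
    set A : Finset ((P → Q) × Q) := (TransN C R q₀ S) ×ˢ (C v) with hA
    set G : Finset ((P → Q) × Q) := A.filter fun z => ∀ w ∈ S, ¬ R v z.2 w (z.1 w) with hG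
    set B : Finset ((P → Q) × Q) := A.filter fun z => ¬ ∀ w ∈ S, ¬ R v z.2 w (z.1 w) with hB
    have hAc : A.card = (TransN C R q₀ S).card * (C v).card := Finset.card_product _ _
    have hGB : G.card + B.card = A.card := Finset.card_filter_add_card_filter_not _
    -- good pairs
    have hGc : G.card ≤ (TransN C R q₀ (insert v S)).card := by
      refine Finset.card_le_card_of_injOn (fun z => Function.update z.1 v z.2) ?_ ?_
      · intro z hz
        rw [Finset.mem_coe, hG, mem_filter, hA, mem_product, TransN_mem] at hz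
        obtain ⟨⟨⟨h1, h2, h3⟩, h4⟩, h5⟩ := hz
        rw [Finset.mem_coe, TransN_mem]
        have hself : Function.update z.1 v z.2 v = z.2 := Function.update_self _ _ _
        have hne' : ∀ p, p ∈ S → Function.update z.1 v z.2 p = z.1 p := fun p hp =>
          Function.update_of_ne (fun e => hv (by rw [← e]; exact hp)) _ _
        refine ⟨fun p hp => ?_, fun p hp => ?_, fun p hp p' hp' hne => ?_⟩
        · show Function.update z.1 v z.2 p ∈ C p
          rcases mem_insert.1 hp with e | hp
          · rw [e, hself]; exact h4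
          · rw [hne' p hp]; exact h1 p hp
        · show Function.update z.1 v z.2 p = q₀
          have hpv : p ≠ v := fun e => hp (e ▸ mem_insert_self _ _)
          rw [Function.update_of_ne hpv]
          exact h2 p fun hpS => hp (mem_insert_of_mem hpS)
        · show ¬ R p (Function.update z.1 v z.2 p) p' (Function.update z.1 v z.2 p')
          rcases mem_insert.1 hp with e | hp
          · rcases mem_insert.1 hp' with e' | hp'
            · exact absurd (e.trans e'.symm) hne
            · rw [e, hself, hne' p' hp']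
              exact h5 p' hp'
          · rcases mem_insert.1 hp' with e' | hp'
            · rw [e', hself, hne' p hp]
              exact fun hh => h5 p hp (hR _ _ _ _ hh)
            · rw [hne' p hp, hne' p' hp']
              exact h3 p hp p' hp' hne
      · intro z hz z' hz' he
        rw [Finset.mem_coe, hG, mem_filter, hA, mem_product, TransN_mem] at hz hz'
        have he' : Function.update z.1 v z.2 = Function.update z'.1 v z'.2 := he
        refine Prod.ext ?_ ?_
        · funext p
          by_cases hpv : p = v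
          · rw [hpv, hz.1.1.2.1 v hv, hz'.1.1.2.1 v hv]
          · have := congrFun he' p
            rwa [Function.update_of_ne hpv, Function.update_of_ne hpv] at this
        · have := congrFun he' v
          rwa [Function.update_self, Function.update_self] at this
    -- bad pairs
    have hBc : D * B.card ≤ (C v).card * (Δ * (2 * (TransN C R q₀ S).card)) := by
      have hsub : B ⊆ (C v).biUnion fun x => S.biUnion fun w =>
          ((C w).filter fun y => R v x w y).biUnion fun y =>
            ((TransN C R q₀ S).filter fun f => f w = y).image fun f => (f, x) := by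
        intro z hz
        rw [hB, mem_filter, hA, mem_product] at hz
        obtain ⟨⟨h1, h2⟩, h3⟩ := hz
        push Not at h3
        obtain ⟨w, hw, hw'⟩ := h3
        refine mem_biUnion.2 ⟨z.2, h2, mem_biUnion.2 ⟨w, hw, mem_biUnion.2 ⟨z.1 w, ?_, ?_⟩⟩⟩
        · exact mem_filter.2 ⟨((TransN_mem _ _ _ _ _).1 h1).1 w hw, hw'⟩
        · exact mem_image.2 ⟨z.1, mem_filter.2 ⟨h1, rfl⟩, rfl⟩
      have h1 : B.card ≤ ∑ x ∈ C v, ∑ w ∈ S, ∑ y ∈ (C w).filter fun y => R v x w y,
          ((TransN C R q₀ S).filter fun f => f w = y).card := by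
        refine (card_le_card hsub).trans (card_biUnion_le.trans (sum_le_sum fun x _ => ?_))
        refine card_biUnion_le.trans (sum_le_sum fun w _ => ?_)
        exact card_biUnion_le.trans (sum_le_sum fun y _ => card_image_le)
      calc D * B.card ≤ D * ∑ x ∈ C v, ∑ w ∈ S, ∑ y ∈ (C w).filter fun y => R v x w y,
          ((TransN C R q₀ S).filter fun f => f w = y).card := Nat.mul_le_mul_left _ h1
        _ = ∑ x ∈ C v, ∑ w ∈ S, ∑ y ∈ (C w).filter fun y => R v x w y,
          D * ((TransN C R q₀ S).filter fun f => f w = y).card := by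
            simp only [mul_sum]
        _ ≤ ∑ x ∈ C v, ∑ w ∈ S, ∑ y ∈ (C w).filter fun y => R v x w y,
          2 * (TransN C R q₀ S).card := by
            refine sum_le_sum fun x _ => sum_le_sum fun w hw => sum_le_sum fun y _ => ?_
            have h2 := ih (S.erase w) (erase_ssubset hw) w (notMem_erase w S)
            rw [insert_erase hw] at h2
            exact (Nat.mul_le_mul_left _ (TransN_fiber C R q₀ S y)).trans h2
        _ = ∑ x ∈ C v, (∑ w ∈ S, ((C w).filter fun y => R v x w y).card) *
          (2 * (TransN C R q₀ S).card) := by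
            refine sum_congr rfl fun x _ => ?_
            rw [sum_mul]
            refine sum_congr rfl fun w _ => ?_
            rw [sum_const, smul_eq_mul]
        _ ≤ ∑ x ∈ C v, Δ * (2 * (TransN C R q₀ S).card) := by
            refine sum_le_sum fun x hx => Nat.mul_le_mul_right _ ?_
            refine le_trans ?_ (hdeg v x hx)
            refine sum_le_sum_of_subset fun w hw => mem_erase.2 ⟨fun e => hv (e ▸ hw), mem_univ _⟩
        _ = (C v).card * (Δ * (2 * (TransN C R q₀ S).card)) := by
            rw [sum_const, smul_eq_mul]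
    have h5 : D * (2 * B.card) ≤ D * A.card := by
      calc D * (2 * B.card) = 2 * (D * B.card) := by ring
        _ ≤ 2 * ((C v).card * (Δ * (2 * (TransN C R q₀ S).card))) := Nat.mul_le_mul_left _ hBc
        _ = (4 * Δ) * ((TransN C R q₀ S).card * (C v).card) := by ring
        _ ≤ D * ((TransN C R q₀ S).card * (C v).card) := Nat.mul_le_mul_right _ hD
        _ = D * A.card := by rw [hAc]
    have h6 : 2 * B.card ≤ A.card := Nat.le_of_mul_le_mul_left h5 hD0
    have h7 : D * (TransN C R q₀ S).card ≤ A.card := by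
      rw [hAc, mul_comm]
      exact Nat.mul_le_mul_left _ (hC v)
    omega

private theorem exists_transversal_fin {P Q : Type} [Fintype P] [Nonempty Q] (C : P → Finset Q)
    (R : P → Q → P → Q → Prop) (hR : ∀ p q p' q', R p q p' q' → R p' q' p q) (D Δ : ℕ)
    (hD : 4 * Δ ≤ D) (hD0 : 0 < D) (hC : ∀ p, D ≤ (C p).card)
    (hdeg : ∀ p, ∀ q ∈ C p, ∑ p' ∈ univ.erase p, ((C p').filter fun q' => R p q p' q').card ≤ Δ) :
    ∃ f : P → Q, (∀ p, f p ∈ C p) ∧ ∀ p p', p ≠ p' → ¬ R p (f p) p' (f p') := by
  obtain ⟨q₀⟩ := (inferInstance : Nonempty Q)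
  have hne : ∀ S : Finset P, 0 < (TransN C R q₀ S).card := by
    intro S
    induction S using Finset.induction_on with
    | empty =>
      refine card_pos.2 ⟨fun _ => q₀, ?_⟩
      rw [TransN_mem]
      simp
    | insert v S hv ih =>
      have h1 := TransN_step C R hR D Δ hD hD0 hC hdeg q₀ S v hv
      have h2 := Nat.mul_pos hD0 ih
      omega
  obtain ⟨f, hf⟩ := card_pos.1 (hne univ)
  rw [TransN_mem] at hf
  exact ⟨f, fun p => hf.1 p (mem_univ _), fun p p' h => hf.2.2 p (mem_univ _) p' (mem_univ _) h⟩

/-- Classes `C p` (`p ∈ V`) with at least `D` elements, a symmetric relation `R` between the elements `(p, q)`, `q ∈ C p`, such that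
every `(p, q)` is related to at most `Δ ≤ D/4` elements of other classes: then one can choose one element in each class, pairwise
unrelated.
Proof (Rosenfeld, Wanless-Wood). For `S ⊆ V` let `N(S)` be the number of functions `f : P → Q` with `f p ∈ C p` for `p ∈ S`,
`f p = q₀` (a fixed element) for `p ∉ S` and no related pair in `S` (finite: `Fintype.piFinset` of `if p ∈ S then C p else {q₀}` on a
finite type, e.g. work with the subtype `V`, or `Finset.pi`). Claim: `2 N(S ∪ {v}) ≥ D N(S)` for all `v ∉ S`, by induction on `|S|`: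
`N(S ∪ {v}) ≥ |C v| N(S) - ∑_{x ∈ C v} ∑_{w ∈ S} ∑_{y ∈ C w, R v x w y} #{f counted in N(S), f w = y}` and
`#{f counted in N(S), f w = y} ≤ N(S \ {w}) ≤ (2/D) N(S)`, so `N(S ∪ {v}) ≥ |C v| (1 - 2Δ/D) N(S) ≥ (D/2) N(S)`. Hence `N(V) > 0`. -/
theorem exists_transversal {P Q : Type} [Nonempty Q] (V : Finset P) (C : P → Finset Q)
    (R : P → Q → P → Q → Prop) (hR : ∀ p q p' q', R p q p' q' → R p' q' p q) (D Δ : ℕ) (hD : 4 * Δ ≤ D)
    (hD0 : 0 < D) (hC : ∀ p ∈ V, D ≤ (C p).card)
    (hdeg : ∀ p ∈ V, ∀ q ∈ C p, ∑ p' ∈ V.erase p, ((C p').filter fun q' => R p q p' q').card ≤ Δ) :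
    ∃ f : P → Q, (∀ p ∈ V, f p ∈ C p) ∧ ∀ p ∈ V, ∀ p' ∈ V, p ≠ p' → ¬ R p (f p) p' (f p') := by
  obtain ⟨f, hf1, hf2⟩ := exists_transversal_fin (P := {p // p ∈ V}) (fun p => C p)
    (fun p q p' q' => R p q p' q') (fun p q p' q' h => hR _ _ _ _ h) D Δ hD hD0
    (fun p => hC p p.2) (by
      intro p q hq
      refine le_trans (le_of_eq ?_) (hdeg p p.2 q hq)
      rw [show (V.erase (p : P)) = (univ.erase p : Finset {p // p ∈ V}).map
          (Function.Embedding.subtype _) from ?_]
      · rw [sum_map]
        refine sum_congr ?_ fun x _ => rfl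
        ext x
        simp only [mem_erase, mem_univ, and_true]
      · ext x
        simp only [mem_erase, mem_map, mem_univ, and_true, Function.Embedding.coe_subtype,
          Subtype.exists, exists_and_right, exists_eq_right]
        constructor
        · rintro ⟨h1, h2⟩
          exact ⟨h2, fun e => h1 (congrArg Subtype.val e)⟩
        · rintro ⟨h1, h2⟩
          exact ⟨fun e => h2 (Subtype.ext e), h1⟩)
  obtain ⟨q₀⟩ := (inferInstance : Nonempty Q)
  refine ⟨fun p => if hp : p ∈ V then f ⟨p, hp⟩ else q₀, fun p hp => ?_, fun p hp p' hp' hne => ?_⟩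
  · simp only [dif_pos hp]
    exact hf1 ⟨p, hp⟩
  · simp only [dif_pos hp, dif_pos hp']
    exact hf2 ⟨p, hp⟩ ⟨p', hp'⟩ fun e => hne (congrArg Subtype.val e)

end Pool.Agent.Lib.MP_ce3cb6_co.LB
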