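import Pool.Agent.Lib.MP_ce3cb6_co.LB.Latin
import Pool.Agent.Lib.MP_ce3cb6_co.LB.Trans

/-!
# MP_ce3cb6_co, line version: the deterministic repair lemma
-/

set_option autoImplicit false

namespace Pool.Agent.Lib.MP_ce3cb6_co.LB

open Finset

variable {I : Type} [Fintype I] [DecidableEq I]

/-- the set of conflict cells -/
def Cf (M : I → I → I) (A : I → I → Option I) : Finset (I × I) := univ.filter fun p : I × I => A p.1 p.2 = some (M p.1 p.2)

/-- the partners of the cell `p` whose three other cells are not conflict cells -/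
def Pa (M : I → I → I) (A : I → I → Option I) (p : I × I) : Finset (I × I) := univ.filter fun q : I × I =>
  (q.1 ≠ p.1 ∧ M q.1 q.2 = M p.1 p.2 ∧ M p.1 q.2 = M q.1 p.2 ∧ A p.1 q.2 ≠ some (M p.1 p.2) ∧ A q.1 p.2 ≠ some (M p.1 p.2) ∧
    A q.1 q.2 ≠ some (M p.1 q.2)) ∧ (p.1, q.2) ∉ Cf M A ∧ (q.1, p.2) ∉ Cf M A ∧ q ∉ Cf M A

/-- the three other cells of the block of `(p, q)` -/
def tri (p q : I × I) : Finset (I × I) := {(p.1, q.2), (q.1, p.2), q}

private theorem Fix_row {M : I → I → I} (A : I → I → Option I) (K : ℕ)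
    (hrow : ∀ i, (univ.filter fun j => A i j = some (M i j)).card ≤ K) (i : I) :
    ((Cf M A).filter fun p => p.1 = i).card ≤ K := by
  refine le_trans ?_ (hrow i)
  refine Finset.card_le_card_of_injOn (fun p => p.2) ?_ ?_
  · intro p hp
    rw [Finset.mem_coe, Finset.mem_filter, Cf, Finset.mem_filter] at hp
    rw [Finset.mem_coe, Finset.mem_filter]
    refine ⟨Finset.mem_univ _, ?_⟩
    have h1 := hp.1.2
    rw [hp.2] at h1
    exact h1
  · intro p hp q hq h
    rw [Finset.mem_coe, Finset.mem_filter] at hp hq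
    exact Prod.ext (hp.2.trans hq.2.symm) h

private theorem Fix_col {M : I → I → I} (A : I → I → Option I) (K : ℕ)
    (hcol : ∀ j, (univ.filter fun i => A i j = some (M i j)).card ≤ K) (j : I) :
    ((Cf M A).filter fun p => p.2 = j).card ≤ K := by
  refine le_trans ?_ (hcol j)
  refine Finset.card_le_card_of_injOn (fun p => p.1) ?_ ?_
  · intro p hp
    rw [Finset.mem_coe, Finset.mem_filter, Cf, Finset.mem_filter] at hp
    rw [Finset.mem_coe, Finset.mem_filter]
    refine ⟨Finset.mem_univ _, ?_⟩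
    have h1 := hp.1.2
    rw [hp.2] at h1
    exact h1
  · intro p hp q hq h
    rw [Finset.mem_coe, Finset.mem_filter] at hp hq
    exact Prod.ext h (hp.2.trans hq.2.symm)

private theorem Fix_sym {M : I → I → I} (A : I → I → Option I) (K : ℕ)
    (hsym : ∀ a, (univ.filter fun p : I × I => A p.1 p.2 = some a ∧ M p.1 p.2 = a).card ≤ K) (a : I) :
    ((Cf M A).filter fun p => M p.1 p.2 = a).card ≤ K := by
  refine le_trans (Finset.card_le_card ?_) (hsym a)
  intro p hp
  rw [Finset.mem_filter, Cf, Finset.mem_filter] at hp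
  rw [Finset.mem_filter]
  refine ⟨Finset.mem_univ _, ?_, hp.2⟩
  rw [hp.1.2, hp.2]

/-- For a Latin square and fixed `p` and `x` there is at most one `q` with `M q = M p`, `x = (p.1, q.2)` (then `x` is in the row of
`p`), at most one with `x = (q.1, p.2)` (`x` in the column of `p`) and at most one with `x = q` (`M x = M p`). So every cell `x` is in
`tri p q` for at most `3K` pairs with `p` a conflict cell, `q ∈ Pa p`. -/
theorem card_tri_le {M : I → I → I} (hM : Latin M) (A : I → I → Option I) (K : ℕ)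
    (hrow : ∀ i, (univ.filter fun j => A i j = some (M i j)).card ≤ K)
    (hcol : ∀ j, (univ.filter fun i => A i j = some (M i j)).card ≤ K)
    (hsym : ∀ a, (univ.filter fun p : I × I => A p.1 p.2 = some a ∧ M p.1 p.2 = a).card ≤ K) (x : I × I) :
    ∑ p ∈ Cf M A, ((Pa M A p).filter fun q => x ∈ tri p q).card ≤ 3 * K := by
  have hpt : ∀ p ∈ Cf M A, ((Pa M A p).filter fun q => x ∈ tri p q).card ≤
      (if p.1 = x.1 then 1 else 0) + (if p.2 = x.2 then 1 else 0) +
        (if M p.1 p.2 = M x.1 x.2 then 1 else 0) := by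
    intro p _
    have hsub : ((Pa M A p).filter fun q => x ∈ tri p q) ⊆
        (((Pa M A p).filter fun q => x = (p.1, q.2)) ∪ ((Pa M A p).filter fun q => x = (q.1, p.2))) ∪
          ((Pa M A p).filter fun q => x = q) := by
      intro q hq
      rw [Finset.mem_filter] at hq
      obtain ⟨hq1, hq2⟩ := hq
      unfold tri at hq2
      rw [Finset.mem_insert, Finset.mem_insert, Finset.mem_singleton] at hq2
      rw [Finset.mem_union, Finset.mem_union, Finset.mem_filter, Finset.mem_filter,
        Finset.mem_filter]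
      rcases hq2 with h | h | h
      · exact Or.inl (Or.inl ⟨hq1, h⟩)
      · exact Or.inl (Or.inr ⟨hq1, h⟩)
      · exact Or.inr ⟨hq1, h⟩
    refine (Finset.card_le_card hsub).trans ?_
    refine (Finset.card_union_le _ _).trans ?_
    refine add_le_add ((Finset.card_union_le _ _).trans (add_le_add ?_ ?_)) ?_
    · split_ifs with h
      · rw [Finset.card_le_one]
        intro q hq q' hq'
        rw [Finset.mem_filter, Pa, Finset.mem_filter] at hq hq'
        have e2 : q.2 = q'.2 := by
          have := hq.2.symm.trans hq'.2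
          exact (Prod.mk.inj this).2
        have e1 : M q.1 q.2 = M q'.1 q.2 := by
          rw [hq.1.2.1.2.1, e2, hq'.1.2.1.2.1]
        exact Prod.ext (hM.2 q.2 e1) e2
      · rw [Nat.le_zero, Finset.card_eq_zero, Finset.filter_eq_empty_iff]
        intro q _ hx
        exact h (by rw [hx])
    · split_ifs with h
      · rw [Finset.card_le_one]
        intro q hq q' hq'
        rw [Finset.mem_filter, Pa, Finset.mem_filter] at hq hq'
        have e2 : q.1 = q'.1 := by
          have := hq.2.symm.trans hq'.2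
          exact (Prod.mk.inj this).1
        have e1 : M q.1 q.2 = M q.1 q'.2 := by
          rw [hq.1.2.1.2.1, e2, hq'.1.2.1.2.1]
        exact Prod.ext e2 (hM.1 q.1 e1)
      · rw [Nat.le_zero, Finset.card_eq_zero, Finset.filter_eq_empty_iff]
        intro q _ hx
        exact h (by rw [hx])
    · split_ifs with h
      · rw [Finset.card_le_one]
        intro q hq q' hq'
        rw [Finset.mem_filter] at hq hq'
        exact hq.2.symm.trans hq'.2
      · rw [Nat.le_zero, Finset.card_eq_zero, Finset.filter_eq_empty_iff]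
        intro q hq hx
        rw [Pa, Finset.mem_filter] at hq
        apply h
        rw [hx]
        exact hq.2.1.2.1.symm
  refine (Finset.sum_le_sum hpt).trans ?_
  rw [Finset.sum_add_distrib, Finset.sum_add_distrib, ← Finset.card_filter, ← Finset.card_filter,
    ← Finset.card_filter]
  have h1 := Fix_row A K hrow x.1
  have h2 := Fix_col A K hcol x.2
  have h3 := Fix_sym A K hsym (M x.1 x.2)
  omega

/-- At most `3K` of the partners are lost by the last three conditions. -/
theorem card_Pa_ge {M : I → I → I} (hM : Latin M) (A : I → I → Option I) (K : ℕ)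
    (hrow : ∀ i, (univ.filter fun j => A i j = some (M i j)).card ≤ K)
    (hcol : ∀ j, (univ.filter fun i => A i j = some (M i j)).card ≤ K)
    (hsym : ∀ a, (univ.filter fun p : I × I => A p.1 p.2 = some a ∧ M p.1 p.2 = a).card ≤ K) (p : I × I)
    (h : 39 * K ≤ (univ.filter fun q : I × I => q.1 ≠ p.1 ∧ M q.1 q.2 = M p.1 p.2 ∧ M p.1 q.2 = M q.1 p.2 ∧
      A p.1 q.2 ≠ some (M p.1 p.2) ∧ A q.1 p.2 ≠ some (M p.1 p.2) ∧ A q.1 q.2 ≠ some (M p.1 q.2)).card) :
    36 * K ≤ (Pa M A p).card := by
  set S := univ.filter fun q : I × I => q.1 ≠ p.1 ∧ M q.1 q.2 = M p.1 p.2 ∧ M p.1 q.2 = M q.1 p.2 ∧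
      A p.1 q.2 ≠ some (M p.1 p.2) ∧ A q.1 p.2 ≠ some (M p.1 p.2) ∧ A q.1 q.2 ≠ some (M p.1 q.2) with hS
  have hmemS : ∀ q, q ∈ S ↔ (q.1 ≠ p.1 ∧ M q.1 q.2 = M p.1 p.2 ∧ M p.1 q.2 = M q.1 p.2 ∧
      A p.1 q.2 ≠ some (M p.1 p.2) ∧ A q.1 p.2 ≠ some (M p.1 p.2) ∧ A q.1 q.2 ≠ some (M p.1 q.2)) := by
    intro q
    rw [hS, Finset.mem_filter]
    exact ⟨fun h => h.2, fun h => ⟨Finset.mem_univ _, h⟩⟩
  have hmemC : ∀ q, q ∈ Cf M A ↔ A q.1 q.2 = some (M q.1 q.2) := by
    intro q
    rw [Cf, Finset.mem_filter]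
    exact ⟨fun h => h.2, fun h => ⟨Finset.mem_univ _, h⟩⟩
  clear_value S
  have hsub : S ⊆ ((Pa M A p ∪ (S.filter fun q => (p.1, q.2) ∈ Cf M A)) ∪
      (S.filter fun q => (q.1, p.2) ∈ Cf M A)) ∪ (S.filter fun q => q ∈ Cf M A) := by
    intro q hq
    rw [Finset.mem_union, Finset.mem_union, Finset.mem_union]
    by_cases h1 : (p.1, q.2) ∈ Cf M A
    · exact Or.inl (Or.inl (Or.inr (Finset.mem_filter.2 ⟨hq, h1⟩)))
    by_cases h2 : (q.1, p.2) ∈ Cf M A
    · exact Or.inl (Or.inr (Finset.mem_filter.2 ⟨hq, h2⟩))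
    by_cases h3 : q ∈ Cf M A
    · exact Or.inr (Finset.mem_filter.2 ⟨hq, h3⟩)
    refine Or.inl (Or.inl (Or.inl ?_))
    rw [Pa, Finset.mem_filter]
    exact ⟨Finset.mem_univ _, (hmemS q).1 hq, h1, h2, h3⟩
  have hc := Finset.card_le_card hsub
  have hu1 := Finset.card_union_le ((Pa M A p ∪ (S.filter fun q => (p.1, q.2) ∈ Cf M A)) ∪
      (S.filter fun q => (q.1, p.2) ∈ Cf M A)) (S.filter fun q => q ∈ Cf M A)
  have hu2 := Finset.card_union_le (Pa M A p ∪ (S.filter fun q => (p.1, q.2) ∈ Cf M A))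
      (S.filter fun q => (q.1, p.2) ∈ Cf M A)
  have hu3 := Finset.card_union_le (Pa M A p) (S.filter fun q => (p.1, q.2) ∈ Cf M A)
  have h1 : (S.filter fun q => (p.1, q.2) ∈ Cf M A).card ≤ K := by
    refine le_trans ?_ (hrow p.1)
    refine Finset.card_le_card_of_injOn (fun q => q.2) ?_ ?_
    · intro q hq
      rw [Finset.mem_coe, Finset.mem_filter, hmemC] at hq
      rw [Finset.mem_coe, Finset.mem_filter]
      exact ⟨Finset.mem_univ _, hq.2⟩
    · intro q hq q' hq' e2
      rw [Finset.mem_coe, Finset.mem_filter, hmemS] at hq hq'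
      have e1 : M q.1 q.2 = M q'.1 q.2 := by
        rw [hq.1.2.1]
        simp only at e2
        rw [e2, hq'.1.2.1]
      exact Prod.ext (hM.2 q.2 e1) e2
  have h2 : (S.filter fun q => (q.1, p.2) ∈ Cf M A).card ≤ K := by
    refine le_trans ?_ (hcol p.2)
    refine Finset.card_le_card_of_injOn (fun q => q.1) ?_ ?_
    · intro q hq
      rw [Finset.mem_coe, Finset.mem_filter, hmemC] at hq
      rw [Finset.mem_coe, Finset.mem_filter]
      exact ⟨Finset.mem_univ _, hq.2⟩
    · intro q hq q' hq' e2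
      rw [Finset.mem_coe, Finset.mem_filter, hmemS] at hq hq'
      have e1 : M q.1 q.2 = M q.1 q'.2 := by
        rw [hq.1.2.1]
        simp only at e2
        rw [e2, hq'.1.2.1]
      exact Prod.ext e2 (hM.1 q.1 e1)
  have h3 : (S.filter fun q => q ∈ Cf M A).card ≤ K := by
    refine le_trans (Finset.card_le_card ?_) (Fix_sym A K hsym (M p.1 p.2))
    intro q hq
    rw [Finset.mem_filter, hmemS] at hq
    rw [Finset.mem_filter]
    exact ⟨hq.2, hq.1.2.1⟩
  omega

private theorem Fix_deg {M : I → I → I} (hM : Latin M) (A : I → I → Option I) (K : ℕ)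
    (hrow : ∀ i, (univ.filter fun j => A i j = some (M i j)).card ≤ K)
    (hcol : ∀ j, (univ.filter fun i => A i j = some (M i j)).card ≤ K)
    (hsym : ∀ a, (univ.filter fun p : I × I => A p.1 p.2 = some a ∧ M p.1 p.2 = a).card ≤ K)
    (p q : I × I) (s : Finset (I × I)) (hs : s ⊆ Cf M A) (T : I × I → Finset (I × I))
    (hT : ∀ p', ∀ q' ∈ T p', q' ∈ Pa M A p' ∧ ¬ Disjoint (tri p q) (tri p' q')) :
    ∑ p' ∈ s, (T p').card ≤ 9 * K := by
  have h1 : ∀ p' ∈ s, (T p').card ≤
      ∑ x ∈ tri p q, ((Pa M A p').filter fun q' => x ∈ tri p' q').card := by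
    intro p' _
    refine le_trans (Finset.card_le_card (t := (tri p q).biUnion
      fun x => (Pa M A p').filter fun q' => x ∈ tri p' q') ?_) Finset.card_biUnion_le
    intro q' hq'
    have h := hT p' q' hq'
    rw [Finset.not_disjoint_iff] at h
    obtain ⟨hq1, x, hx1, hx2⟩ := h
    rw [Finset.mem_biUnion]
    exact ⟨x, hx1, Finset.mem_filter.2 ⟨hq1, hx2⟩⟩
  refine (Finset.sum_le_sum h1).trans ?_
  rw [Finset.sum_comm]
  have h2 : ∀ x ∈ tri p q, ∑ p' ∈ s,
      ((Pa M A p').filter fun q' => x ∈ tri p' q').card ≤ 3 * K := by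
    intro x _
    refine le_trans ?_ (card_tri_le hM A K hrow hcol hsym x)
    exact Finset.sum_le_sum_of_subset hs
  refine (Finset.sum_le_card_nsmul _ _ _ h2).trans ?_
  have h3 : (tri p q).card ≤ 3 := Finset.card_le_three
  rw [smul_eq_mul]
  calc (tri p q).card * (3 * K) ≤ 3 * (3 * K) := Nat.mul_le_mul_right _ h3
    _ = 9 * K := by ring

/-- **Repair lemma.** Few conflicts in every row, column and symbol, and every conflict cell has many partners: then some Latin square
avoids `A`. Proof: if `K = 0` there is no conflict, `L = M`. Otherwise `exists_transversal` with `V = Cf M A`, `C p = Pa M A p`,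
`R p q p' q' := ¬ Disjoint (tri p q) (tri p' q')`, `D = 36K`, `Δ = 9K` (`card_tri_le` summed over the three cells of `tri p q`),
then `exists_switched`; the blocks are disjoint because the cells of `tri` are not conflict cells. Check the cells: in a block by the
conditions in `Pa` (and `A p = some (M p) ≠ some (M p.1 (f p).2)`), outside the blocks no cell is a conflict cell. -/
theorem repair {M : I → I → I} (hM : Latin M) (A : I → I → Option I) (K : ℕ)
    (hrow : ∀ i, (univ.filter fun j => A i j = some (M i j)).card ≤ K)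
    (hcol : ∀ j, (univ.filter fun i => A i j = some (M i j)).card ≤ K)
    (hsym : ∀ a, (univ.filter fun p : I × I => A p.1 p.2 = some a ∧ M p.1 p.2 = a).card ≤ K)
    (hpart : ∀ i j, A i j = some (M i j) → 39 * K ≤ (univ.filter fun q : I × I => q.1 ≠ i ∧ M q.1 q.2 = M i j ∧
      M i q.2 = M q.1 j ∧ A i q.2 ≠ some (M i j) ∧ A q.1 j ≠ some (M i j) ∧ A q.1 q.2 ≠ some (M i q.2)).card) :
    ∃ L : I → I → I, Latin L ∧ ∀ i j, A i j ≠ some (L i j) := by
  rcases Nat.eq_zero_or_pos K with hK | hK
  · refine ⟨M, hM, ?_⟩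
    intro i j hij
    have h1 := hrow i
    rw [hK, Nat.le_zero, Finset.card_eq_zero, Finset.filter_eq_empty_iff] at h1
    exact h1 (Finset.mem_univ j) hij
  rcases isEmpty_or_nonempty I with hI | hI
  · exact ⟨M, hM, fun i => isEmptyElim i⟩
  have hne : Nonempty (I × I) := inferInstance
  obtain ⟨f, hf1, hf2⟩ := exists_transversal (P := I × I) (Q := I × I) (Cf M A) (Pa M A)
    (fun p q p' q' => ¬ Disjoint (tri p q) (tri p' q'))
    (fun p q p' q' h => fun h' => h h'.symm) (36 * K) (9 * K) (by omega) (by omega)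
    (by
      intro p hp
      refine card_Pa_ge hM A K hrow hcol hsym p (hpart p.1 p.2 ?_)
      rw [Cf, Finset.mem_filter] at hp
      exact hp.2)
    (by
      intro p hp q hq
      refine Fix_deg hM A K hrow hcol hsym p q _ ?_ _ ?_
      · intro x hx
        simp only [Finset.mem_erase] at hx
        exact hx.2
      · intro p' q' hq'
        simp only [Finset.mem_filter] at hq'
        exact hq')
  have hfp : ∀ p ∈ Cf M A, ((f p).1 ≠ p.1 ∧ M (f p).1 (f p).2 = M p.1 p.2 ∧
      M p.1 (f p).2 = M (f p).1 p.2 ∧ A p.1 (f p).2 ≠ some (M p.1 p.2) ∧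
      A (f p).1 p.2 ≠ some (M p.1 p.2) ∧ A (f p).1 (f p).2 ≠ some (M p.1 (f p).2)) ∧
      (p.1, (f p).2) ∉ Cf M A ∧ ((f p).1, p.2) ∉ Cf M A ∧ f p ∉ Cf M A := by
    intro p hp
    have h := hf1 p hp
    rw [Pa, Finset.mem_filter] at h
    exact h.2
  have htri : ∀ p ∈ Cf M A, ∀ x ∈ tri p (f p), x ∉ Cf M A := by
    intro p hp x hx
    unfold tri at hx
    rw [Finset.mem_insert, Finset.mem_insert, Finset.mem_singleton] at hx
    have h := (hfp p hp).2
    rcases hx with rfl | rfl | rfl
    · exact h.1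
    · exact h.2.1
    · exact h.2.2
  have hins : ∀ p : I × I, ({p, (p.1, (f p).2), ((f p).1, p.2), f p} : Finset (I × I)) =
      insert p (tri p (f p)) := fun p => rfl
  obtain ⟨L, hL, hL1, hL2⟩ := exists_switched hM (Cf M A) f
    (fun p hp => ⟨(hfp p hp).1.1, (hfp p hp).1.2.1, (hfp p hp).1.2.2.1⟩)
    (by
      intro p hp p' hp' hne
      rw [hins, hins, Finset.disjoint_insert_left, Finset.disjoint_insert_right, Finset.mem_insert]
      refine ⟨?_, ?_, ?_⟩
      · rintro (h | h)
        · exact hne h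
        · exact htri p' hp' p h hp
      · intro h
        exact htri p hp p' h hp'
      · by_contra h
        exact hf2 p hp p' hp' hne h)
  refine ⟨L, hL, ?_⟩
  intro i j hij
  by_cases hx : ∀ p ∈ Cf M A, (i, j) ∉ ({p, (p.1, (f p).2), ((f p).1, p.2), f p} : Finset (I × I))
  · have h1 := hL1 (i, j) hx
    simp only at h1
    rw [h1] at hij
    have h2 : (i, j) ∈ Cf M A := by
      rw [Cf, Finset.mem_filter]
      exact ⟨Finset.mem_univ _, hij⟩
    exact hx (i, j) h2 (Finset.mem_insert_self _ _)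
  · push Not at hx
    obtain ⟨p, hp, hx⟩ := hx
    obtain ⟨h1, h2, h3, h4⟩ := hL2 p hp
    obtain ⟨g1, g2, g3, g4, g5, g6⟩ := (hfp p hp).1
    rw [Finset.mem_insert, Finset.mem_insert, Finset.mem_insert, Finset.mem_singleton] at hx
    rcases hx with hx | hx | hx | hx
    · have e1 : p.1 = i := by rw [← hx]
      have e2 : p.2 = j := by rw [← hx]
      rw [e1, e2] at h1
      rw [h1] at hij
      have h5 : A p.1 p.2 = some (M p.1 p.2) := by
        rw [Cf, Finset.mem_filter] at hp
        exact hp.2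
      rw [e1, e2, hij, Option.some.injEq] at h5
      have h6 : (f p).2 = j := hM.1 i h5
      rw [h6, e1, e2] at g3
      exact g1 ((hM.2 j g3).symm.trans e1.symm)
    · have e1 : p.1 = i := by
        have := congrArg Prod.fst hx
        exact this.symm
      have e2 : (f p).2 = j := by
        have := congrArg Prod.snd hx
        exact this.symm
      rw [e1, e2] at h2 g4
      rw [h2] at hij
      exact g4 hij
    · have e1 : (f p).1 = i := by
        have := congrArg Prod.fst hx
        exact this.symm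
      have e2 : p.2 = j := by
        have := congrArg Prod.snd hx
        exact this.symm
      rw [e1, e2] at h3 g5
      rw [h3] at hij
      exact g5 hij
    · have e1 : (f p).1 = i := by rw [← hx]
      have e2 : (f p).2 = j := by rw [← hx]
      rw [e1, e2] at h4 g6
      rw [h4] at hij
      exact g6 hij

end Pool.Agent.Lib.MP_ce3cb6_co.LB
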