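import Mathlib

/-!
# MP_ce3cb6_co, line version: switching intercalates
-/

set_option autoImplicit false

namespace Pool.Agent.Lib.MP_ce3cb6_co.LB

open Finset

/-- Latin squares with rows, columns and symbols indexed by `I` -/
def Latin {I : Type} (M : I → I → I) : Prop :=
  (∀ i, Function.Injective (M i)) ∧ ∀ j, Function.Injective fun i => M i j

variable {I : Type} [DecidableEq I]

/-- exchange the entries of the rows `i`, `i'` in the columns `j`, `j'` -/
def sw (M : I → I → I) (i i' j j' : I) : I → I → I := fun x y =>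
  if x = i ∨ x = i' then M x (Equiv.swap j j' y) else M x y

private theorem sw_outside (M : I → I → I) {i i' j j' x y : I}
    (h : (x, y) ∉ ({(i, j), (i, j'), (i', j), (i', j')} : Finset (I × I))) :
    sw M i i' j j' x y = M x y := by
  simp only [mem_insert, mem_singleton, Prod.mk.injEq, not_or, not_and] at h
  obtain ⟨h1, h2, h3, h4⟩ := h
  unfold sw
  split_ifs with hx
  · have hyj : y ≠ j := by
      rcases hx with hx | hx
      · exact h1 hx
      · exact h3 hx
    have hyj' : y ≠ j' := by
      rcases hx with hx | hx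
      · exact h2 hx
      · exact h4 hx
    rw [Equiv.swap_apply_of_ne_of_ne hyj hyj']
  · rfl

/-- Switching an intercalate (rows `i ≠ i'`, columns `j ≠ j'`) gives a Latin square. -/
theorem sw_latin {M : I → I → I} (hM : Latin M) {i i' j j' : I} (hi : i' ≠ i)
    (h1 : M i' j' = M i j) (h2 : M i j' = M i' j) : Latin (sw M i i' j j') := by
  have key : ∀ {a b : I} {x x' : I}, M i b = M i' a → M i' b = M i a →
      (if x = i ∨ x = i' then M x b else M x a) = (if x' = i ∨ x' = i' then M x' b else M x' a) →
      x = x' := by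
    intro a b x x' e1 e2 h
    by_cases hx : x = i ∨ x = i' <;> by_cases hx' : x' = i ∨ x' = i'
    · rw [if_pos hx, if_pos hx'] at h
      exact hM.2 b h
    · rw [if_pos hx, if_neg hx'] at h
      exfalso
      rcases hx with rfl | rfl
      · rw [e1] at h
        exact hx' (Or.inr (hM.2 a h).symm)
      · rw [e2] at h
        exact hx' (Or.inl (hM.2 a h).symm)
    · rw [if_neg hx, if_pos hx'] at h
      exfalso
      rcases hx' with rfl | rfl
      · rw [e1] at h
        exact hx (Or.inr (hM.2 a h))
      · rw [e2] at h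
        exact hx (Or.inl (hM.2 a h))
    · rw [if_neg hx, if_neg hx'] at h
      exact hM.2 a h
  refine ⟨fun x y y' h => ?_, fun y x x' h => ?_⟩
  · unfold sw at h
    split_ifs at h with hx
    · exact (Equiv.swap j j').injective (hM.1 x h)
    · exact hM.1 x h
  · simp only [sw] at h
    by_cases hy : y = j
    · subst hy
      simp only [Equiv.swap_apply_left] at h
      exact key h2 h1 h
    · by_cases hy' : y = j'
      · subst hy'
        simp only [Equiv.swap_apply_right] at h
        exact key h1.symm h2.symm h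
      · simp only [Equiv.swap_apply_of_ne_of_ne hy hy', ite_self] at h
        exact hM.2 y h

/-- Simultaneous switching of disjoint intercalates. `V` is a set of cells `p = (i, j)`, `f p = (i', j')` the opposite corner.
The four cells of the block of `p` are `(i,j), (i,j'), (i',j), (i',j')`. Induction on `V` (`Finset.induction_on`) with the invariant
`L` is Latin, `L = M` outside the blocks, and the four values in each block are exchanged; step: `sw_latin` for the new block,
where `L = M` because the blocks are disjoint. -/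
theorem exists_switched {M : I → I → I} (hM : Latin M) (V : Finset (I × I)) (f : I × I → I × I)
    (hf : ∀ p ∈ V, (f p).1 ≠ p.1 ∧ M (f p).1 (f p).2 = M p.1 p.2 ∧ M p.1 (f p).2 = M (f p).1 p.2)
    (hdisj : ∀ p ∈ V, ∀ p' ∈ V, p ≠ p' →
      Disjoint ({p, (p.1, (f p).2), ((f p).1, p.2), f p} : Finset (I × I)) {p', (p'.1, (f p').2), ((f p').1, p'.2), f p'}) :
    ∃ L : I → I → I, Latin L ∧
      (∀ x : I × I, (∀ p ∈ V, x ∉ ({p, (p.1, (f p).2), ((f p).1, p.2), f p} : Finset (I × I))) → L x.1 x.2 = M x.1 x.2) ∧
      ∀ p ∈ V, L p.1 p.2 = M p.1 (f p).2 ∧ L p.1 (f p).2 = M p.1 p.2 ∧ L (f p).1 p.2 = M p.1 p.2 ∧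
        L (f p).1 (f p).2 = M p.1 (f p).2 := by
  induction V using Finset.induction_on with
  | empty => exact ⟨M, hM, fun x _ => rfl, fun p hp => absurd hp (notMem_empty p)⟩
  | insert p V hpV ih =>
    obtain ⟨L0, hL0, hout, hin⟩ := ih (fun q hq => hf q (mem_insert_of_mem hq))
      (fun q hq q' hq' => hdisj q (mem_insert_of_mem hq) q' (mem_insert_of_mem hq'))
    have hpm := mem_insert_self p V
    obtain ⟨f1, f2, f3⟩ := hf p hpm
    have hdp : ∀ q ∈ V, Disjoint
        ({p, (p.1, (f p).2), ((f p).1, p.2), f p} : Finset (I × I))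
        {q, (q.1, (f q).2), ((f q).1, q.2), f q} := fun q hq =>
      hdisj p hpm q (mem_insert_of_mem hq) (fun h => hpV (h ▸ hq))
    have hbl : ∀ x : I × I, x ∈ ({p, (p.1, (f p).2), ((f p).1, p.2), f p} : Finset (I × I)) →
        L0 x.1 x.2 = M x.1 x.2 := fun x hx =>
      hout x fun q hq hxq => Finset.disjoint_left.1 (hdp q hq) hx hxq
    have g1 : L0 p.1 p.2 = M p.1 p.2 := hbl p (by simp)
    have g2 : L0 p.1 (f p).2 = M p.1 (f p).2 := hbl (p.1, (f p).2) (by simp)
    have g3 : L0 (f p).1 p.2 = M (f p).1 p.2 := hbl ((f p).1, p.2) (by simp)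
    have g4 : L0 (f p).1 (f p).2 = M (f p).1 (f p).2 := hbl (f p) (by simp)
    have hbeq : ({(p.1, p.2), (p.1, (f p).2), ((f p).1, p.2), ((f p).1, (f p).2)} :
        Finset (I × I)) = {p, (p.1, (f p).2), ((f p).1, p.2), f p} := rfl
    have hsw : ∀ x : I × I, x ∉ ({p, (p.1, (f p).2), ((f p).1, p.2), f p} : Finset (I × I)) →
        sw L0 p.1 (f p).1 p.2 (f p).2 x.1 x.2 = L0 x.1 x.2 := fun x hx =>
      sw_outside L0 (by rw [hbeq]; exact hx)
    refine ⟨sw L0 p.1 (f p).1 p.2 (f p).2, sw_latin hL0 f1 ?_ ?_, fun x hx => ?_,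
      fun q hq => ?_⟩
    · rw [g4, g1, f2]
    · rw [g2, g3, f3]
    · rw [hsw x (hx p hpm)]
      exact hout x fun q hq => hx q (mem_insert_of_mem hq)
    · rw [mem_insert] at hq
      rcases hq with rfl | hq
      · refine ⟨?_, ?_, ?_, ?_⟩
        · simp only [sw, true_or, if_true, Equiv.swap_apply_left]
          exact g2
        · simp only [sw, true_or, if_true, Equiv.swap_apply_right]
          exact g1
        · simp only [sw, or_true, if_true, Equiv.swap_apply_left]
          rw [g4, f2]
        · simp only [sw, or_true, if_true, Equiv.swap_apply_right]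
          rw [g3, f3]
      · obtain ⟨e1, e2, e3, e4⟩ := hin q hq
        have hq' : ∀ x : I × I, x ∈ ({q, (q.1, (f q).2), ((f q).1, q.2), f q} :
            Finset (I × I)) → sw L0 p.1 (f p).1 p.2 (f p).2 x.1 x.2 = L0 x.1 x.2 :=
          fun x hx => hsw x fun hxp => Finset.disjoint_left.1 (hdp q hq) hxp hx
        refine ⟨?_, ?_, ?_, ?_⟩
        · rw [hq' q (by simp), e1]
        · rw [hq' (q.1, (f q).2) (by simp), e2]
        · rw [hq' ((f q).1, q.2) (by simp), e3]
        · rw [hq' (f q) (by simp), e4]

end Pool.Agent.Lib.MP_ce3cb6_co.LB
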