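import Pool.Agent.Lib.MP_ce3cb6_co.LB.Data

/-!
# MP_ce3cb6_co, line version: many partners for every conflict cell
-/

set_option autoImplicit false

namespace Pool.Agent.Lib.MP_ce3cb6_co.LB

open Finset

variable {G R : Type} [Group G] [Fintype G] [DecidableEq G] [Fintype R] [DecidableEq R]

private theorem part_card {α β : Type} [DecidableEq α] (S E1 E2 E3 E4 : Finset α)
    (T : Finset β) (f : α → β) (hf : Set.InjOn f S)
    (h : ∀ s ∈ S, s ∉ E1 → s ∉ E2 → s ∉ E3 → s ∉ E4 → f s ∈ T) :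
    S.card ≤ T.card + E1.card + E2.card + E3.card + E4.card := by
  classical
  have h1 : S ⊆ (((S.filter fun s => f s ∈ T) ∪ E1) ∪ E2 ∪ E3) ∪ E4 := by
    intro s hs
    simp only [Finset.mem_union, Finset.mem_filter]
    by_cases e1 : s ∈ E1
    · simp [e1]
    by_cases e2 : s ∈ E2
    · simp [e2]
    by_cases e3 : s ∈ E3
    · simp [e3]
    by_cases e4 : s ∈ E4
    · simp [e4]
    exact Or.inl (Or.inl (Or.inl (Or.inl ⟨hs, h s hs e1 e2 e3 e4⟩)))
  have h2 : (S.filter fun s => f s ∈ T).card ≤ T.card := by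
    refine Finset.card_le_card_of_injOn f ?_ ?_
    · intro s hs
      exact (Finset.mem_filter.1 hs).2
    · intro a ha b hb hab
      exact hf (Finset.mem_filter.1 ha).1 (Finset.mem_filter.1 hb).1 hab
  have h3 := Finset.card_le_card h1
  have h4 := Finset.card_union_le (((S.filter fun s => f s ∈ T) ∪ E1) ∪ E2 ∪ E3) E4
  have h5 := Finset.card_union_le ((S.filter fun s => f s ∈ T) ∪ E1 ∪ E2) E3
  have h6 := Finset.card_union_le ((S.filter fun s => f s ∈ T) ∪ E1) E2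
  have h7 := Finset.card_union_le (S.filter fun s => f s ∈ T) E1
  omega

/-- Ordinary conflict cell `(i, j)`: `A = some (inl a)`, `a = τ (g h)`, `g = ρ i`, `h = σ j`, `h ≠ θ g c_t`. Take the `s ∈ J` of `rs1`
for which the three cells `(g, s h)`, `(g s, h)`, `(g s, s h)` are ordinary (each `t` excludes at most one `s` for each of them; for
the third: `g' := g s`, `s h = θ g' c_t` gives `g h = g' θ(g') c_t`, use `hη`; so at most `3 |R| ≤ 21` excluded) and which are not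
counted in `t5` (at most `64 l`). The partner is `(inl ρ⁻¹(g s), inl σ⁻¹(s h))`: the values are `τ(g h)`, `τ(g s h)` because
`g s s h = g h`. `2624 l - 21 - 64 l ≥ 39 (64 l + 7)` as `l ≥ 19`. -/
theorem part_ord (D : Data G R) {ρ σ τ : Equiv.Perm G} (hR : RS D ρ σ) (hT : TT D ρ σ τ) (i j : G)
    (hord : ∀ t, σ j ≠ D.θ (ρ i) * D.c t)
    (h : D.A (Sum.inl i) (Sum.inl j) = some (iso D.θ D.c D.q ρ σ τ (Sum.inl i) (Sum.inl j))) :
    39 * (64 * D.l + 7) ≤ (univ.filter fun p : (G ⊕ R) × (G ⊕ R) => p.1 ≠ Sum.inl i ∧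
      iso D.θ D.c D.q ρ σ τ p.1 p.2 = iso D.θ D.c D.q ρ σ τ (Sum.inl i) (Sum.inl j) ∧
      iso D.θ D.c D.q ρ σ τ (Sum.inl i) p.2 = iso D.θ D.c D.q ρ σ τ p.1 (Sum.inl j) ∧
      D.A (Sum.inl i) p.2 ≠ some (iso D.θ D.c D.q ρ σ τ (Sum.inl i) (Sum.inl j)) ∧
      D.A p.1 (Sum.inl j) ≠ some (iso D.θ D.c D.q ρ σ τ (Sum.inl i) (Sum.inl j)) ∧
      D.A p.1 p.2 ≠ some (iso D.θ D.c D.q ρ σ τ (Sum.inl i) p.2)).card := by
  classical
  have hl := D.l_ge
  have hr := D.hr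
  have hbase := iso_ordinary (q := D.q) (τ := τ) (σ := σ) (ρ := ρ) (c := D.c) (θ := D.θ) hord
  rw [hbase] at h ⊢
  have h1 := hR.rs1 i j _ h
  have h5 := hT.t5 i j
  set E1 : Finset G := univ.image fun t : R => D.θ (ρ i) * D.c t * (σ j)⁻¹ with hE1
  set E2 : Finset G := univ.image fun t : R => (ρ i)⁻¹ * D.θ.symm (σ j * (D.c t)⁻¹) with hE2
  set E3 : Finset G := univ.image fun t : R => (ρ i)⁻¹ *
    (Equiv.ofBijective _ D.hη).symm (ρ i * σ j * (D.c t)⁻¹) with hE3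
  set E4 : Finset G := D.J.filter fun s => D.A (Sum.inl (ρ.symm (ρ i * s)))
    (Sum.inl (σ.symm (s * σ j))) = some (Sum.inl (τ (ρ i * s * σ j))) with hE4
  have hc1 : E1.card ≤ Fintype.card R := Finset.card_image_le.trans (by rw [Finset.card_univ])
  have hc2 : E2.card ≤ Fintype.card R := Finset.card_image_le.trans (by rw [Finset.card_univ])
  have hc3 : E3.card ≤ Fintype.card R := Finset.card_image_le.trans (by rw [Finset.card_univ])
  have key := part_card (D.J.filter fun s =>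
    D.A (Sum.inl (ρ.symm (ρ i * s))) (Sum.inl j) ≠ some (Sum.inl (τ (ρ i * σ j))) ∧
    D.A (Sum.inl i) (Sum.inl (σ.symm (s * σ j))) ≠ some (Sum.inl (τ (ρ i * σ j)))) E1 E2 E3 E4
    (univ.filter fun p : (G ⊕ R) × (G ⊕ R) => p.1 ≠ Sum.inl i ∧
      iso D.θ D.c D.q ρ σ τ p.1 p.2 = Sum.inl (τ (ρ i * σ j)) ∧
      iso D.θ D.c D.q ρ σ τ (Sum.inl i) p.2 = iso D.θ D.c D.q ρ σ τ p.1 (Sum.inl j) ∧
      D.A (Sum.inl i) p.2 ≠ some (Sum.inl (τ (ρ i * σ j))) ∧
      D.A p.1 (Sum.inl j) ≠ some (Sum.inl (τ (ρ i * σ j))) ∧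
      D.A p.1 p.2 ≠ some (iso D.θ D.c D.q ρ σ τ (Sum.inl i) p.2))
    (fun s => (Sum.inl (ρ.symm (ρ i * s)), Sum.inl (σ.symm (s * σ j)))) ?_ ?_
  · omega
  · intro a _ b _ hab
    have h2 := (Prod.mk.inj hab).1
    have h3 := ρ.symm.injective (Sum.inl.inj h2)
    exact mul_left_cancel h3
  · intro s hs n1 n2 n3 n4
    obtain ⟨hsJ, ha, hb⟩ := Finset.mem_filter.1 hs
    obtain ⟨hss, hs1⟩ := D.hJ s hsJ
    have o1 : ∀ t, σ (σ.symm (s * σ j)) ≠ D.θ (ρ i) * D.c t := by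
      intro t ht
      apply n1
      rw [hE1]
      refine Finset.mem_image.2 ⟨t, Finset.mem_univ _, ?_⟩
      rw [Equiv.apply_symm_apply] at ht
      rw [← ht]
      group
    have o2 : ∀ t, σ j ≠ D.θ (ρ (ρ.symm (ρ i * s))) * D.c t := by
      intro t ht
      apply n2
      rw [hE2]
      refine Finset.mem_image.2 ⟨t, Finset.mem_univ _, ?_⟩
      rw [Equiv.apply_symm_apply] at ht
      rw [ht]
      simp
    have o3 : ∀ t, σ (σ.symm (s * σ j)) ≠ D.θ (ρ (ρ.symm (ρ i * s))) * D.c t := by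
      intro t ht
      apply n3
      rw [hE3]
      refine Finset.mem_image.2 ⟨t, Finset.mem_univ _, ?_⟩
      rw [Equiv.apply_symm_apply, Equiv.apply_symm_apply] at ht
      have h2 : (Equiv.ofBijective _ D.hη).symm (ρ i * σ j * (D.c t)⁻¹) = ρ i * s := by
        rw [Equiv.symm_apply_eq]
        show ρ i * σ j * (D.c t)⁻¹ = ρ i * s * D.θ (ρ i * s)
        have h3 : D.θ (ρ i * s) = s * σ j * (D.c t)⁻¹ := by
          rw [ht]
          group
        rw [h3]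
        calc ρ i * σ j * (D.c t)⁻¹ = ρ i * 1 * σ j * (D.c t)⁻¹ := by group
          _ = ρ i * (s * s) * σ j * (D.c t)⁻¹ := by rw [hss]
          _ = ρ i * s * (s * σ j * (D.c t)⁻¹) := by group
      rw [h2]
      group
    have i1 := iso_ordinary (q := D.q) (τ := τ) (σ := σ) (ρ := ρ) (c := D.c) (θ := D.θ) o1
    have i2 := iso_ordinary (q := D.q) (τ := τ) (σ := σ) (ρ := ρ) (c := D.c) (θ := D.θ) o2
    have i3 := iso_ordinary (q := D.q) (τ := τ) (σ := σ) (ρ := ρ) (c := D.c) (θ := D.θ) o3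
    rw [Equiv.apply_symm_apply] at i1 i2 i3
    rw [Equiv.apply_symm_apply] at i3
    refine Finset.mem_filter.2 ⟨Finset.mem_univ _, ?_, ?_, ?_, ?_, ?_, ?_⟩
    · intro h2
      have h3 := Sum.inl.inj h2
      rw [Equiv.symm_apply_eq] at h3
      exact hs1 (mul_left_cancel (h3.trans (mul_one _).symm))
    · dsimp only
      rw [i3]
      congr 2
      calc ρ i * s * (s * σ j) = ρ i * (s * s) * σ j := by group
        _ = ρ i * σ j := by rw [hss, mul_one]
    · dsimp only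
      rw [i1, i2, mul_assoc]
    · exact hb
    · exact ha
    · dsimp only
      rw [i1]
      intro h2
      apply n4
      rw [hE4]
      refine Finset.mem_filter.2 ⟨hsJ, ?_⟩
      rw [h2, mul_assoc]

/-- Special conflict cell `(i, j)`, `σ j = θ(g) c_t`, `g = ρ i`, symbol `inr t`. Take the `g' ∈ V g` of `rs2` for which the cells
`(g, θ(g') c_t)`, `(g', θ(g) c_t)` are ordinary (at most `2 |R| ≤ 14` excluded) and which are not counted in `t6`. The partner is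
`(inl ρ⁻¹ g', inl σ⁻¹(θ(g') c_t))`, with symbol `inr t` (special cell of `t`), and the other two cells contain
`τ(g θ(g') c_t) = τ(g' θ(g) c_t)`. -/
theorem part_spec (D : Data G R) {ρ σ τ : Equiv.Perm G} (hR : RS D ρ σ) (hT : TT D ρ σ τ) (i j : G) (t : R)
    (hsp : σ j = D.θ (ρ i) * D.c t)
    (h : D.A (Sum.inl i) (Sum.inl j) = some (iso D.θ D.c D.q ρ σ τ (Sum.inl i) (Sum.inl j))) :
    39 * (64 * D.l + 7) ≤ (univ.filter fun p : (G ⊕ R) × (G ⊕ R) => p.1 ≠ Sum.inl i ∧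
      iso D.θ D.c D.q ρ σ τ p.1 p.2 = iso D.θ D.c D.q ρ σ τ (Sum.inl i) (Sum.inl j) ∧
      iso D.θ D.c D.q ρ σ τ (Sum.inl i) p.2 = iso D.θ D.c D.q ρ σ τ p.1 (Sum.inl j) ∧
      D.A (Sum.inl i) p.2 ≠ some (iso D.θ D.c D.q ρ σ τ (Sum.inl i) (Sum.inl j)) ∧
      D.A p.1 (Sum.inl j) ≠ some (iso D.θ D.c D.q ρ σ τ (Sum.inl i) (Sum.inl j)) ∧
      D.A p.1 p.2 ≠ some (iso D.θ D.c D.q ρ σ τ (Sum.inl i) p.2)).card := by
  classical
  have hl := D.l_ge
  have hr := D.hr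
  have hbase := iso_special (q := D.q) (τ := τ) (σ := σ) (ρ := ρ) (c := D.c) (θ := D.θ) D.hc hsp
  rw [hbase] at h ⊢
  have h1 := hR.rs2 i j t h hsp
  have h5 := hT.t6 i t
  set E1 : Finset G := univ.image fun t' : R => D.θ.symm (D.θ (ρ i) * D.c t' * (D.c t)⁻¹) with hE1
  set E2 : Finset G := univ.image fun t' : R => D.θ.symm (D.θ (ρ i) * D.c t * (D.c t')⁻¹) with hE2
  set E4 : Finset G := (D.V (ρ i)).filter fun g' => D.A (Sum.inl (ρ.symm g'))
    (Sum.inl (σ.symm (D.θ g' * D.c t))) = some (Sum.inl (τ (ρ i * D.θ g' * D.c t))) with hE4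
  have hc1 : E1.card ≤ Fintype.card R := Finset.card_image_le.trans (by rw [Finset.card_univ])
  have hc2 : E2.card ≤ Fintype.card R := Finset.card_image_le.trans (by rw [Finset.card_univ])
  have key := part_card ((D.V (ρ i)).filter fun g' =>
    D.A (Sum.inl (ρ.symm g')) (Sum.inl j) ≠ some (Sum.inr t) ∧
    D.A (Sum.inl i) (Sum.inl (σ.symm (D.θ g' * D.c t))) ≠ some (Sum.inr t)) E1 E2 ∅ E4
    (univ.filter fun p : (G ⊕ R) × (G ⊕ R) => p.1 ≠ Sum.inl i ∧
      iso D.θ D.c D.q ρ σ τ p.1 p.2 = Sum.inr t ∧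
      iso D.θ D.c D.q ρ σ τ (Sum.inl i) p.2 = iso D.θ D.c D.q ρ σ τ p.1 (Sum.inl j) ∧
      D.A (Sum.inl i) p.2 ≠ some (Sum.inr t) ∧
      D.A p.1 (Sum.inl j) ≠ some (Sum.inr t) ∧
      D.A p.1 p.2 ≠ some (iso D.θ D.c D.q ρ σ τ (Sum.inl i) p.2))
    (fun g' => (Sum.inl (ρ.symm g'), Sum.inl (σ.symm (D.θ g' * D.c t)))) ?_ ?_
  · rw [Finset.card_empty] at key
    omega
  · intro a _ b _ hab
    have h2 := (Prod.mk.inj hab).1
    exact ρ.symm.injective (Sum.inl.inj h2)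
  · intro s hs n1 n2 _ n4
    obtain ⟨hsJ, ha, hb⟩ := Finset.mem_filter.1 hs
    obtain ⟨-, hs1, hss⟩ := Finset.mem_filter.1 hsJ
    have o1 : ∀ t', σ (σ.symm (D.θ s * D.c t)) ≠ D.θ (ρ i) * D.c t' := by
      intro t' ht
      apply n1
      rw [hE1]
      refine Finset.mem_image.2 ⟨t', Finset.mem_univ _, ?_⟩
      rw [Equiv.apply_symm_apply] at ht
      rw [← ht]
      simp
    have o2 : ∀ t', σ j ≠ D.θ (ρ (ρ.symm s)) * D.c t' := by
      intro t' ht
      apply n2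
      rw [hE2]
      refine Finset.mem_image.2 ⟨t', Finset.mem_univ _, ?_⟩
      rw [Equiv.apply_symm_apply, hsp] at ht
      rw [ht]
      simp
    have i1 := iso_ordinary (q := D.q) (τ := τ) (σ := σ) (ρ := ρ) (c := D.c) (θ := D.θ) o1
    have i2 := iso_ordinary (q := D.q) (τ := τ) (σ := σ) (ρ := ρ) (c := D.c) (θ := D.θ) o2
    have i3 : iso D.θ D.c D.q ρ σ τ (Sum.inl (ρ.symm s)) (Sum.inl (σ.symm (D.θ s * D.c t))) =
        Sum.inr t := iso_special (q := D.q) (τ := τ) D.hc (by simp)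
    rw [Equiv.apply_symm_apply] at i1 i2
    refine Finset.mem_filter.2 ⟨Finset.mem_univ _, ?_, ?_, ?_, ?_, ?_, ?_⟩
    · intro h2
      have h3 := Sum.inl.inj h2
      rw [Equiv.symm_apply_eq] at h3
      exact hs1 h3
    · exact i3
    · dsimp only
      rw [i1, i2, hsp, ← mul_assoc, ← mul_assoc, hss]
    · exact hb
    · exact ha
    · dsimp only
      rw [i1]
      intro h2
      apply n4
      rw [hE4]
      refine Finset.mem_filter.2 ⟨hsJ, ?_⟩
      rw [h2, mul_assoc]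

end Pool.Agent.Lib.MP_ce3cb6_co.LB
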