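import Pool.Agent.Lib.MP_ce3cb6_co.LB.Fix
import Pool.Agent.Lib.MP_ce3cb6_co.LB.ExRS
import Pool.Agent.Lib.MP_ce3cb6_co.LB.ExTT
import Pool.Agent.Lib.MP_ce3cb6_co.LB.Cnt
import Pool.Agent.Lib.MP_ce3cb6_co.LB.Part

/-!
# MP_ce3cb6_co, line version: the main step
-/

set_option autoImplicit false

namespace Pool.Agent.Lib.MP_ce3cb6_co.LB

open Finset

variable {G R : Type} [Group G] [Fintype G] [DecidableEq G] [Fintype R] [DecidableEq R]

/-- `repair` for `iso θ c q ρ σ τ` with `K = 64 l + 7`. Conflict cells: `(inl i, inl j)` ordinary or special; the others have no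
conflict (`t1`, `t2`, `hcor`). -/
theorem main_sum (D : Data G R) : ∃ L : G ⊕ R → G ⊕ R → G ⊕ R, Latin L ∧ ∀ x y, D.A x y ≠ some (L x y) := by
  obtain ⟨ρ, σ, hR⟩ := exists_RS D
  obtain ⟨τ, hT⟩ := exists_TT D ρ σ
  refine repair (M := iso D.θ D.c D.q ρ σ τ) (iso_latin D.hη D.hc D.hq) D.A (64 * D.l + 7)
    (row_le D hT) (col_le D hT) (sym_le D hR hT) ?_
  intro x y hxy
  rcases x with i | t
  · rcases y with j | t
    · by_cases h : ∃ t, σ j = D.θ (ρ i) * D.c t
      · obtain ⟨t, ht⟩ := h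
        exact part_spec D hR hT i j t ht hxy
      · push Not at h
        exact part_ord D hR hT i j h hxy
    · rw [iso_col] at hxy
      exact absurd hxy (hT.t1 i t)
  · rcases y with j | t'
    · rw [iso_row] at hxy
      exact absurd hxy (hT.t2 t j)
    · rw [iso_corner] at hxy
      exact absurd hxy (D.hcor t t' _)

end Pool.Agent.Lib.MP_ce3cb6_co.LB
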