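import Mathlib

/-!
# MP_ce3cb6_co, line version: counting permutations (1)
-/

set_option autoImplicit false

namespace Pool.Agent.Lib.MP_ce3cb6_co.LB

open Finset

variable {G : Type} [Fintype G] [DecidableEq G]

/-- At most `(m - |T|)!` permutations contain a given set `T` of cells.
Hint: if there is none, nothing to do. Otherwise fix one, `π₀`; then `T` is contained in its graph, so the set `D` of first
coordinates of `T` has `|T|` elements, and `π ↦ π₀⁻¹ π` is injective into the permutations fixing `D` pointwise, whose number is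
`(m - |D|)!` (`Equiv.Perm.subtypeEquivSubtypePerm`, `Fintype.card_perm`). -/
theorem card_perm_graph_le (T : Finset (G × G)) :
    (univ.filter fun π : Equiv.Perm G => ∀ p ∈ T, π p.1 = p.2).card ≤ (Fintype.card G - T.card).factorial := by
  rcases (univ.filter fun π : Equiv.Perm G => ∀ p ∈ T, π p.1 = p.2).eq_empty_or_nonempty with
    he | ⟨π₀, h₀⟩
  · rw [he, card_empty]
    exact Nat.zero_le _
  · have h₀' : ∀ p ∈ T, π₀ p.1 = p.2 := (mem_filter.mp h₀).2
    set D : Finset G := T.image Prod.fst with hD
    have hDc : D.card = T.card := by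
      refine card_image_of_injOn fun p hp p' hp' h => ?_
      refine Prod.ext h ?_
      rw [← h₀' p hp, ← h₀' p' hp']
      exact congrArg π₀ h
    have h1 : (univ.filter fun π : Equiv.Perm G => ∀ p ∈ T, π p.1 = p.2).card ≤
        (univ.filter fun f : Equiv.Perm G => ∀ a, ¬ (a ∉ D) → f a = a).card := by
      refine card_le_card_of_injOn (fun π => π₀⁻¹ * π) (fun π hπ => ?_) (fun π _ π' _ h => ?_)
      · have hπ' := (mem_filter.mp (mem_coe.mp hπ)).2
        refine mem_coe.mpr (mem_filter.mpr ⟨mem_univ _, fun a ha => ?_⟩)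
        rw [not_not, hD, mem_image] at ha
        obtain ⟨p, hp, rfl⟩ := ha
        show π₀⁻¹ (π p.1) = p.1
        rw [hπ' p hp, ← h₀' p hp]
        exact π₀.symm_apply_apply p.1
      · exact mul_left_cancel h
    refine h1.trans (le_of_eq ?_)
    rw [← Fintype.card_subtype,
      ← Fintype.card_congr (Equiv.Perm.subtypeEquivSubtypePerm (fun a => a ∉ D)),
      Fintype.card_perm]
    congr 1
    rw [Fintype.card_subtype_compl, Fintype.card_coe, hDc]

/-- At most `C(|H|,K) (m-K)!` permutations have at least `K` points `(x, π x)` in `H`: sum `card_perm_graph_le` over the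
`K`-subsets `T` of `H` (`Finset.powersetCard`). -/
theorem card_hits_le (H : Finset (G × G)) (K : ℕ) :
    (univ.filter fun π : Equiv.Perm G => K ≤ (univ.filter fun x => (x, π x) ∈ H).card).card ≤
      H.card.choose K * (Fintype.card G - K).factorial := by
  have hsub : (univ.filter fun π : Equiv.Perm G => K ≤ (univ.filter fun x => (x, π x) ∈ H).card) ⊆
      (powersetCard K H).biUnion fun T =>
        univ.filter fun π : Equiv.Perm G => ∀ p ∈ T, π p.1 = p.2 := by
    intro π hπ
    have hK := (mem_filter.mp hπ).2
    obtain ⟨S, hS, hSc⟩ := exists_subset_card_eq hK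
    refine mem_biUnion.mpr ⟨S.image fun x => (x, π x), mem_powersetCard.mpr ⟨?_, ?_⟩, ?_⟩
    · intro p hp
      obtain ⟨x, hx, rfl⟩ := mem_image.mp hp
      exact (mem_filter.mp (hS hx)).2
    · rw [card_image_of_injective _ (fun a b h => (Prod.mk.inj h).1), hSc]
    · refine mem_filter.mpr ⟨mem_univ _, fun p hp => ?_⟩
      obtain ⟨x, hx, rfl⟩ := mem_image.mp hp
      rfl
  refine (card_le_card hsub).trans (card_biUnion_le.trans ?_)
  have h1 : ∀ T ∈ powersetCard K H,
      (univ.filter fun π : Equiv.Perm G => ∀ p ∈ T, π p.1 = p.2).card ≤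
        (Fintype.card G - K).factorial := by
    intro T hT
    have h := card_perm_graph_le T
    rwa [(mem_powersetCard.mp hT).2] at h
  refine (sum_le_sum h1).trans ?_
  rw [sum_const, card_powersetCard, smul_eq_mul]

end Pool.Agent.Lib.MP_ce3cb6_co.LB
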