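import Pool.Agent.Lib.MP_ce3cb6_co.LB.PermA

/-!
# MP_ce3cb6_co, line version: counting permutations (2)
-/

set_option autoImplicit false

namespace Pool.Agent.Lib.MP_ce3cb6_co.LB

open Finset

variable {G : Type} [Fintype G] [DecidableEq G]

/-- For `T ⊆ G \ {i}` with `t` elements and `W ⊆ G \ {γ}`: the permutations with `π i = γ` and `π(T) ⊆ W` number at most
`(w)_t (m-1-t)!`: the restriction to `T` is an injection `T → W` (`Fintype.card_embedding_eq`), and each one is extended (together
with `i ↦ γ`) in at most `(m-1-t)!` ways by `card_perm_graph_le`. -/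
theorem card_perm_into_le (i γ : G) (T W : Finset G) (hT : i ∉ T) (hW : γ ∉ W) :
    (univ.filter fun π : Equiv.Perm G => π i = γ ∧ ∀ y ∈ T, π y ∈ W).card ≤
      W.card.descFactorial T.card * (Fintype.card G - 1 - T.card).factorial := by
  classical
  set S := univ.filter fun π : Equiv.Perm G => π i = γ ∧ ∀ y ∈ T, π y ∈ W with hS
  set res : Equiv.Perm G → (T → G) := fun π y => π y with hres
  have h1 : S.card ≤ (Fintype.card G - 1 - T.card).factorial * (S.image res).card := by
    refine Finset.card_le_mul_card_image _ _ (fun f hf => ?_)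
    rw [Finset.mem_image] at hf
    obtain ⟨π₀, hπ₀, rfl⟩ := hf
    set T' : Finset (G × G) := insert (i, γ) (T.image (fun y => (y, π₀ y))) with hT'
    have hcard : T'.card = 1 + T.card := by
      rw [hT', Finset.card_insert_of_notMem, Finset.card_image_of_injective, add_comm]
      · intro a b hab
        exact (Prod.mk.inj hab).1
      · intro hmem
        rw [Finset.mem_image] at hmem
        obtain ⟨y, hy, hyi⟩ := hmem
        have := (Prod.mk.inj hyi).1
        rw [this] at hy
        exact hT hy
    have h2 := card_perm_graph_le T'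
    rw [hcard, ← Nat.sub_sub] at h2
    refine le_trans (Finset.card_le_card ?_) h2
    intro π hπ
    simp only [hS, Finset.mem_filter, Finset.mem_univ, true_and] at hπ ⊢
    intro p hp
    rw [hT', Finset.mem_insert, Finset.mem_image] at hp
    rcases hp with rfl | ⟨y, hy, rfl⟩
    · exact hπ.1.1
    · have := congrFun hπ.2 ⟨y, hy⟩
      exact this
  have h3 : (S.image res).card ≤ W.card.descFactorial T.card := by
    have hE : Fintype.card (T ↪ W) = W.card.descFactorial T.card := by
      rw [Fintype.card_embedding_eq, Fintype.card_coe, Fintype.card_coe]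
    rw [← hE, ← Finset.card_univ]
    refine le_trans (Finset.card_le_card (t := (univ : Finset (T ↪ W)).image
      (fun (e : T ↪ W) (y : T) => ((e y : W) : G))) ?_) Finset.card_image_le
    intro f hf
    rw [Finset.mem_image] at hf
    obtain ⟨π, hπ, rfl⟩ := hf
    simp only [hS, Finset.mem_filter, Finset.mem_univ, true_and] at hπ
    rw [Finset.mem_image]
    refine ⟨⟨fun y => ⟨π y, hπ.2 y y.2⟩, ?_⟩, Finset.mem_univ _, rfl⟩
    intro a b hab
    have := congrArg Subtype.val hab
    exact Subtype.ext (π.injective this)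
  calc S.card ≤ (Fintype.card G - 1 - T.card).factorial * (S.image res).card := h1
    _ ≤ (Fintype.card G - 1 - T.card).factorial * W.card.descFactorial T.card :=
        Nat.mul_le_mul_left _ h3
    _ = _ := Nat.mul_comm _ _

private lemma descFactorial_ratio (w m : ℕ) (hw : w ≤ m) (hm : 0 < m) (t : ℕ) :
    t ≤ m → (w.descFactorial t : ℝ) ≤ ((w : ℝ) / m) ^ t * (m.descFactorial t : ℝ) := by
  induction t with
  | zero => intro _; simp
  | succ t ih =>
    intro ht
    have h1 := ih (by omega)
    have hm0 : (0:ℝ) < m := by exact_mod_cast hm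
    have hwm : (w:ℝ) ≤ m := by exact_mod_cast hw
    rw [Nat.descFactorial_succ, Nat.descFactorial_succ, pow_succ]
    push_cast
    have h2 : ((w - t : ℕ) : ℝ) ≤ (w : ℝ) / m * ((m - t : ℕ) : ℝ) := by
      rw [Nat.cast_sub (by omega : t ≤ m)]
      by_cases hwt : t ≤ w
      · rw [Nat.cast_sub hwt, div_mul_eq_mul_div, le_div_iff₀ hm0]
        have : (t:ℝ) * w ≤ t * m := mul_le_mul_of_nonneg_left hwm (Nat.cast_nonneg _)
        nlinarith
      · rw [Nat.sub_eq_zero_of_le (by omega)]
        push_cast
        have : (t:ℝ) ≤ m := by exact_mod_cast (by omega : t ≤ m)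
        exact mul_nonneg (by positivity) (by linarith)
    calc ((w - t : ℕ) : ℝ) * (w.descFactorial t : ℝ)
        ≤ ((w : ℝ) / m * ((m - t : ℕ) : ℝ)) * (((w : ℝ) / m) ^ t * (m.descFactorial t : ℝ)) :=
          mul_le_mul h2 h1 (Nat.cast_nonneg _) (le_trans (Nat.cast_nonneg _) h2)
      _ = ((w : ℝ) / m) ^ t * ((w : ℝ) / m) * (((m - t : ℕ) : ℝ) * (m.descFactorial t : ℝ)) := by
          ring

/-- `(w)_t (m-t)! ≤ (w/m)^t m!` for `w ≤ m`, `t ≤ m` (here `m` is any number; used with `m := |G| - 1`). -/
theorem descFactorial_le (w m t : ℕ) (hw : w ≤ m) (ht : t ≤ m) (hm : 0 < m) :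
    ((w.descFactorial t * (m - t).factorial : ℕ) : ℝ) ≤ ((w : ℝ) / m) ^ t * (m.factorial : ℝ) := by
  have h1 := descFactorial_ratio w m hw hm t ht
  have h2 : (m.factorial : ℝ) = ((m - t).factorial : ℝ) * (m.descFactorial t : ℝ) := by
    exact_mod_cast (Nat.factorial_mul_descFactorial ht).symm
  rw [h2]
  push_cast
  calc (w.descFactorial t : ℝ) * ((m - t).factorial : ℝ)
      ≤ ((w : ℝ) / m) ^ t * (m.descFactorial t : ℝ) * ((m - t).factorial : ℝ) :=
        mul_le_mul_of_nonneg_right h1 (Nat.cast_nonneg _)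
    _ = _ := by ring

/-- Tail bound for one permutation with one prescribed value. Sum `card_perm_into_le` over the `t`-subsets of `Y`
(for `t > |G| - 1` the left side is empty because `|Y| ≤ |G| - 1`). -/
theorem card_tail_le (i γ : G) (Y W : Finset G) (hY : i ∉ Y) (hW : γ ∉ W) (t : ℕ) (hm : 2 ≤ Fintype.card G) :
    ((univ.filter fun π : Equiv.Perm G => π i = γ ∧ t ≤ (Y.filter fun y => π y ∈ W).card).card : ℝ) ≤
      (Y.card.choose t : ℝ) * ((W.card : ℝ) / ((Fintype.card G - 1 : ℕ) : ℝ)) ^ t *
        ((Fintype.card G - 1).factorial : ℝ) := by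
  classical
  have hYc : Y.card ≤ Fintype.card G - 1 := by
    have : Y ⊆ univ.erase i := fun y hy =>
      Finset.mem_erase.mpr ⟨fun h => hY (h ▸ hy), Finset.mem_univ _⟩
    have h2 := Finset.card_le_card this
    rwa [Finset.card_erase_of_mem (Finset.mem_univ _), Finset.card_univ] at h2
  have hWc : W.card ≤ Fintype.card G - 1 := by
    have : W ⊆ univ.erase γ := fun y hy =>
      Finset.mem_erase.mpr ⟨fun h => hW (h ▸ hy), Finset.mem_univ _⟩
    have h2 := Finset.card_le_card this
    rwa [Finset.card_erase_of_mem (Finset.mem_univ _), Finset.card_univ] at h2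
  by_cases ht : t ≤ Fintype.card G - 1
  · have h1 : (univ.filter fun π : Equiv.Perm G => π i = γ ∧ t ≤ (Y.filter fun y => π y ∈ W).card) ⊆
        (Finset.powersetCard t Y).biUnion
          (fun T => univ.filter fun π : Equiv.Perm G => π i = γ ∧ ∀ y ∈ T, π y ∈ W) := by
      intro π hπ
      simp only [Finset.mem_filter, Finset.mem_univ, true_and, Finset.mem_biUnion,
        Finset.mem_powersetCard] at hπ ⊢
      obtain ⟨T, hT1, hT2⟩ := Finset.exists_subset_card_eq hπ.2
      refine ⟨T, ⟨hT1.trans (Finset.filter_subset _ _), hT2⟩, hπ.1, fun y hy => ?_⟩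
      exact (Finset.mem_filter.mp (hT1 hy)).2
    have h2 : (univ.filter fun π : Equiv.Perm G => π i = γ ∧
          t ≤ (Y.filter fun y => π y ∈ W).card).card ≤
        Y.card.choose t * (W.card.descFactorial t * (Fintype.card G - 1 - t).factorial) := by
      refine (Finset.card_le_card h1).trans (Finset.card_biUnion_le.trans ?_)
      calc ∑ T ∈ Finset.powersetCard t Y,
            (univ.filter fun π : Equiv.Perm G => π i = γ ∧ ∀ y ∈ T, π y ∈ W).card
          ≤ ∑ _T ∈ Finset.powersetCard t Y,
              (W.card.descFactorial t * (Fintype.card G - 1 - t).factorial) := by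
            refine Finset.sum_le_sum (fun T hT => ?_)
            rw [Finset.mem_powersetCard] at hT
            have h3 := card_perm_into_le i γ T W (fun h => hY (hT.1 h)) hW
            rw [hT.2] at h3
            exact h3
        _ = _ := by rw [Finset.sum_const, Finset.card_powersetCard, smul_eq_mul]
    have h3 := descFactorial_le W.card (Fintype.card G - 1) t hWc ht (by omega)
    have h2' : ((univ.filter fun π : Equiv.Perm G => π i = γ ∧
          t ≤ (Y.filter fun y => π y ∈ W).card).card : ℝ) ≤
        (Y.card.choose t : ℝ) *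
          ((W.card.descFactorial t * (Fintype.card G - 1 - t).factorial : ℕ) : ℝ) := by
      exact_mod_cast h2
    refine h2'.trans ?_
    rw [mul_assoc]
    exact mul_le_mul_of_nonneg_left h3 (Nat.cast_nonneg _)
  · have h0 : (univ.filter fun π : Equiv.Perm G => π i = γ ∧
        t ≤ (Y.filter fun y => π y ∈ W).card) = ∅ := by
      refine Finset.filter_eq_empty_iff.mpr (fun π _ h => ?_)
      have := h.2.trans (Finset.card_filter_le _ _)
      omega
    rw [h0]
    simp only [Finset.card_empty, Nat.cast_zero]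
    positivity

/-- `C((a+1)v, v) ≤ ((1+1/a)^(a+1) a)^v`: one term of the binomial expansion of `(1 + 1/a)^((a+1)v)`. -/
theorem choose_le (a v : ℕ) (ha : 0 < a) :
    ((((a + 1) * v).choose v : ℕ) : ℝ) ≤ ((1 + 1 / (a : ℝ)) ^ (a + 1) * a) ^ v := by
  have ha0 : (0:ℝ) < a := by exact_mod_cast ha
  have h1 : ((((a + 1) * v).choose v : ℕ) : ℝ) * (1 / (a:ℝ)) ^ v ≤
      (1 + 1 / (a : ℝ)) ^ ((a + 1) * v) := by
    rw [add_comm (1:ℝ), add_pow]
    have h2 := Finset.single_le_sum
      (f := fun k => (1 / (a:ℝ)) ^ k * 1 ^ ((a + 1) * v - k) * (((a + 1) * v).choose k : ℝ))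
      (s := Finset.range ((a + 1) * v + 1)) (fun k _ => by positivity)
      (a := v) (Finset.mem_range.mpr (by nlinarith [Nat.zero_le (a * v)]))
    refine le_trans (le_of_eq ?_) h2
    simp only [one_pow]
    ring
  have h3 : ((((a + 1) * v).choose v : ℕ) : ℝ) =
      ((((a + 1) * v).choose v : ℕ) : ℝ) * (1 / (a:ℝ)) ^ v * (a:ℝ) ^ v := by
    rw [mul_assoc, ← mul_pow, one_div_mul_cancel ha0.ne', one_pow, mul_one]
  rw [h3, mul_pow, ← pow_mul]
  exact mul_le_mul_of_nonneg_right h1 (by positivity)

end Pool.Agent.Lib.MP_ce3cb6_co.LB
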