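import Pool.Agent.Lib.MP_ce3cb6_co.LB.PermB

/-!
# MP_ce3cb6_co, line version: two random permutations
-/

set_option autoImplicit false

namespace Pool.Agent.Lib.MP_ce3cb6_co.LB

open Finset

variable {G : Type} [Fintype G] [DecidableEq G]

private theorem Two_all (i γ : G) (hm : 2 ≤ Fintype.card G) :
    ((univ.filter fun π : Equiv.Perm G => π i = γ).card : ℝ) ≤
      ((Fintype.card G - 1).factorial : ℝ) := by
  have h := card_tail_le i γ ∅ ∅ (Finset.notMem_empty _) (Finset.notMem_empty _) 0 hm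
  simpa using h

private theorem Two_num1 : ((1 + 1 / (15 : ℝ)) ^ (15 + 1) * 15) ^ 8 * (751 / 1000) ^ 120 ≤ 1 / 5 := by
  norm_num

private theorem Two_num2 : ((1 + 1 / (7 : ℝ)) ^ (7 + 1) * 7) * (504 / 1000) ^ 7 ≤ 1 / 5 := by
  norm_num

private theorem Two_pow (A B : ℝ) (a b u : ℕ) :
    A ^ (a * u) * B ^ (b * u) = (A ^ a * B ^ b) ^ u := by
  rw [mul_pow, ← pow_mul, ← pow_mul]

/-- the first step -/
private theorem Two_a (i γ : G) (Y₁ W : Finset G) (hY : i ∉ Y₁) (hW : γ ∉ W) (u : ℕ)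
    (hc : Y₁.card = 128 * u) (hWc : 4 * W.card ≤ 3 * Fintype.card G) (hm : 1000 ≤ Fintype.card G) :
    ((univ.filter fun π : Equiv.Perm G => π i = γ ∧
      120 * u ≤ (Y₁.filter fun y => π y ∈ W).card).card : ℝ) ≤
      (1 / 5) ^ u * ((Fintype.card G - 1).factorial : ℝ) := by
  refine (card_tail_le i γ Y₁ W hY hW (120 * u) (by omega)).trans ?_
  refine mul_le_mul_of_nonneg_right ?_ (Nat.cast_nonneg _)
  rw [hc]
  have h1 : (128 * u).choose (120 * u) = ((15 + 1) * (8 * u)).choose (8 * u) := by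
    rw [show 128 * u = 120 * u + 8 * u by ring, Nat.choose_symm_add]
    congr 1
    ring
  have h2 := choose_le 15 (8 * u) (by norm_num)
  have hm1 : ((Fintype.card G - 1 : ℕ) : ℝ) = (Fintype.card G : ℝ) - 1 := by
    rw [Nat.cast_sub (by omega)]
    simp
  have hm2 : (1000 : ℝ) ≤ (Fintype.card G : ℝ) := by exact_mod_cast hm
  have h3 : (W.card : ℝ) / ((Fintype.card G - 1 : ℕ) : ℝ) ≤ 751 / 1000 := by
    rw [hm1, div_le_div_iff₀ (by linarith) (by norm_num)]
    have h4 : (4 : ℝ) * W.card ≤ 3 * Fintype.card G := by exact_mod_cast hWc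
    linarith
  have h4 : 0 ≤ (W.card : ℝ) / ((Fintype.card G - 1 : ℕ) : ℝ) := by positivity
  rw [h1]
  calc ((((15 + 1) * (8 * u)).choose (8 * u) : ℕ) : ℝ) *
        ((W.card : ℝ) / ((Fintype.card G - 1 : ℕ) : ℝ)) ^ (120 * u)
      ≤ ((1 + 1 / ((15 : ℕ) : ℝ)) ^ (15 + 1) * (15 : ℕ)) ^ (8 * u) * (751 / 1000) ^ (120 * u) := by
        refine mul_le_mul h2 (pow_le_pow_left₀ h4 h3 _) (pow_nonneg h4 _) (by positivity)
    _ = (((1 + 1 / (15 : ℝ)) ^ (15 + 1) * 15) ^ 8 * (751 / 1000) ^ 120) ^ u := by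
        rw [Two_pow, Nat.cast_ofNat]
    _ ≤ (1 / 5) ^ u := pow_le_pow_left₀ (by positivity) Two_num1 _

/-- the second step -/
private theorem Two_b (j η : G) (S₂ X : Finset G) (β : G → G) (hβ : Set.InjOn β S₂)
    (hβ' : ∀ s ∈ S₂, β s ≠ η) (hX : j ∉ X) (u : ℕ)
    (hc : S₂.card = 8 * u) (hXc : 2 * X.card ≤ Fintype.card G + 6) (hm : 1000 ≤ Fintype.card G) :
    ((univ.filter fun σ : Equiv.Perm G => σ j = η ∧
      7 * u ≤ (S₂.filter fun s => σ.symm (β s) ∈ X).card).card : ℝ) ≤
      (1 / 5) ^ u * ((Fintype.card G - 1).factorial : ℝ) := by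
  have h0 : η ∉ S₂.image β := by
    intro h
    rw [Finset.mem_image] at h
    obtain ⟨s, hs, he⟩ := h
    exact hβ' s hs he
  have hcard : (univ.filter fun σ : Equiv.Perm G => σ j = η ∧
      7 * u ≤ (S₂.filter fun s => σ.symm (β s) ∈ X).card).card ≤
      (univ.filter fun π : Equiv.Perm G => π η = j ∧
        7 * u ≤ ((S₂.image β).filter fun y => π y ∈ X).card).card := by
    refine Finset.card_le_card_of_injOn (fun σ => σ.symm) ?_ ?_
    · intro σ hσ
      rw [Finset.mem_coe, Finset.mem_filter] at hσ ⊢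
      refine ⟨Finset.mem_univ _, ?_, ?_⟩
      · rw [← hσ.2.1]
        exact Equiv.symm_apply_apply _ _
      · refine hσ.2.2.trans ?_
        rw [Finset.filter_image, Finset.card_image_of_injOn]
        intro a ha b hb hab
        rw [Finset.mem_coe, Finset.mem_filter] at ha hb
        exact hβ ha.1 hb.1 hab
    · intro σ _ σ' _ h
      exact Equiv.symm_bijective.1 h
  refine (Nat.cast_le.2 hcard).trans ?_
  refine (card_tail_le η j (S₂.image β) X h0 hX (7 * u) (by omega)).trans ?_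
  refine mul_le_mul_of_nonneg_right ?_ (Nat.cast_nonneg _)
  rw [Finset.card_image_of_injOn hβ, hc]
  have h1 : (8 * u).choose (7 * u) = ((7 + 1) * u).choose u := by
    rw [show 8 * u = 7 * u + u by ring, Nat.choose_symm_add]
  have h2 := choose_le 7 u (by norm_num)
  have hm1 : ((Fintype.card G - 1 : ℕ) : ℝ) = (Fintype.card G : ℝ) - 1 := by
    rw [Nat.cast_sub (by omega)]
    simp
  have hm2 : (1000 : ℝ) ≤ (Fintype.card G : ℝ) := by exact_mod_cast hm
  have h3 : (X.card : ℝ) / ((Fintype.card G - 1 : ℕ) : ℝ) ≤ 504 / 1000 := by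
    rw [hm1, div_le_div_iff₀ (by linarith) (by norm_num)]
    have h4 : (2 : ℝ) * X.card ≤ Fintype.card G + 6 := by exact_mod_cast hXc
    linarith
  have h4 : 0 ≤ (X.card : ℝ) / ((Fintype.card G - 1 : ℕ) : ℝ) := by positivity
  rw [h1]
  calc ((((7 + 1) * u).choose u : ℕ) : ℝ) *
        ((X.card : ℝ) / ((Fintype.card G - 1 : ℕ) : ℝ)) ^ (7 * u)
      ≤ ((1 + 1 / ((7 : ℕ) : ℝ)) ^ (7 + 1) * (7 : ℕ)) ^ u * (504 / 1000) ^ (7 * u) := by
        refine mul_le_mul h2 (pow_le_pow_left₀ h4 h3 _) (pow_nonneg h4 _) (by positivity)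
    _ = (((1 + 1 / (7 : ℝ)) ^ (7 + 1) * 7) * (504 / 1000) ^ 7) ^ u := by
        have h6 := Two_pow ((1 + 1 / ((7 : ℕ) : ℝ)) ^ (7 + 1) * (7 : ℕ)) (504 / 1000) 1 7 u
        rw [one_mul, pow_one] at h6
        rw [h6, Nat.cast_ofNat]
    _ ≤ (1 / 5) ^ u := pow_le_pow_left₀ (by positivity) Two_num2 _

/-- The case in which `X` is at most (about) half of `G`.
Proof. `m = |G|`. (a) `Y' := G \ {i} \ Y` has at least `128u` elements, let `Y₁ ⊆ Y'` have exactly `128u`. Let `W = G \ {γ} \ α(S)`,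
`|W| = m-1-|S| ≤ 3m/4`. By `card_tail_le` the number of `ρ` with `ρ i = γ` and at least `120u` (or `120u+1`) of the `y ∈ Y₁`
mapped into `W` is at most `C(128u,120u) (|W|/(m-1))^(120u) (m-1)! ≤ (((16/15)^16 * 15)^8 * (751/1000)^120)^u (m-1)! ≤ (1/5)^u (m-1)!`
(`Nat.choose_symm`, `choose_le` with `a = 15`, `v = 8u`; `|W|/(m-1) ≤ 751/1000` because `m ≥ 1000`).
(b) For the other `ρ` the set `S₁ = {s ∈ S | ρ⁻¹ (α s) ∈ Y₁}` has at least `8u` elements; take a subset `S₂` of exactly `8u`.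
If fewer than `u` of the `s ∈ S₂` have `σ⁻¹ (β s) ∉ X`, then at least `7u` (even `7u+1`) of them have `σ⁻¹ (β s) ∈ X`:
by `card_tail_le` for `π = σ⁻¹` (`π η = j`, the set `β(S₂)`, `W = X`, `t = 7u`) the number of such `σ` with `σ j = η` is at most
`C(8u,7u) (|X|/(m-1))^(7u) (m-1)! ≤ ((8/7)^8 * 7 * (504/1000)^7)^u (m-1)! ≤ (1/5)^u (m-1)!`.
(c) the number of `ρ` with `ρ i = γ` is at most `(m-1)!`. -/
theorem two_perm_aux (i j γ η : G) (X Y S : Finset G) (α β : G → G) (hα : Set.InjOn α S) (hβ : Set.InjOn β S)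
    (hα' : ∀ s ∈ S, α s ≠ γ) (hβ' : ∀ s ∈ S, β s ≠ η) (hX : j ∉ X) (hY : i ∉ Y)
    (hS : Fintype.card G ≤ 4 * (S.card + 1)) (u : ℕ)
    (hY1 : Y.card + 128 * u + 1 ≤ Fintype.card G) (hX1 : 2 * X.card ≤ Fintype.card G + 6)
    (hm : 1000 ≤ Fintype.card G) :
    ((univ.filter fun p : Equiv.Perm G × Equiv.Perm G => p.1 i = γ ∧ p.2 j = η ∧
      (S.filter fun s => p.1.symm (α s) ∉ Y ∧ p.2.symm (β s) ∉ X).card < u).card : ℝ) ≤
      2 * (1 / 5) ^ u * ((Fintype.card G - 1).factorial : ℝ) ^ 2 := by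
  set F : ℝ := ((Fintype.card G - 1).factorial : ℝ) with hF
  have hF0 : 0 ≤ F := Nat.cast_nonneg _
  have h5 : (0 : ℝ) ≤ (1 / 5) ^ u := by positivity
  -- the set Y₁
  obtain ⟨Y₁, hY₁, hY₁c⟩ : ∃ Y₁ ⊆ univ \ (insert i Y), Y₁.card = 128 * u := by
    refine Finset.exists_subset_card_eq ?_
    rw [Finset.card_univ_sdiff, Finset.card_insert_of_notMem hY]
    omega
  have hY₁i : i ∉ Y₁ := by
    intro h
    have := hY₁ h
    rw [Finset.mem_sdiff, Finset.mem_insert] at this
    exact this.2 (Or.inl rfl)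
  have hY₁Y : ∀ y ∈ Y₁, y ∉ Y := by
    intro y h hy
    have := hY₁ h
    rw [Finset.mem_sdiff, Finset.mem_insert] at this
    exact this.2 (Or.inr hy)
  -- the set W
  set W : Finset G := univ \ (insert γ (S.image α)) with hW
  have hγS : γ ∉ S.image α := by
    intro h
    rw [Finset.mem_image] at h
    obtain ⟨s, hs, he⟩ := h
    exact hα' s hs he
  have hWγ : γ ∉ W := by
    rw [hW, Finset.mem_sdiff, Finset.mem_insert]
    intro h
    exact h.2 (Or.inl rfl)
  have hWc : 4 * W.card ≤ 3 * Fintype.card G := by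
    rw [hW, Finset.card_univ_sdiff, Finset.card_insert_of_notMem hγS, Finset.card_image_of_injOn hα]
    omega
  -- the count as a double sum
  have hsum : ((univ.filter fun p : Equiv.Perm G × Equiv.Perm G => p.1 i = γ ∧ p.2 j = η ∧
      (S.filter fun s => p.1.symm (α s) ∉ Y ∧ p.2.symm (β s) ∉ X).card < u).card : ℝ) =
      ∑ ρ : Equiv.Perm G, ((univ.filter fun σ : Equiv.Perm G => ρ i = γ ∧ σ j = η ∧
      (S.filter fun s => ρ.symm (α s) ∉ Y ∧ σ.symm (β s) ∉ X).card < u).card : ℝ) := by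
    rw [Finset.card_filter, Fintype.sum_prod_type]
    push_cast
    refine Finset.sum_congr rfl fun ρ _ => ?_
    rw [Finset.card_filter]
    push_cast
    rfl
  rw [hsum]
  have hpt : ∀ ρ : Equiv.Perm G, ((univ.filter fun σ : Equiv.Perm G => ρ i = γ ∧ σ j = η ∧
      (S.filter fun s => ρ.symm (α s) ∉ Y ∧ σ.symm (β s) ∉ X).card < u).card : ℝ) ≤
      (if ρ i = γ ∧ 120 * u ≤ (Y₁.filter fun y => ρ y ∈ W).card then F else 0) +
        (if ρ i = γ then (1 / 5) ^ u * F else 0) := by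
    intro ρ
    by_cases hρ : ρ i = γ
    · by_cases hb : 120 * u ≤ (Y₁.filter fun y => ρ y ∈ W).card
      · rw [if_pos ⟨hρ, hb⟩, if_pos hρ]
        have h1 : ((univ.filter fun σ : Equiv.Perm G => ρ i = γ ∧ σ j = η ∧
            (S.filter fun s => ρ.symm (α s) ∉ Y ∧ σ.symm (β s) ∉ X).card < u).card : ℝ) ≤
            ((univ.filter fun σ : Equiv.Perm G => σ j = η).card : ℝ) := by
          refine Nat.cast_le.2 (Finset.card_le_card ?_)
          intro σ hσ
          rw [Finset.mem_filter] at hσ ⊢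
          exact ⟨hσ.1, hσ.2.2.1⟩
        have h2 := Two_all j η (by omega : 2 ≤ Fintype.card G)
        have h3 : 0 ≤ (1 / 5) ^ u * F := mul_nonneg h5 hF0
        linarith
      · rw [if_neg (fun h => hb h.2), if_pos hρ, zero_add]
        push Not at hb
        -- many s with ρ.symm (α s) ∈ Y₁
        have hS₁ : 8 * u ≤ (S.filter fun s => ρ.symm (α s) ∈ Y₁).card := by
          have h1 : (Y₁.filter fun y => ρ y ∉ W).card ≤
              (S.filter fun s => ρ.symm (α s) ∈ Y₁).card := by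
            have h2 : (Y₁.filter fun y => ρ y ∉ W) ⊆
                (S.filter fun s => ρ.symm (α s) ∈ Y₁).image fun s => ρ.symm (α s) := by
              intro y hy
              rw [Finset.mem_filter] at hy
              have h3 : ρ y ∈ insert γ (S.image α) := by
                by_contra hc
                apply hy.2
                rw [hW, Finset.mem_sdiff]
                exact ⟨Finset.mem_univ _, hc⟩
              rw [Finset.mem_insert, Finset.mem_image] at h3
              rcases h3 with h3 | ⟨s, hs, h3⟩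
              · exfalso
                have h4 : y = i := ρ.injective (h3.trans hρ.symm)
                exact hY₁i (h4 ▸ hy.1)
              · rw [Finset.mem_image]
                have h4 : ρ.symm (α s) = y := by
                  rw [h3]
                  exact Equiv.symm_apply_apply _ _
                refine ⟨s, ?_, h4⟩
                rw [Finset.mem_filter, h4]
                exact ⟨hs, hy.1⟩
            exact (Finset.card_le_card h2).trans Finset.card_image_le
          have h2 := Finset.card_filter_add_card_filter_not (s := Y₁) (fun y => ρ y ∈ W)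
          omega
        obtain ⟨S₂, hS₂, hS₂c⟩ := Finset.exists_subset_card_eq hS₁
        have hS₂S : S₂ ⊆ S := hS₂.trans (Finset.filter_subset _ _)
        have h1 : ((univ.filter fun σ : Equiv.Perm G => ρ i = γ ∧ σ j = η ∧
            (S.filter fun s => ρ.symm (α s) ∉ Y ∧ σ.symm (β s) ∉ X).card < u).card : ℝ) ≤
            ((univ.filter fun σ : Equiv.Perm G => σ j = η ∧
              7 * u ≤ (S₂.filter fun s => σ.symm (β s) ∈ X).card).card : ℝ) := by
          refine Nat.cast_le.2 (Finset.card_le_card ?_)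
          intro σ hσ
          rw [Finset.mem_filter] at hσ ⊢
          refine ⟨hσ.1, hσ.2.2.1, ?_⟩
          have h2 : (S₂.filter fun s => σ.symm (β s) ∉ X).card ≤
              (S.filter fun s => ρ.symm (α s) ∉ Y ∧ σ.symm (β s) ∉ X).card := by
            refine Finset.card_le_card ?_
            intro s hs
            rw [Finset.mem_filter] at hs ⊢
            refine ⟨hS₂S hs.1, ?_, hs.2⟩
            have h3 := hS₂ hs.1
            rw [Finset.mem_filter] at h3
            exact hY₁Y _ h3.2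
          have h3 := Finset.card_filter_add_card_filter_not (s := S₂) (fun s => σ.symm (β s) ∈ X)
          have h4 := hσ.2.2.2
          omega
        refine h1.trans ?_
        exact Two_b j η S₂ X β (hβ.mono (by exact_mod_cast hS₂S)) (fun s hs => hβ' s (hS₂S hs)) hX u
          hS₂c hX1 hm
    · rw [if_neg (fun h => hρ h.1), if_neg hρ, add_zero]
      have h1 : (univ.filter fun σ : Equiv.Perm G => ρ i = γ ∧ σ j = η ∧
          (S.filter fun s => ρ.symm (α s) ∉ Y ∧ σ.symm (β s) ∉ X).card < u) = ∅ := by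
        rw [Finset.filter_eq_empty_iff]
        intro σ _ h
        exact hρ h.1
      rw [h1]
      simp
  refine (Finset.sum_le_sum fun ρ _ => hpt ρ).trans ?_
  rw [Finset.sum_add_distrib, ← Finset.sum_filter, ← Finset.sum_filter, Finset.sum_const,
    Finset.sum_const, nsmul_eq_mul, nsmul_eq_mul]
  have h1 := Two_a i γ Y₁ W hY₁i hWγ u hY₁c hWc hm
  have h2 := Two_all i γ (by omega : 2 ≤ Fintype.card G)
  rw [← hF] at h1 h2
  have h3 := mul_le_mul_of_nonneg_right h1 hF0
  have h4 := mul_le_mul_of_nonneg_right h2 (mul_nonneg h5 hF0)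
  have h6 : 2 * (1 / 5) ^ u * F ^ 2 = (1 / 5) ^ u * F * F + F * ((1 / 5) ^ u * F) := by ring
  rw [h6]
  exact add_le_add h3 h4

/-- Both cases (the other one by exchanging the two permutations). -/
theorem two_perm (i j γ η : G) (X Y S : Finset G) (α β : G → G) (hα : Set.InjOn α S) (hβ : Set.InjOn β S)
    (hα' : ∀ s ∈ S, α s ≠ γ) (hβ' : ∀ s ∈ S, β s ≠ η) (hX : j ∉ X) (hY : i ∉ Y)
    (hS : Fintype.card G ≤ 4 * (S.card + 1)) (u : ℕ)
    (hX1 : X.card + 128 * u + 1 ≤ Fintype.card G) (hY1 : Y.card + 128 * u + 1 ≤ Fintype.card G)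
    (hXY : X.card + Y.card ≤ Fintype.card G + 6) (hm : 1000 ≤ Fintype.card G) :
    ((univ.filter fun p : Equiv.Perm G × Equiv.Perm G => p.1 i = γ ∧ p.2 j = η ∧
      (S.filter fun s => p.1.symm (α s) ∉ Y ∧ p.2.symm (β s) ∉ X).card < u).card : ℝ) ≤
      2 * (1 / 5) ^ u * ((Fintype.card G - 1).factorial : ℝ) ^ 2 := by
  by_cases h : 2 * X.card ≤ Fintype.card G + 6
  · exact two_perm_aux i j γ η X Y S α β hα hβ hα' hβ' hX hY hS u hY1 h hm
  · have h1 := two_perm_aux j i η γ Y X S β α hβ hα hβ' hα' hY hX hS u hX1 (by omega) hm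
    refine le_trans (Nat.cast_le.2 ?_) h1
    refine Finset.card_le_card_of_injOn Prod.swap ?_ Prod.swap_injective.injOn
    intro p hp
    rw [Finset.mem_coe, Finset.mem_filter] at hp ⊢
    refine ⟨Finset.mem_univ _, hp.2.2.1, hp.2.1, ?_⟩
    refine lt_of_eq_of_lt ?_ hp.2.2.2
    congr 1
    ext s
    simp only [Finset.mem_filter, Prod.fst_swap, Prod.snd_swap]
    tauto

end Pool.Agent.Lib.MP_ce3cb6_co.LB
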